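import Pool.Agent.W458.MF.Gen1

/-!
# The sieve for products of families with general observables
-/

set_option autoImplicit false

open Polynomial

namespace Pool.Agent.K1H12.UN

open Pool.Agent.W458.MF

/-- Asymptotic independence of the observables `ob` modulo the primes in `G`. -/
def Equi {S : ℕ → Type} [∀ m, Fintype (S m)] {Ob : ℕ → Type}
    (ob : ∀ m l : ℕ, S m → Ob l) (G : Set ℕ) (π : ∀ m l : ℕ, Set (Ob l) → ℝ) : Prop :=
  ∀ l ∈ G, ∀ l' ∈ G, l ≠ l' → ∀ ε : ℝ, 0 < ε → ∃ m₀ : ℕ, ∀ m ≥ m₀, Nonempty (S m) →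
    ∀ (E : Set (Ob l)) (E' : Set (Ob l')),
      |({s : S m | ob m l s ∈ E ∧ ob m l' s ∈ E'}.ncard : ℝ) / (Nat.card (S m) : ℝ) -
        π m l E * π m l' E'| ≤ ε

variable {S : ℕ → Type} [∀ m, Fintype (S m)] {Ob : ℕ → Type}

lemma equi_one {ob : ∀ m l : ℕ, S m → Ob l} {G : Set ℕ} {π : ∀ m l : ℕ, Set (Ob l) → ℝ}
    (hF : Equi ob G π) (h0 : ∀ l ∈ G, ∀ m, ∀ E, 0 ≤ π m l E) (h1 : ∀ l ∈ G, ∀ m, ∀ E, π m l E ≤ 1)
    {l l' : ℕ} (hl : l ∈ G) (hl' : l' ∈ G) (hll : l ≠ l') {ε : ℝ} (hε : 0 < ε) :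
    ∃ m₀ : ℕ, ∀ m ≥ m₀, Nonempty (S m) →
      (∀ (E : Set (Ob l)) (E' : Set (Ob l')),
        |(({s | ob m l s ∈ E} ∩ {s | ob m l' s ∈ E'}).ncard : ℝ) / (Nat.card (S m) : ℝ) -
          π m l E * π m l' E'| ≤ ε) ∧
      ∀ E : Set (Ob l), |({s | ob m l s ∈ E}.ncard : ℝ) / (Nat.card (S m) : ℝ) -
          π m l E| ≤ ε := by
  obtain ⟨m₀, h⟩ := hF l hl l' hl' hll (ε / 2) (by positivity)
  refine ⟨m₀, fun m hm hne => ?_⟩
  have h2 : ∀ (E : Set (Ob l)) (E' : Set (Ob l')),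
        |(({s | ob m l s ∈ E} ∩ {s | ob m l' s ∈ E'}).ncard : ℝ) / (Nat.card (S m) : ℝ) -
          π m l E * π m l' E'| ≤ ε / 2 := fun E E' => h m hm hne E E'
  refine ⟨fun E E' => (h2 E E').trans (by linarith), fun E => ?_⟩
  have h3 := h2 E Set.univ
  have h4 := h2 Set.univ Set.univ
  have e1 : {s | ob m l s ∈ E} ∩ {s | ob m l' s ∈ (Set.univ : Set (Ob l'))} =
      {s | ob m l s ∈ E} := by
    ext s
    simp
  have e2 : {s | ob m l s ∈ (Set.univ : Set (Ob l))} ∩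
      {s | ob m l' s ∈ (Set.univ : Set (Ob l'))} = Set.univ := by
    ext s
    simp
  rw [e1] at h3
  rw [e2, Set.ncard_univ, div_self (by exact_mod_cast Nat.card_pos.ne')] at h4
  have h5 := h1 l hl m E
  have h6 := h0 l hl m E
  have h7 := h1 l hl m Set.univ
  have h8 := h0 l' hl' m Set.univ
  rw [abs_le] at h3 h4 ⊢
  have h10 : 1 - π m l' Set.univ ≤ ε / 2 := by
    have : π m l Set.univ * π m l' Set.univ ≤ 1 * π m l' Set.univ :=
      mul_le_mul_of_nonneg_right h7 h8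
    linarith [h4.2]
  have h9 := h1 l' hl' m Set.univ
  have h11 : π m l E * (1 - π m l' Set.univ) ≤ 1 * (ε / 2) :=
    mul_le_mul h5 h10 (by linarith) (by norm_num)
  have h12 : 0 ≤ π m l E * (1 - π m l' Set.univ) := mul_nonneg h6 (by linarith)
  constructor
  · linarith [h3.1]
  · linarith [h3.2]

/-- Almost all tuples have the patterns. -/
theorem aa (hS : St_SIEVE) {I K : Type} [Fintype I] [Fintype K]
    (S : I → ℕ → Type) [∀ i m, Fintype (S i m)] (Ob : I → ℕ → Type)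
    (ob : ∀ i, ∀ m l : ℕ, S i m → Ob i l) (G : Set ℕ) (hG : G.Infinite)
    (π : ∀ i, ∀ m l : ℕ, Set (Ob i l) → ℝ) (hF : ∀ i, Equi (ob i) G (π i))
    (h0 : ∀ i, ∀ l ∈ G, ∀ m E, 0 ≤ π i m l E) (h1 : ∀ i, ∀ l ∈ G, ∀ m E, π i m l E ≤ 1)
    (E : K → ∀ i, ∀ m l : ℕ, Set (Ob i l)) {c₀ : ℝ} (hc₀ : 0 < c₀)
    (hE : ∀ κ i, ∀ l ∈ G, ∀ m, Nonempty (S i m) → c₀ ≤ π i m l (E κ i m l))
    (ε : ℝ) (hε : 0 < ε) :
    ∃ m₀ : ℕ, ∀ m ≥ m₀, ({s : ∀ i, S i m | ¬ ∀ κ, ∃ l ∈ G, ∀ i,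
      ob i m l (s i) ∈ E κ i m l}.ncard : ℝ) ≤ ε * ∏ i, (Nat.card (S i m) : ℝ) := by
  classical
  have hempty : ∀ m, (∃ i, IsEmpty (S i m)) → ∀ B : Set (∀ i, S i m),
      (B.ncard : ℝ) ≤ ε * ∏ i, (Nat.card (S i m) : ℝ) := by
    rintro m ⟨i, hi⟩ B
    have : IsEmpty (∀ i, S i m) := ⟨fun s => hi.false (s i)⟩
    rw [Set.eq_empty_of_isEmpty B, Set.ncard_empty, Nat.cast_zero]
    positivity
  set C : ℝ := c₀ ^ Fintype.card I with hC
  have hCpos : 0 < C := pow_pos hc₀ _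
  set η : ℝ := ε / ((Fintype.card K : ℝ) + 1) with hη
  have hηpos : 0 < η := by positivity
  obtain ⟨M, hM⟩ := exists_nat_gt (2 / (C * η))
  obtain ⟨P, hP, hPM⟩ := hG.exists_subset_card_eq (M + 2)
  set δ : ℝ := η * C ^ 2 / (8 * ((Fintype.card I : ℝ) + 1)) with hδ
  have hδpos : 0 < δ := by positivity
  have hev : ∀ᶠ m in Filter.atTop, ∀ i, ∀ l l' : P, l ≠ l' → Nonempty (S i m) →
      (∀ (E : Set (Ob i l)) (E' : Set (Ob i l')),
        |(({s | ob i m l s ∈ E} ∩ {s | ob i m l' s ∈ E'}).ncard : ℝ) / (Nat.card (S i m) : ℝ) -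
          π i m l E * π i m l' E'| ≤ δ) ∧
      ∀ E : Set (Ob i l), |({s | ob i m l s ∈ E}.ncard : ℝ) / (Nat.card (S i m) : ℝ) -
          π i m l E| ≤ δ := by
    rw [Filter.eventually_all]
    intro i
    rw [Filter.eventually_all]
    intro l
    rw [Filter.eventually_all]
    intro l'
    by_cases hll : l = l'
    · exact Filter.Eventually.of_forall fun m h => absurd hll h
    · obtain ⟨m₀, h4⟩ := equi_one (hF i) (h0 i) (h1 i) (hP l.2) (hP l'.2)
        (fun h => hll (Subtype.ext h)) hδpos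
      exact Filter.eventually_atTop.2 ⟨m₀, fun m hm _ => h4 m hm⟩
  obtain ⟨m₀, hm₀⟩ := Filter.eventually_atTop.1 hev
  refine ⟨m₀, fun m hm => ?_⟩
  by_cases hne : ∀ i, Nonempty (S i m)
  swap
  · push Not at hne
    exact hempty m hne _
  have hcard : 1 < Fintype.card P := by
    rw [Fintype.card_coe, hPM]
    omega
  have hnek : Nonempty P := Fintype.card_pos_iff.1 (by omega)
  have hnt : ∀ l : P, ∃ l' : P, l ≠ l' := by
    intro l
    have : Nontrivial P := Fintype.one_lt_card_iff_nontrivial.1 hcard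
    obtain ⟨l', hl'⟩ := exists_ne l
    exact ⟨l', hl'.symm⟩
  -- the bound for the families of events
  have hbound : ∀ κ : K,
      ({s : ∀ i, S i m | ∀ l : P, ¬ ∀ i, s i ∈ {s | ob i m l s ∈ E κ i m l}}.ncard : ℝ) ≤
        η * ∏ i, (Nat.card (S i m) : ℝ) := by
    intro κ
    have h2 := event_bound hS (S := fun i => S i m) (κ := P)
      (fun i l => {s | ob i m l s ∈ E κ i m l}) (fun i l => π i m l (E κ i m l))
      hc₀ hδpos.le (fun i l => ⟨hE κ i l (hP l.2) m (hne i), h1 i l (hP l.2) m _⟩)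
      (fun i l => by
        obtain ⟨l', hl'⟩ := hnt l
        exact (hm₀ m hm i l l' hl' (hne i)).2 _)
      (fun i l l' hll => (hm₀ m hm i l l' hll (hne i)).1 _ _)
    refine h2.trans (mul_le_mul_of_nonneg_right ?_ (by positivity))
    rw [← hC]
    have h2 : 1 / (C * (Nat.card P : ℝ)) ≤ η / 2 := by
      have h3 : (M : ℝ) ≤ (Nat.card P : ℝ) := by
        rw [Nat.card_eq_fintype_card, Fintype.card_coe, hPM]
        push_cast
        linarith
      have h4 : 2 / (C * η) < (Nat.card P : ℝ) := hM.trans_le h3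
      rw [div_lt_iff₀ (by positivity)] at h4
      have h5 : 0 < (Nat.card P : ℝ) := by
        exact_mod_cast Nat.card_pos
      rw [div_le_div_iff₀ (by positivity) (by norm_num)]
      nlinarith
    have h3 : 4 * ((Fintype.card I : ℝ) * δ) / C ^ 2 ≤ η / 2 := by
      rw [hδ, div_le_iff₀ (by positivity)]
      have e : 4 * ((Fintype.card I : ℝ) * (η * C ^ 2 / (8 * ((Fintype.card I : ℝ) + 1)))) =
          (η / 2 * C ^ 2) * ((Fintype.card I : ℝ) / ((Fintype.card I : ℝ) + 1)) := by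
        field_simp
        ring
      rw [e]
      have h6 : (Fintype.card I : ℝ) / ((Fintype.card I : ℝ) + 1) ≤ 1 :=
        div_le_one_of_le₀ (by linarith) (by positivity)
      calc (η / 2 * C ^ 2) * ((Fintype.card I : ℝ) / ((Fintype.card I : ℝ) + 1))
          ≤ (η / 2 * C ^ 2) * 1 := mul_le_mul_of_nonneg_left h6 (by positivity)
        _ = η / 2 * C ^ 2 := mul_one _
    linarith
  have hsub : {s : ∀ i, S i m | ¬ ∀ κ, ∃ l ∈ G, ∀ i, ob i m l (s i) ∈ E κ i m l} ⊆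
      ⋃ κ, {s : ∀ i, S i m | ∀ l : P, ¬ ∀ i, s i ∈ {s | ob i m l s ∈ E κ i m l}} := by
    intro s hs
    rw [Set.mem_iUnion]
    by_contra hcon
    push Not at hcon
    apply hs
    intro κ
    have h3 := hcon κ
    by_contra h4
    push Not at h4
    exact h3 fun l => h4 l (hP l.2)
  have hP0 : 0 ≤ ∏ i, (Nat.card (S i m) : ℝ) := by positivity
  calc ({s : ∀ i, S i m | ¬ ∀ κ, ∃ l ∈ G, ∀ i,
        ob i m l (s i) ∈ E κ i m l}.ncard : ℝ)
      ≤ ((⋃ κ, {s : ∀ i, S i m |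
          ∀ l : P, ¬ ∀ i, s i ∈ {s | ob i m l s ∈ E κ i m l}}).ncard : ℝ) := by
        exact_mod_cast Set.ncard_le_ncard hsub (Set.toFinite _)
    _ ≤ ∑ _κ : K, η * ∏ i, (Nat.card (S i m) : ℝ) := ncard_iUnion_le' _ _ hbound
    _ = ((Fintype.card K : ℝ) * η) * ∏ i, (Nat.card (S i m) : ℝ) := by
        rw [Finset.sum_const, Finset.card_univ, nsmul_eq_mul]
        ring
    _ ≤ ε * ∏ i, (Nat.card (S i m) : ℝ) := by
        refine mul_le_mul_of_nonneg_right ?_ hP0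
        rw [hη, mul_div_assoc', div_le_iff₀ (by positivity)]
        nlinarith [(Nat.cast_nonneg (Fintype.card K) : (0 : ℝ) ≤ Fintype.card K)]

end Pool.Agent.K1H12.UN
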