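import Pool.Agent.K1H12.UN.Asm

/-!
# Unitary families: separation of the determinants
-/

set_option autoImplicit false

open CategoryTheory AlgebraicGeometry Polynomial NumberField

universe u v

namespace Pool.Agent.K1H12.UN

open Pool.Agent.H914 Pool.Agent.W534 Pool.Agent.W521.Frob VarClass Obj WeilCohomology
  Pool.Agent.W458.MF

section Fib

variable {I : Type} [Fintype I] {S : I → ℕ → Type} [∀ i m, Fintype (S i m)] {D : I → Type}

lemma fib_one (m : ℕ) (det : ∀ i, S i m → D i) (B : Set (∀ i, S i m)) (ε : ℝ)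
    (h : ∀ δ : ∀ i, D i,
      ({s : ∀ i, {s : S i m // det i s = δ i} | (fun i => (s i).1) ∈ B}.ncard : ℝ) ≤
        ε * ∏ i, (Nat.card {s : S i m // det i s = δ i} : ℝ)) :
    (B.ncard : ℝ) ≤ ε * ∏ i, (Nat.card (S i m) : ℝ) := by
  classical
  set f : (∀ i, S i m) → (∀ i, D i) := fun s i => det i (s i) with hf
  have hpart : ∀ T : Set (∀ i, S i m), (T.ncard : ℝ) =
      ∑ δ ∈ Finset.univ.image f, ({s | s ∈ T ∧ f s = δ}.ncard : ℝ) := by
    intro T
    have h1 : T.toFinset.card = ∑ δ ∈ Finset.univ.image f,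
        (T.toFinset.filter fun s => f s = δ).card :=
      Finset.card_eq_sum_card_fiberwise fun s _ => by
        simp only [Finset.coe_image, Finset.coe_univ, Set.image_univ, Set.mem_range]
        exact ⟨s, rfl⟩
    rw [Set.ncard_eq_toFinset_card', h1]
    push_cast
    refine Finset.sum_congr rfl fun δ _ => ?_
    rw [Set.ncard_eq_toFinset_card']
    congr 2
    ext s
    simp
  have hfib : ∀ (T : Set (∀ i, S i m)) (δ : ∀ i, D i),
      {s : ∀ i, {s : S i m // det i s = δ i} | (fun i => (s i).1) ∈ T}.ncard =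
        {s | s ∈ T ∧ f s = δ}.ncard := by
    intro T δ
    have hinj : Function.Injective
        fun (s : ∀ i, {s : S i m // det i s = δ i}) i => (s i).1 := by
      intro s t hst
      funext i
      exact Subtype.ext (congrFun hst i)
    rw [← Set.ncard_image_of_injective _ hinj]
    congr 1
    ext s
    constructor
    · rintro ⟨t, ht, rfl⟩
      exact ⟨ht, funext fun i => (t i).2⟩
    · rintro ⟨h1, h2⟩
      exact ⟨fun i => ⟨s i, congrFun h2 i⟩, h1, rfl⟩
  have hcard : ∀ δ : ∀ i, D i, ∏ i, (Nat.card {s : S i m // det i s = δ i} : ℝ) =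
      ({s | s ∈ (Set.univ : Set (∀ i, S i m)) ∧ f s = δ}.ncard : ℝ) := by
    intro δ
    rw [← hfib Set.univ δ]
    have h1 : {s : ∀ i, {s : S i m // det i s = δ i} |
        (fun i => (s i).1) ∈ (Set.univ : Set (∀ i, S i m))} = Set.univ := by
      ext s; simp
    rw [h1, Set.ncard_univ, Nat.card_pi]
    push_cast
    rfl
  rw [hpart B]
  calc ∑ δ ∈ Finset.univ.image f, ({s | s ∈ B ∧ f s = δ}.ncard : ℝ)
      ≤ ∑ δ ∈ Finset.univ.image f,
        ε * ({s | s ∈ (Set.univ : Set (∀ i, S i m)) ∧ f s = δ}.ncard : ℝ) := by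
        refine Finset.sum_le_sum fun δ _ => ?_
        rw [← hfib B δ, ← hcard δ]
        exact h δ
    _ = ε * ∏ i, (Nat.card (S i m) : ℝ) := by
        rw [← Finset.mul_sum, ← hpart Set.univ, Set.ncard_univ, Nat.card_pi]
        push_cast
        rfl

/-- **If the exceptional tuples have a small proportion among the tuples with given determinants,
for every choice of the determinants, then they have a small proportion.** -/
theorem fib [∀ i, Zero (D i)] (det : ∀ i m, S i m → D i) (B : ∀ m, Set (∀ i, S i m)) (ε : ℝ)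
    (h : ∀ δ : ∀ i, ℕ → D i, ∃ m₀ : ℕ, ∀ m ≥ m₀,
      ({s : ∀ i, {s : S i m // det i m s = δ i m} | (fun i => (s i).1) ∈ B m}.ncard : ℝ) ≤
        ε * ∏ i, (Nat.card {s : S i m // det i m s = δ i m} : ℝ)) :
    ∃ m₀ : ℕ, ∀ m ≥ m₀, ((B m).ncard : ℝ) ≤ ε * ∏ i, (Nat.card (S i m) : ℝ) := by
  classical
  have hw : ∀ m, ∃ δ : ∀ i, D i,
      (({s : ∀ i, {s : S i m // det i m s = δ i} | (fun i => (s i).1) ∈ B m}.ncard : ℝ) ≤
        ε * ∏ i, (Nat.card {s : S i m // det i m s = δ i} : ℝ)) →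
      ((B m).ncard : ℝ) ≤ ε * ∏ i, (Nat.card (S i m) : ℝ) := by
    intro m
    by_contra hcon
    push Not at hcon
    have h1 := fib_one m (fun i => det i m) (B m) ε fun δ => (hcon δ).1
    exact absurd h1 (not_le.2 (hcon fun i => 0).2)
  choose δ hδ using hw
  obtain ⟨m₀, h0⟩ := h fun i m => δ m i
  exact ⟨m₀, fun m hm => hδ m (h0 m hm)⟩

end Fib

variable {k : Type u} [Field k] {𝒱 : VarClass k} {ops : CycleOps 𝒱}
  {W : WeilCohomology.{u, v} ops} {Y : 𝒱.Obj} {p : ℕ} {Φ : FrobSystem W p}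

open Classical in
/-- The subfamily of the members with determinant `δ m`. -/
noncomputable def sub (F : Family W Y) {A : Type} (det : ∀ m, F.S m → A) (δ : ℕ → A) :
    Family W Y where
  S m := {s : F.S m // det m s = δ m}
  fin m := inferInstance
  member m s := F.member m s.1

lemma sub_um {F : Family W Y} {K : Type} [Field K] [NumberField K] [IsCMField K] {d r l₀ : ℕ}
    {P : ∀ m, F.S m → (𝓞 K)[X]} {Δ : ℕ → Set (𝓞 K)}
    (hF : HasUnitaryMonodromy F Φ K d r l₀ P Δ) (δ : ℕ → 𝓞 K) :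
    HasUM (sub F (fun m s => (-1) ^ r * (P m s).coeff 0) δ) Φ K d r l₀
      (fun m s => P m s.1) (fun m => {x | x ∈ Δ m ∧ x = δ m}) where
  isOver m hm s := hF.isOver m hm s.1
  dim m s := hF.dim m s.1
  rank := hF.rank
  monic m s := hF.monic m s.1
  natDegree m s := hF.natDegree m s.1
  norm m s := hF.norm m s.1
  rh m s := hF.rh m s.1
  det m s := by
    refine ⟨(-1) ^ r * (P m s.1).coeff 0, ⟨hF.det m s.1, s.2⟩, ?_⟩
    rw [← mul_assoc, ← mul_pow]
    simp
  norm_det m x hx := hF.norm_det m x hx.1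
  equidistributed := by
    intro l l' hl hl' h1 h2 h3 h4 h5 ε hε
    obtain ⟨m₀, h⟩ := hF.equidistributed l l' hl hl' h1 h2 h3 h4 h5 ε hε
    refine ⟨m₀, fun m hm hne E E' => ?_⟩
    have hδ : δ m ∈ Δ m := by
      obtain ⟨s⟩ := hne
      have h6 := hF.det m s.1
      have h7 : (-1) ^ r * (P m s.1).coeff 0 = δ m := s.2
      rw [h7] at h6
      exact h6
    have e : {x | x ∈ Δ m ∧ x = δ m} = {δ m} := by
      ext x
      constructor
      · exact fun h => h.2
      · intro h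
        rw [Set.mem_singleton_iff.1 h]
        exact ⟨hδ, rfl⟩
    rw [e]
    exact h m hm (δ m) hδ hne E E'

/-- **The Tate conjecture and semisimplicity for the products of almost all members of families
with unitary monodromy.** -/
theorem unitary_tate (W : WeilCohomology.{u, v} ops)
    [IsAlgClosed W.K] (σ : W.K →+* ℂ) (p : ℕ)
    (hp : p.Prime) (Φ : FrobSystem W p) (Y : 𝒱.Obj)
    (hint : ∀ μ : W.K, Module.End.HasEigenvalue (W.map (Φ.Fr Y)).toLinearMap μ → IsIntegral ℤ μ)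
    (hY : ∀ Z, IsProductOf {Y} Z → ∀ j ≤ Z.dim, SemisimpleTateIn Φ Z j)
    {I : Type} [Fintype I] (F : I → Family W Y) (K : I → Type) [∀ i, Field (K i)]
    [∀ i, NumberField (K i)] [∀ i, IsCMField (K i)] (d r l₀ : I → ℕ)
    (P : ∀ i m, (F i).S m → (𝓞 (K i))[X]) (Δ : ∀ i, ℕ → Set (𝓞 (K i)))
    (hF : ∀ i, HasUnitaryMonodromy (F i) Φ (K i) (d i) (r i) (l₀ i) (P i) (Δ i))
    (hind : ∀ m, 0 < m → ∀ δ : ∀ i, 𝓞 (K i), (∀ i, δ i ∈ Δ i m) →
      Independent K δ (frobConjugates Φ Y)) (ε : ℝ) (hε : 0 < ε) :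
    ∃ m₀ : ℕ, ∀ m ≥ m₀, ((exceptions F m fun Z => ∀ j, SemisimpleTateIn Φ Z j).ncard : ℝ) ≤
      ε * ∏ i, (Nat.card ((F i).S m) : ℝ) := by
  refine fib (S := fun i m => (F i).S m) (D := fun i => 𝓞 (K i))
    (fun i m s => (-1) ^ r i * (P i m s).coeff 0)
    (fun m => exceptions F m fun Z => ∀ j, SemisimpleTateIn Φ Z j) ε fun δ => ?_
  exact unitary_tate₀ W σ p hp Φ Y hint hY
    (fun i => sub (F i) (fun m s => (-1) ^ r i * (P i m s).coeff 0) (δ i)) K d r l₀
    (fun i m s => P i m s.1) (fun i m => {x | x ∈ Δ i m ∧ x = δ i m})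
    (fun i => sub_um (hF i) (δ i))
    (fun m hm x hx => hind m hm x fun i => (hx i).1) ε hε

/-- **The pole formula for the products of almost all members of families with unitary
monodromy.** -/
theorem unitary_pole (W : WeilCohomology.{u, v} ops)
    [IsAlgClosed W.K] (σ : W.K →+* ℂ) (p : ℕ)
    (hp : p.Prime) (Φ : FrobSystem W p) (hRH : ∀ Z, RiemannHyp Φ σ Z) (Y : 𝒱.Obj)
    (hint : ∀ μ : W.K, Module.End.HasEigenvalue (W.map (Φ.Fr Y)).toLinearMap μ → IsIntegral ℤ μ)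
    (hY : ∀ Z, IsProductOf {Y} Z → ∀ j ≤ Z.dim, PoleFormula Φ σ Z j)
    {I : Type} [Fintype I] (F : I → Family W Y) (K : I → Type) [∀ i, Field (K i)]
    [∀ i, NumberField (K i)] [∀ i, IsCMField (K i)] (d r l₀ : I → ℕ)
    (P : ∀ i m, (F i).S m → (𝓞 (K i))[X]) (Δ : ∀ i, ℕ → Set (𝓞 (K i)))
    (hF : ∀ i, HasUnitaryMonodromy (F i) Φ (K i) (d i) (r i) (l₀ i) (P i) (Δ i))
    (hind : ∀ m, 0 < m → ∀ δ : ∀ i, 𝓞 (K i), (∀ i, δ i ∈ Δ i m) →
      Independent K δ (frobConjugates Φ Y)) (ε : ℝ) (hε : 0 < ε) :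
    ∃ m₀ : ℕ, ∀ m ≥ m₀,
      ((exceptions F m fun Z => ∀ j ≤ Z.dim, PoleFormula Φ σ Z j).ncard : ℝ) ≤
        ε * ∏ i, (Nat.card ((F i).S m) : ℝ) := by
  refine fib (S := fun i m => (F i).S m) (D := fun i => 𝓞 (K i))
    (fun i m s => (-1) ^ r i * (P i m s).coeff 0)
    (fun m => exceptions F m fun Z => ∀ j ≤ Z.dim, PoleFormula Φ σ Z j) ε fun δ => ?_
  exact unitary_pole₀ W σ p hp Φ hRH Y hint hY
    (fun i => sub (F i) (fun m s => (-1) ^ r i * (P i m s).coeff 0) (δ i)) K d r l₀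
    (fun i m s => P i m s.1) (fun i m => {x | x ∈ Δ i m ∧ x = δ i m})
    (fun i => sub_um (hF i) (δ i))
    (fun m hm x hx => hind m hm x fun i => (hx i).1) ε hε

end Pool.Agent.K1H12.UN
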