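import Pool.Agent.K1H12.UN.Ext
import Pool.Agent.K1H12.UN.Cond

/-!
# Abelian varieties over finite fields with unitary monodromy
-/

set_option autoImplicit false

open Polynomial NumberField

namespace Pool.Agent.K1H12.UN

open Pool.Agent.W521.Frob Pool.Agent.W458.MF

/-- The version of `IsUnitaryFamily` in which the determinant does not vary with the parameter
(it is used only for sets `Δ m` with at most one element). -/
structure IsUF (p : ℕ) (K : Type) [Field K] [NumberField K] [IsCMField K]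
    (r l₀ : ℕ) (S : ℕ → Type) (P : ∀ m, S m → (𝓞 K)[X]) (Δ : ℕ → Set (𝓞 K)) : Prop where
  rank : 2 ≤ r
  monic : ∀ m (s : S m), (P m s).Monic
  natDegree : ∀ m (s : S m), (P m s).natDegree = r
  rh : ∀ m (s : S m) (σ : K →+* ℂ) (z : ℂ), eval₂ (res σ) z (P m s) = 0 →
    ‖z‖ ^ 2 = (p : ℝ) ^ m
  det : ∀ m (s : S m), ∃ δ ∈ Δ m, (P m s).coeff 0 = (-1) ^ r * δ
  norm_det : ∀ m, ∀ δ ∈ Δ m, δ * cj K δ = (p : 𝓞 K) ^ (m * r)
  rank_two : r = 2 → ∀ m, 0 < m → ∀ δ ∈ Δ m, δ ^ 2 ≠ (p : 𝓞 K) ^ (2 * m)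
  equidistributed : ∀ l l' : ℕ, l.Prime → l'.Prime → l₀ ≤ l → l₀ ≤ l' → l ≠ l' →
    SplitsIn K l → SplitsIn K l' → ∀ ε : ℝ, 0 < ε → ∃ m₀ : ℕ, ∀ m ≥ m₀, Nonempty (S m) →
      ∀ (E : Set ((𝓞 K →+* ZMod l) → (ZMod l)[X])) (E' : Set ((𝓞 K →+* ZMod l') → (ZMod l')[X])),
        |frequency (P m) l l' E E' - law K r l (p ^ m : ℕ) (Δ m) E *
          law K r l' (p ^ m : ℕ) (Δ m) E'| ≤ ε

lemma conj_bar {K : Type} [Field K] [NumberField K] [IsCMField K] (σ : K →+* ℂ) :
    ComplexEmbedding.conjugate σ = bar σ := by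
  ext x
  exact (IsCMField.complexEmbedding_complexConj K σ x).symm

/-- **Almost all tuples have the relations.** -/
theorem ab_setup {p : ℕ} (hp : p.Prime) {I : Type} [Fintype I] (K : I → Type)
    [∀ i, Field (K i)] [∀ i, NumberField (K i)] [∀ i, IsCMField (K i)] (r l₀ : I → ℕ)
    (S : I → ℕ → Type) [∀ i m, Fintype (S i m)] (P : ∀ i m, S i m → (𝓞 (K i))[X])
    (Δ : ∀ i, ℕ → Set (𝓞 (K i)))
    (hF : ∀ i, IsUF p (K i) (r i) (l₀ i) (S i) (P i) (Δ i)) (ε : ℝ) (hε : 0 < ε) :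
    ∃ m₀ : ℕ, ∀ m ≥ m₀, ({s : ∀ i, S i m |
        ¬ (SemiBal (fun _ => p ^ m) (fun i => P i m (s i)) ∧
          (Independent K (fun i => (-1) ^ r i * (P i m (s i)).coeff 0) ∅ →
            Bal (fun _ => p ^ m) (fun i => P i m (s i))) ∧
          Rts (fun i => P i m (s i)) (p ^ m) (fun _ => bar))}.ncard : ℝ) ≤
      ε * ∏ i, (Nat.card (S i m) : ℝ) := by
  classical
  choose θ M hθ using fun i => exists_isGen (K := K i)
  set g : I → ℕ := fun i => Fintype.card (K i →+* ℂ) * r i with hg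
  obtain ⟨N, hN, hNz⟩ := W216.MF.uni ((∑ i, g i) ^ 2)
  choose c hc l₁ hl₁ using fun i => law_lower (hθ i) (r i) N (hF i).rank hN
  obtain ⟨c₀, hc₀, hc₀c⟩ : ∃ c₀ : ℝ, 0 < c₀ ∧ ∀ i, c₀ ≤ c i := by
    rcases isEmpty_or_nonempty I with hI | hI
    · exact ⟨1, one_pos, fun i => hI.elim i⟩
    · obtain ⟨i, hi⟩ := Finite.exists_min c
      exact ⟨c i, hc i, hi⟩
  set L : ℕ := p + 3 + ∑ i, (l₀ i + l₁ i + M i) with hL
  have hLi : ∀ i, l₀ i + l₁ i + M i ≤ L := fun i => by
    have := Finset.single_le_sum (f := fun i => l₀ i + l₁ i + M i) (fun j _ => Nat.zero_le _)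
      (Finset.mem_univ i)
    omega
  -- the primes
  obtain ⟨A, hA, hAs, hAD⟩ := exists_common (I := I) (fun i => gp (θ i))
    (fun i => gp_monic (θ i)) (fun i => (gp_irr (θ i)).separable)
  set G : Set ℕ := {l : ℕ | l.Prime ∧ SplitsMod A l} \ {l | l ≤ L} with hG
  have hinf : G.Infinite := (W976.MF.SPL A hA hAs).sdiff (Set.finite_le_nat L)
  have hGp : ∀ l ∈ G, l.Prime ∧ SplitsMod A l ∧ L < l := fun l hl =>
    ⟨hl.1.1, hl.1.2, not_le.1 hl.2⟩
  have hGθ : ∀ i, ∀ l ∈ G, SplitsMod (gp (θ i)) l := fun i l hl =>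
    splitsMod_of_dvd (gp_monic (θ i)) (hAD i) (hGp l hl).1 (hGp l hl).2.1
  have hGM : ∀ i, ∀ l ∈ G, ¬ l ∣ M i := by
    intro i l hl h
    have h1 := (hGp l hl).2.2
    have h2 := hLi i
    have h3 := Nat.le_of_dvd (Nat.pos_of_ne_zero (hθ i).1) h
    omega
  have hGlp : ∀ l ∈ G, ¬ l ∣ p := by
    intro l hl h
    have h1 := (hGp l hl).2.2
    have h3 := Nat.le_of_dvd hp.pos h
    omega
  have hdens : ∀ i, ∀ l ∈ G, ∀ m : ℕ, Nonempty (S i m) →
      c₀ ≤ law (K i) (r i) l (p ^ m : ℕ) (Δ i m) (irrPat l) ∧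
      c₀ ≤ law (K i) (r i) l (p ^ m : ℕ) (Δ i m) (splitPat l) ∧
      c₀ ≤ law (K i) (r i) l (p ^ m : ℕ) (Δ i m) (swapPat N l) ∧
      (3 ≤ r i → c₀ ≤ law (K i) (r i) l (p ^ m : ℕ) (Δ i m) (linPat l)) := by
    rintro i l hl m ⟨s⟩
    have h4 := hLi i
    have h3 := (hGp l hl).2.2
    obtain ⟨h5, h6, h7, h8⟩ := hl₁ i l (hGp l hl).1 (by omega) (hGθ i l hl) (hGM i l hl)
      (p ^ m) (fun h => hGlp l hl ((hGp l hl).1.dvd_of_dvd_pow h)) (Δ i m)
      (by
        obtain ⟨δ, hδ, -⟩ := (hF i).det m s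
        exact ⟨δ, hδ⟩)
      (by
        intro δ hδ
        rw [(hF i).norm_det m δ hδ]
        push_cast
        rw [← pow_mul])
    have h9 := hc₀c i
    exact ⟨h9.trans h5, h9.trans h6, h9.trans h7, fun h => h9.trans (h8 h)⟩
  have hE : ∀ (κ : I × Fin 3) i, ∀ l ∈ G, ∀ m, Nonempty (S i m) →
      c₀ ≤ law (K i) (r i) l (p ^ m : ℕ) (Δ i m) (evts K r N κ i m l) := by
    rintro ⟨i₀, e⟩ i l hl m hne
    obtain ⟨h1, h2, h3, h4⟩ := hdens i l hl m hne
    have hlp : Fact l.Prime := ⟨(hGp l hl).1⟩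
    have huniv : c₀ ≤ law (K i) (r i) l (p ^ m : ℕ) (Δ i m) Set.univ :=
      h1.trans (law_univ (hθ i) (hGM i l hl) _ _ _ _)
    unfold evts
    fin_cases e
    · dsimp only
      split_ifs
      · exact h1
      · exact huniv
    · dsimp only
      split_ifs with hi
      · exact h3
      · exact h2
    · dsimp only
      split_ifs with hi
      · exact h4 hi.2
      · exact huniv
  obtain ⟨m₀, h⟩ := aa W216.MF.sieve (K := I × Fin 3) S
    (fun i l => (𝓞 (K i) →+* ZMod l) → (ZMod l)[X])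
    (fun i m l s φ => (P i m s).map φ) G hinf
    (fun i m l E => law (K i) (r i) l (p ^ m : ℕ) (Δ i m) E)
    (fun i l hl l' hl' hll => (hF i).equidistributed l l' (hGp l hl).1 (hGp l' hl').1
      (by have h1 := hLi i; have h2 := (hGp l hl).2.2; omega)
      (by have h1 := hLi i; have h2 := (hGp l' hl').2.2; omega) hll
      (splitsIn_of (hθ i) (hGp l hl).1 (hGθ i l hl) (hGM i l hl))
      (splitsIn_of (hθ i) (hGp l' hl').1 (hGθ i l' hl') (hGM i l' hl')))
    (fun i l hl m E => law_nonneg _ _ _ _ _)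
    (fun i l hl m E => by
      have hlp : Fact l.Prime := ⟨(hGp l hl).1⟩
      exact law_le_one (hθ i) (hGM i l hl) _ _ _ _)
    (evts K r N) hc₀ hE ε hε
  refine ⟨m₀ + 1, fun m hm => le_trans ?_ (h m (by omega))⟩
  have hm0 : 0 < m := by omega
  refine Nat.cast_le.2 (Set.ncard_le_ncard ?_ (Set.toFinite _))
  intro s hs hpat
  apply hs
  have hq : 0 < p ^ m := pow_pos hp.pos _
  choose δ hδ hδc using fun i => (hF i).det m (s i)
  have hδe : (fun i => (-1) ^ r i * (P i m (s i)).coeff 0) = δ := by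
    funext i
    rw [hδc i, ← mul_assoc, ← mul_pow]
    simp
  choose Q hQ hQn using fun i => exists_norm (P i m (s i)) ((hF i).monic m (s i))
  have hrh : ∀ i (σ : K i →+* ℂ) (z : ℂ), eval₂ (res σ) z (P i m (s i)) = 0 →
      ‖z‖ ^ 2 = ((p ^ m : ℕ) : ℝ) := by
    intro i σ z hz
    rw [(hF i).rh m (s i) σ z hz]
    push_cast
    rfl
  have hQd : ∀ i, (Q i).natDegree = g i := by
    intro i
    have h1 := congrArg natDegree (hQn i)
    rw [(hQ i).natDegree_map,
      natDegree_prod_of_monic _ _ fun σ _ => ((hF i).monic m (s i)).map _] at h1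
    have h2 : ∀ σ ∈ (Finset.univ : Finset (K i →+* ℂ)),
        ((P i m (s i)).map (res σ)).natDegree = r i := fun σ _ => by
      rw [((hF i).monic m (s i)).natDegree_map, (hF i).natDegree m (s i)]
    rw [Finset.sum_congr rfl h2, Finset.sum_const, Finset.card_univ, smul_eq_mul] at h1
    exact h1
  have hnt := unt2 (K := K) (fun _ => p ^ m) Q N (fun i => P i m (s i)) δ θ M
    (fun i => hq) hQ (fun i => (hF i).monic m (s i)) hQn hrh
    (fun i => by rw [hδc i, (hF i).natDegree m (s i)])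
    (fun i h2 => by
      rw [(hF i).natDegree m (s i)] at h2
      have h3 := (hF i).rank_two h2 m hm0 (δ i) (hδ i)
      intro h4
      apply h3
      rw [h4]
      push_cast
      rw [← pow_mul, mul_comm])
    hθ (by
      rintro i z ht ⟨T, hT0, hTd, hTz⟩
      refine hNz z ht ⟨T, hT0, hTd.trans ?_, hTz⟩
      rw [hQd i]
      refine Nat.pow_le_pow_left ?_ 2
      exact Finset.single_le_sum (f := g) (fun j _ => Nat.zero_le _) (Finset.mem_univ i))
    (by
      intro i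
      obtain ⟨l, hl, h1⟩ := hpat (i, 0)
      have h2 := h1 i
      unfold evts at h2
      dsimp only at h2
      rw [if_pos rfl] at h2
      exact ⟨l, (hGp l hl).1, hGθ i l hl, hGM i l hl, h2⟩)
    (by
      intro i h3
      obtain ⟨l, hl, h1⟩ := hpat (i, 2)
      have h2 := h1 i
      unfold evts at h2
      dsimp only at h2
      rw [(hF i).natDegree m (s i)] at h3
      rw [if_pos ⟨rfl, h3⟩] at h2
      exact ⟨l, (hGp l hl).1, hGθ i l hl, hGM i l hl, h2⟩)
    (by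
      intro i₀
      obtain ⟨l, hl, h1⟩ := hpat (i₀, 1)
      refine ⟨l, (hGp l hl).1, fun i => hGθ i l hl, hGM i₀ l hl, ?_, fun i hi => ?_⟩
      · have h2 := h1 i₀
        unfold evts at h2
        dsimp only at h2
        rw [if_pos rfl] at h2
        exact h2
      · have h2 := h1 i
        unfold evts at h2
        dsimp only at h2
        rw [if_neg hi] at h2
        exact h2)
  obtain ⟨h1, h2, h3, h4⟩ := hnt
  refine ⟨h1, fun h => h2 (by rw [← hδe]; exact h), ?_⟩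
  exact {
    q_pos := hq
    monic := fun i => (hF i).monic m (s i)
    sep := h3
    disj := h4
    dual := by
      intro i σ z hz
      have h1 := hrh i σ z hz
      have h0 : z ≠ 0 := by
        intro h0
        rw [h0, norm_zero, zero_pow two_ne_zero] at h1
        have h2 : (0 : ℝ) < ((p ^ m : ℕ) : ℝ) := by exact_mod_cast hq
        exact h2.ne h1
      refine ⟨h0, ?_⟩
      have h2 := eval_conj hz
      rw [conj_bar] at h2
      have h4 : ((p ^ m : ℕ) : ℂ) / z = starRingEnd ℂ z := by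
        rw [div_eq_iff h0, ← Complex.normSq_eq_conj_mul_self, Complex.normSq_eq_norm_sq, h1]
        simp
      rw [h4]
      exact h2
    cb_ne := fun i σ => bar_ne σ
    cb_cb := fun i σ => bar_bar σ }

/-- **Tate classes on the abelian varieties given by almost all tuples.** -/
theorem ab_main₀ {p : ℕ} (hp : p.Prime) {I : Type} [Fintype I] (K : I → Type)
    [∀ i, Field (K i)] [∀ i, NumberField (K i)] [∀ i, IsCMField (K i)] (r l₀ : I → ℕ)
    (S : I → ℕ → Type) [∀ i m, Fintype (S i m)] (P : ∀ i m, S i m → (𝓞 (K i))[X])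
    (Δ : ∀ i, ℕ → Set (𝓞 (K i)))
    (hF : ∀ i, IsUF p (K i) (r i) (l₀ i) (S i) (P i) (Δ i)) (ε : ℝ) (hε : 0 < ε) :
    ∃ m₀ : ℕ, ∀ m ≥ m₀, ({s : ∀ i, S i m |
        ¬ ∀ (V : Type) [AddCommGroup V] [Module ℂ V] (F : V →ₗ[ℂ] V),
          IsFrobeniusOfProduct (fun i => P i m (s i)) F →
            ∀ (n : ℕ) (x : ExteriorAlgebra ℂ V), IsTateClass F (p ^ m) n x →
              x ∈ Algebra.adjoin ℂ (divisorClasses F (p ^ m) ∪
                weilClasses (fun i => P i m (s i)) F (p ^ m)) ∧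
              (Independent K (fun i => (-1) ^ r i * (P i m (s i)).coeff 0) ∅ →
                x ∈ Algebra.adjoin ℂ (divisorClasses F (p ^ m)))}.ncard : ℝ) ≤
      ε * ∏ i, (Nat.card (S i m) : ℝ) := by
  classical
  obtain ⟨m₀, h⟩ := ab_setup hp K r l₀ S P Δ hF ε hε
  refine ⟨m₀, fun m hm => le_trans ?_ (h m hm)⟩
  refine Nat.cast_le.2 (Set.ncard_le_ncard ?_ (Set.toFinite _))
  rintro s hs ⟨h1, h2, h3⟩
  refine hs fun V _ _ F hspan n x hx => ⟨?_, fun hI => ?_⟩
  · refine tate_gen h3 hspan ?_ hx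
    intro k hk t ht c hc hprod i σ z₁ z₂ k1 k2
    have := h1 k hk t ht c hc hprod i σ z₁ z₂ k1 k2
    convert this
  · refine tate_div h3 hspan ?_ hx
    intro k hk t ht c hc hprod i σ z k1
    have := h2 hI k hk t ht c hc hprod i σ z k1
    convert this

lemma sub_uf {p : ℕ} {K : Type} [Field K] [NumberField K] [IsCMField K] {r l₀ : ℕ}
    {S : ℕ → Type} {P : ∀ m, S m → (𝓞 K)[X]} {Δ : ℕ → Set (𝓞 K)}
    (hF : IsUnitaryFamily p K r l₀ S P Δ) (δ : ℕ → 𝓞 K) :
    IsUF p K r l₀ (fun m => {s : S m // (-1) ^ r * (P m s).coeff 0 = δ m})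
      (fun m s => P m s.1) (fun m => {x | x ∈ Δ m ∧ x = δ m}) where
  rank := hF.rank
  monic m s := hF.monic m s.1
  natDegree m s := hF.natDegree m s.1
  rh m s := hF.rh m s.1
  det m s := by
    refine ⟨(-1) ^ r * (P m s.1).coeff 0, ⟨hF.det m s.1, s.2⟩, ?_⟩
    rw [← mul_assoc, ← mul_pow]
    simp
  norm_det m x hx := hF.norm_det m x hx.1
  rank_two h m hm x hx := hF.rank_two h m hm x hx.1
  equidistributed := by
    intro l l' hl hl' h1 h2 h3 h4 h5 ε hε
    obtain ⟨m₀, h⟩ := hF.equidistributed l l' hl hl' h1 h2 h3 h4 h5 ε hε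
    refine ⟨m₀, fun m hm hne E E' => ?_⟩
    have hδ : δ m ∈ Δ m := by
      obtain ⟨s⟩ := hne
      have h6 := hF.det m s.1
      rw [s.2] at h6
      exact h6
    have e : {x | x ∈ Δ m ∧ x = δ m} = {δ m} := by
      ext x
      constructor
      · exact fun h => h.2
      · intro h
        rw [Set.mem_singleton_iff.1 h]
        exact ⟨hδ, rfl⟩
    rw [e]
    exact h m hm (δ m) hδ hne E E'

open Classical in
/-- **Tate classes on the abelian varieties given by almost all tuples.** -/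
theorem ab_main {p : ℕ} (hp : p.Prime) {I : Type} [Fintype I] (K : I → Type)
    [∀ i, Field (K i)] [∀ i, NumberField (K i)] [∀ i, IsCMField (K i)] (r l₀ : I → ℕ)
    (S : I → ℕ → Type) [∀ i m, Fintype (S i m)] (P : ∀ i m, S i m → (𝓞 (K i))[X])
    (Δ : ∀ i, ℕ → Set (𝓞 (K i)))
    (hF : ∀ i, IsUnitaryFamily p (K i) (r i) (l₀ i) (S i) (P i) (Δ i)) (ε : ℝ) (hε : 0 < ε) :
    ∃ m₀ : ℕ, ∀ m ≥ m₀, ({s : ∀ i, S i m |
        ¬ ∀ (V : Type) [AddCommGroup V] [Module ℂ V] (F : V →ₗ[ℂ] V),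
          IsFrobeniusOfProduct (fun i => P i m (s i)) F →
            ∀ (n : ℕ) (x : ExteriorAlgebra ℂ V), IsTateClass F (p ^ m) n x →
              x ∈ Algebra.adjoin ℂ (divisorClasses F (p ^ m) ∪
                weilClasses (fun i => P i m (s i)) F (p ^ m)) ∧
              (Independent K (fun i => (-1) ^ r i * (P i m (s i)).coeff 0) ∅ →
                x ∈ Algebra.adjoin ℂ (divisorClasses F (p ^ m)))}.ncard : ℝ) ≤
      ε * ∏ i, (Nat.card (S i m) : ℝ) := by
  refine fib (S := S) (D := fun i => 𝓞 (K i)) (fun i m s => (-1) ^ r i * (P i m s).coeff 0)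
    (fun m => {s : ∀ i, S i m |
        ¬ ∀ (V : Type) [AddCommGroup V] [Module ℂ V] (F : V →ₗ[ℂ] V),
          IsFrobeniusOfProduct (fun i => P i m (s i)) F →
            ∀ (n : ℕ) (x : ExteriorAlgebra ℂ V), IsTateClass F (p ^ m) n x →
              x ∈ Algebra.adjoin ℂ (divisorClasses F (p ^ m) ∪
                weilClasses (fun i => P i m (s i)) F (p ^ m)) ∧
              (Independent K (fun i => (-1) ^ r i * (P i m (s i)).coeff 0) ∅ →
                x ∈ Algebra.adjoin ℂ (divisorClasses F (p ^ m)))}) ε fun δ => ?_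
  exact ab_main₀ hp K r l₀ (fun i m => {s : S i m // (-1) ^ r i * (P i m s).coeff 0 = δ i m})
    (fun i m s => P i m s.1) (fun i m => {x | x ∈ Δ i m ∧ x = δ i m})
    (fun i => sub_uf (hF i) (δ i)) ε hε

end Pool.Agent.K1H12.UN
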