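import Pool.Agent.K1H12.UN.Defs
import Pool.Agent.H925R2.Ext

/-!
# Abelian varieties over finite fields with unitary monodromy: definitions
-/

set_option autoImplicit false

open Polynomial NumberField

namespace Pool.Agent.K1H12.UN

/-- The numbers `p` of a family of abelian varieties with an action of the CM field `K` over finite
fields of characteristic `p`. For every `m` the set `S m` is the set of the parameters with
coordinates in the field with `p ^ m` elements; for `s` in `S m` the eigenspaces of `K` in the first
cohomology of the abelian variety `A s` have dimension `r`, and the characteristic polynomial of the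
Frobenius endomorphism on the eigenspace of an embedding `σ` is the image under `σ` of the
polynomial `P m s` with coefficients in the ring of integers of `K`; the determinant
`(-1) ^ r * (P m s).coeff 0` is in the set `Δ m`. The family has large unitary monodromy: for all
large primes `l ≠ l'` that split completely in `K` and for every determinant `δ` in `Δ m` which
occurs, the Frobenius endomorphisms modulo `l` and modulo `l'` of the members with determinant `δ`
are asymptotically, as `m` tends to infinity, independent and equidistributed in the sets of the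
unitary similitudes with multiplier `p ^ m` and with determinant `δ`, as far as their
characteristic polynomials are concerned. If the rank `r` is two, the square of the determinant is
not `p ^ (2 m)` (a unitary group of rank two and determinant one is symplectic). -/
structure IsUnitaryFamily (p : ℕ) (K : Type) [Field K] [NumberField K] [IsCMField K]
    (r l₀ : ℕ) (S : ℕ → Type) (P : ∀ m, S m → (𝓞 K)[X]) (Δ : ℕ → Set (𝓞 K)) : Prop where
  rank : 2 ≤ r
  monic : ∀ m (s : S m), (P m s).Monic
  natDegree : ∀ m (s : S m), (P m s).natDegree = r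
  rh : ∀ m (s : S m) (σ : K →+* ℂ) (z : ℂ), eval₂ (res σ) z (P m s) = 0 →
    ‖z‖ ^ 2 = (p : ℝ) ^ m
  det : ∀ m (s : S m), (-1) ^ r * (P m s).coeff 0 ∈ Δ m
  norm_det : ∀ m, ∀ δ ∈ Δ m, δ * cj K δ = (p : 𝓞 K) ^ (m * r)
  rank_two : r = 2 → ∀ m, 0 < m → ∀ δ ∈ Δ m, δ ^ 2 ≠ (p : 𝓞 K) ^ (2 * m)
  equidistributed : ∀ l l' : ℕ, l.Prime → l'.Prime → l₀ ≤ l → l₀ ≤ l' → l ≠ l' →
    SplitsIn K l → SplitsIn K l' → ∀ ε : ℝ, 0 < ε → ∃ m₀ : ℕ, ∀ m ≥ m₀, ∀ δ ∈ Δ m,
      Nonempty {s : S m // (-1) ^ r * (P m s).coeff 0 = δ} →
      ∀ (E : Set ((𝓞 K →+* ZMod l) → (ZMod l)[X])) (E' : Set ((𝓞 K →+* ZMod l') → (ZMod l')[X])),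
        |frequency (fun s : {s : S m // (-1) ^ r * (P m s).coeff 0 = δ} => P m s) l l' E E' -
          law K r l (p ^ m : ℕ) {δ} E * law K r l' (p ^ m : ℕ) {δ} E'| ≤ ε

section Classes

variable {I : Type} {K : I → Type} [∀ i, Field (K i)]
  {V : Type} [AddCommGroup V] [Module ℂ V]

/-- The linear map `F` is the Frobenius endomorphism on the first cohomology of an abelian variety
which is isogenous to a product of powers of the abelian varieties given by the polynomials `P i`:
the space is spanned by eigenvectors for roots of the images of the polynomials `P i` in the complex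
numbers. -/
def IsFrobeniusOfProduct (P : ∀ i, (𝓞 (K i))[X]) (F : V →ₗ[ℂ] V) : Prop :=
  Submodule.span ℂ {v : V | ∃ (i : I) (σ : K i →+* ℂ) (z : ℂ), eval₂ (res σ) z (P i) = 0 ∧
    F v = z • v} = ⊤

/-- The Tate classes of codimension `n`: the classes in the exterior power of degree `2 n` on which
some power `F ^ s`, `s > 0`, of the Frobenius endomorphism is the multiplication by `q ^ (n s)`. -/
def IsTateClass (F : V →ₗ[ℂ] V) (q n : ℕ) (x : ExteriorAlgebra ℂ V) : Prop :=
  x ∈ ⋀[ℂ]^(2 * n) V ∧ ∃ s : ℕ, 0 < s ∧
    ExteriorAlgebra.map (F ^ s) x = (((q : ℂ) ^ n) ^ s) • x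

/-- The products, over the roots `z` of the image of `P` under the embedding `σ`, of eigenvectors
for the eigenvalues `z`: the elements of the determinants (highest exterior powers) of the
eigenspaces of `σ` in the first cohomology. -/
def IsDeterminant {L : Type} [Field L] (P : (𝓞 L)[X]) (σ : L →+* ℂ) (F : V →ₗ[ℂ] V)
    (y : ExteriorAlgebra ℂ V) : Prop :=
  ∃ v : ℂ → V, (∀ z, F (v z) = z • v z) ∧
    y = ((P.map (res σ)).roots.toList.map fun z => ExteriorAlgebra.ι ℂ (v z)).prod

/-- The classes of divisors: by Tate's theorem these are the combinations of the Tate classes of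
codimension one. -/
def divisorClasses (F : V →ₗ[ℂ] V) (q : ℕ) : Set (ExteriorAlgebra ℂ V) :=
  {y | IsTateClass F q 1 y}

/-- The (generalised) Weil classes: the Tate classes which are products of determinants. -/
def weilClasses (P : ∀ i, (𝓞 (K i))[X]) (F : V →ₗ[ℂ] V) (q : ℕ) :
    Set (ExteriorAlgebra ℂ V) :=
  {y | (∃ n, IsTateClass F q n y) ∧ ∃ L : List (ExteriorAlgebra ℂ V),
    (∀ w ∈ L, ∃ (i : I) (σ : K i →+* ℂ), IsDeterminant (P i) σ F w) ∧ y = L.prod}

end Classes

end Pool.Agent.K1H12.UN
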