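import Pool.Agent.K1H12.UN.Mat

/-!
# Families of matrices with an involution of the indices
-/

set_option autoImplicit false

open Polynomial Matrix

namespace Pool.Agent.K1H12.UN

section Abstract

variable {ι : Type} [Fintype ι] [DecidableEq ι] {F : Type} [Field F] [Fintype F] [DecidableEq F]

/-- The families of matrices `B` with `B i * (B (c i))ᵀ = q`, with determinants in `D` and
characteristic polynomials in `A`. -/
def Sim (r : ℕ) (c : ι → ι) (q : F) (D : Set (ι → F)) (A : Set (ι → F[X])) :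
    Set (ι → Matrix (Fin r) (Fin r) F) :=
  {B | (∀ i, B i * (B (c i)).transpose = Matrix.scalar (Fin r) q) ∧ (fun i => (B i).det) ∈ D ∧
    (fun i => (B i).charpoly) ∈ A}

lemma nm_eq (r : ℕ) (x : F) (A : Set F[X]) [DecidablePred fun M : Matrix (Fin r) (Fin r) F =>
    M.det = x ∧ M.charpoly ∈ A] :
    nm r x A = (Finset.univ.filter fun M : Matrix (Fin r) (Fin r) F =>
      M.det = x ∧ M.charpoly ∈ A).card := by
  rw [nm, ← Set.ncard_coe_finset]
  congr 1
  ext M
  simp

lemma card_pi (r : ℕ) (H : Finset ι) (d : ι → F) (A : ι → Set F[X]) :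
    {f : ι → Matrix (Fin r) (Fin r) F | (∀ i ∈ H, (f i).det = d i ∧ (f i).charpoly ∈ A i) ∧
      ∀ i, i ∉ H → f i = 1}.ncard = ∏ i ∈ H, nm r (d i) (A i) := by
  classical
  have h1 : {f : ι → Matrix (Fin r) (Fin r) F | (∀ i ∈ H, (f i).det = d i ∧
      (f i).charpoly ∈ A i) ∧ ∀ i, i ∉ H → f i = 1} =
      ((Fintype.piFinset fun i => if i ∈ H then (Finset.univ.filter fun M :
        Matrix (Fin r) (Fin r) F => M.det = d i ∧ M.charpoly ∈ A i) else {1} :
        Finset (ι → Matrix (Fin r) (Fin r) F)) : Set (ι → Matrix (Fin r) (Fin r) F)) := by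
    ext f
    rw [Finset.mem_coe, Fintype.mem_piFinset]
    constructor
    · rintro ⟨h1, h2⟩ i
      by_cases hi : i ∈ H
      · rw [if_pos hi]
        exact Finset.mem_filter.2 ⟨Finset.mem_univ _, h1 i hi⟩
      · rw [if_neg hi, Finset.mem_singleton]
        exact h2 i hi
    · intro h
      refine ⟨fun i hi => ?_, fun i hi => ?_⟩
      · have := h i
        rw [if_pos hi] at this
        exact (Finset.mem_filter.1 this).2
      · have := h i
        rw [if_neg hi, Finset.mem_singleton] at this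
        exact this
  rw [h1, Set.ncard_coe_finset, Fintype.card_piFinset]
  have h2 : ∀ i, (if i ∈ H then (Finset.univ.filter fun M :
        Matrix (Fin r) (Fin r) F => M.det = d i ∧ M.charpoly ∈ A i) else {1} :
        Finset (Matrix (Fin r) (Fin r) F)).card = if i ∈ H then nm r (d i) (A i) else 1 := by
    intro i
    by_cases hi : i ∈ H
    · rw [if_pos hi, if_pos hi, nm_eq]
    · rw [if_neg hi, if_neg hi, Finset.card_singleton]
  rw [Finset.prod_congr rfl fun i _ => h2 i, Finset.prod_ite_mem, Finset.univ_inter]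

variable {r : ℕ} {c : ι → ι} {H : Finset ι} {q : F} {d : ι → F}

lemma sim_upper (hH : ∀ i, i ∉ H → c i ∈ H) (hq : q ≠ 0) :
    (Sim r c q {d} Set.univ).ncard ≤ ∏ i ∈ H, nm r (d i) Set.univ := by
  rw [← card_pi r H d fun _ => Set.univ]
  refine Set.ncard_le_ncard_of_injOn (fun B i => if i ∈ H then B i else 1) ?_ ?_
    (Set.toFinite _)
  · rintro B ⟨h1, h2, -⟩
    refine ⟨fun i hi => ?_, fun i hi => ?_⟩
    · simp only [hi, if_true]
      exact ⟨congrFun (Set.mem_singleton_iff.1 h2) i, Set.mem_univ _⟩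
    · simp only [hi, if_false]
  · rintro B ⟨h1, -, -⟩ B' ⟨h1', -, -⟩ h
    have h2 : ∀ i ∈ H, B i = B' i := by
      intro i hi
      have := congrFun h i
      simpa only [hi, if_true] using this
    funext i
    by_cases hi : i ∈ H
    · exact h2 i hi
    · have h3 := h1 i
      have h4 := h1' i
      rw [← h2 _ (hH i hi), ← h3] at h4
      have h5 : IsUnit (B (c i)).transpose := by
        rw [Matrix.isUnit_iff_isUnit_det, isUnit_iff_ne_zero]
        intro h0
        have h6 := congrArg Matrix.det h3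
        rw [Matrix.det_mul, h0, mul_zero] at h6
        have h7 : (Matrix.scalar (Fin r) q).det = q ^ r := by
          rw [Matrix.scalar_apply, Matrix.det_diagonal]
          simp
        rw [h7] at h6
        exact pow_ne_zero r hq h6.symm
      exact (h5.mul_right_cancel h4).symm

lemma sim_lower (hH : ∀ i, i ∈ H ↔ c i ∉ H) (hc : ∀ i, c (c i) = i)
    (hd0 : ∀ i, d i ≠ 0) (hd : ∀ i, d i * d (c i) = q ^ r) (A : ι → Set F[X])
    (A' : Set (ι → F[X])) (hA : ∀ f : ι → F[X], (∀ i ∈ H, f i ∈ A i) → f ∈ A') :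
    ∏ i ∈ H, nm r (d i) (A i) ≤ (Sim r c q {d} A').ncard := by
  classical
  rw [← card_pi r H d A]
  refine Set.ncard_le_ncard_of_injOn
    (fun f i => if i ∈ H then f i else q • ((f (c i))⁻¹).transpose) ?_ ?_ (Set.toFinite _)
  · rintro f ⟨h1, -⟩
    have hu : ∀ i ∈ H, IsUnit (f i).det := by
      intro i hi
      rw [isUnit_iff_ne_zero, (h1 i hi).1]
      exact hd0 i
    refine ⟨fun i => ?_, ?_, ?_⟩
    · by_cases hi : i ∈ H
      · have hci : c i ∉ H := (hH i).1 hi
        simp only [hi, hci, if_true, if_false, hc]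
        rw [Matrix.transpose_smul, Matrix.transpose_transpose, Matrix.mul_smul,
          Matrix.mul_nonsing_inv _ (hu i hi)]
        rw [Matrix.scalar_apply, Matrix.smul_one_eq_diagonal]
      · have hci : c i ∈ H := by
          by_contra h
          exact hi ((hH i).2 h)
        simp only [hi, hci, if_true, if_false]
        rw [Matrix.smul_mul, ← Matrix.transpose_mul, Matrix.mul_nonsing_inv _ (hu _ hci),
          Matrix.transpose_one]
        rw [Matrix.scalar_apply, Matrix.smul_one_eq_diagonal]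
    · rw [Set.mem_singleton_iff]
      funext i
      by_cases hi : i ∈ H
      · simp only [hi, if_true]
        exact (h1 i hi).1
      · have hci : c i ∈ H := by
          by_contra h
          exact hi ((hH i).2 h)
        simp only [hi, if_false]
        rw [Matrix.det_smul, Matrix.det_transpose, Matrix.det_nonsing_inv, (h1 _ hci).1,
          Fintype.card_fin, ← hd i, Ring.inverse_eq_inv', mul_inv_cancel_right₀ (hd0 _)]
    · apply hA
      intro i hi
      simp only [hi, if_true]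
      exact (h1 i hi).2
  · rintro f ⟨-, h1⟩ f' ⟨-, h1'⟩ h
    funext i
    by_cases hi : i ∈ H
    · have := congrFun h i
      simpa only [hi, if_true] using this
    · rw [h1 i hi, h1' i hi]

lemma sim_sum (D : Set (ι → F)) (A : Set (ι → F[X])) (T : Finset (ι → F))
    (hT : ∀ d, d ∈ T ↔ d ∈ D) :
    (Sim r c q D A).ncard = ∑ d ∈ T, (Sim r c q {d} A).ncard := by
  classical
  have hfin : (Sim r c q D A).Finite := Set.toFinite _
  rw [Set.ncard_eq_toFinset_card _ hfin,
    Finset.card_eq_sum_card_fiberwise (f := fun B i => (B i).det) (t := T) (fun B hB => by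
      have h1 := (hfin.mem_toFinset.1 (Finset.mem_coe.1 hB)).2.1
      exact Finset.mem_coe.2 ((hT _).2 h1))]
  refine Finset.sum_congr rfl fun d hd => ?_
  rw [← Set.ncard_coe_finset]
  congr 1
  ext B
  simp only [Finset.coe_filter, Set.Finite.mem_toFinset, Set.mem_ofPred_eq, Sim,
    Set.mem_singleton_iff]
  constructor
  · rintro ⟨⟨h1, h2, h3⟩, h4⟩
    exact ⟨h1, h4, h3⟩
  · rintro ⟨h1, h2, h3⟩
    exact ⟨⟨h1, by rw [h2]; exact (hT d).1 hd, h3⟩, h2⟩

/-- The abstract lower bound. -/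
theorem abs_law (hr : 0 < r) (hH : ∀ i, i ∈ H ↔ c i ∉ H) (hc : ∀ i, c (c i) = i) (hq : q ≠ 0)
    (D : Set (ι → F)) (hD0 : ∀ d ∈ D, ∀ i, d i ≠ 0) (hD : ∀ d ∈ D, ∀ i, d i * d (c i) = q ^ r)
    (A : ι → Set F[X]) (A' : Set (ι → F[X]))
    (hA : ∀ f : ι → F[X], (∀ i ∈ H, f i ∈ A i) → f ∈ A') {κ : ℝ} (hκ : 0 ≤ κ)
    (h : ∀ i ∈ H, ∀ x : F, x ≠ 0 → κ * (nm r x Set.univ : ℝ) ≤ nm r x (A i)) :
    κ ^ H.card * ((Sim r c q D Set.univ).ncard : ℝ) ≤ (Sim r c q D A').ncard := by
  classical
  set T : Finset (ι → F) := Finset.univ.filter fun d => d ∈ D with hT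
  have hTD : ∀ d, d ∈ T ↔ d ∈ D := by
    intro d
    rw [hT, Finset.mem_filter]
    exact and_iff_right (Finset.mem_univ _)
  rw [sim_sum D Set.univ T hTD, sim_sum D A' T hTD]
  push_cast
  rw [Finset.mul_sum]
  refine Finset.sum_le_sum fun d hd => ?_
  have hd' := (hTD d).1 hd
  have h1 : ((Sim r c q {d} Set.univ).ncard : ℝ) ≤ ∏ i ∈ H, (nm r (d i) Set.univ : ℝ) := by
    exact_mod_cast sim_upper (c := c) (H := H) (fun i hi => by
      by_contra h
      exact hi ((hH i).2 h)) hq
  have h2 : ∏ i ∈ H, (nm r (d i) (A i) : ℝ) ≤ ((Sim r c q {d} A').ncard : ℝ) := by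
    exact_mod_cast sim_lower hH hc (hD0 d hd') (hD d hd') A A' hA
  refine le_trans ?_ h2
  calc κ ^ H.card * ((Sim r c q {d} Set.univ).ncard : ℝ)
      ≤ κ ^ H.card * ∏ i ∈ H, (nm r (d i) Set.univ : ℝ) :=
        mul_le_mul_of_nonneg_left h1 (by positivity)
    _ = ∏ i ∈ H, (κ * (nm r (d i) Set.univ : ℝ)) := by
        rw [Finset.prod_mul_distrib, Finset.prod_const]
    _ ≤ _ := Finset.prod_le_prod (fun i _ => by positivity) fun i hi => h i hi _ (hD0 d hd' i)

lemma nm_pos (hr : 0 < r) (x : F) : 0 < nm r x Set.univ := by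
  rw [nm, Set.ncard_pos]
  refine ⟨Matrix.diagonal (Function.update (fun _ => 1) ⟨0, hr⟩ x), ?_, Set.mem_univ _⟩
  rw [Matrix.det_diagonal, Finset.prod_update_of_mem (Finset.mem_univ _)]
  simp

lemma sim_pos (hr : 0 < r) (hH : ∀ i, i ∈ H ↔ c i ∉ H) (hc : ∀ i, c (c i) = i)
    (D : Set (ι → F)) (hDn : D.Nonempty) (hD0 : ∀ d ∈ D, ∀ i, d i ≠ 0)
    (hD : ∀ d ∈ D, ∀ i, d i * d (c i) = q ^ r) : 0 < (Sim r c q D Set.univ).ncard := by
  obtain ⟨d, hd⟩ := hDn
  have h2 := sim_lower (A' := Set.univ) hH hc (hD0 d hd) (hD d hd) (fun _ => Set.univ)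
    (fun _ _ => Set.mem_univ _)
  have h3 : 0 < ∏ i ∈ H, nm r (d i) Set.univ := Finset.prod_pos fun i _ => nm_pos hr _
  refine (h3.trans_le h2).trans_le (Set.ncard_le_ncard ?_ (Set.toFinite _))
  rintro B ⟨h4, h5, h6⟩
  exact ⟨h4, by rw [Set.mem_singleton_iff.1 h5]; exact hd, h6⟩

end Abstract

end Pool.Agent.K1H12.UN
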