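import Pool.Agent.K1H12.UN.Gal
import Pool.Agent.W458.MF.Fin3

/-!
# Existence of generators
-/

set_option autoImplicit false

open Polynomial NumberField

namespace Pool.Agent.K1H12.UN

open Pool.Agent.W521.Frob Pool.Agent.W458.MF

section Gen

variable {K : Type} [Field K] [NumberField K]

lemma exists_int_prim : ∃ θ : 𝓞 K, ∀ x : K, ∃ u : ℚ[X], x = aeval (θ : K) u := by
  obtain ⟨α, hα⟩ := Field.exists_primitive_element ℚ K
  have halg : IsAlgebraic ℤ α :=
    (IsFractionRing.isAlgebraic_iff ℤ ℚ K).2 (Algebra.IsAlgebraic.isAlgebraic α)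
  obtain ⟨y, hy, hyi⟩ := halg.exists_integral_multiple
  have h1 : IsIntegral ℤ (y • α) := hyi
  refine ⟨⟨y • α, h1⟩, fun x => ?_⟩
  have h2 : x ∈ IntermediateField.adjoin ℚ {α} := by
    rw [hα]
    exact IntermediateField.mem_top
  have h3 : IsIntegral ℚ α := Algebra.IsIntegral.isIntegral α
  rw [← IntermediateField.mem_toSubalgebra,
    IntermediateField.adjoin_simple_toSubalgebra_of_isAlgebraic h3.isAlgebraic] at h2
  rw [Algebra.adjoin_singleton_eq_range_aeval] at h2
  obtain ⟨u, hu⟩ := h2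
  refine ⟨u.comp (C ((y : ℚ)⁻¹) * X), ?_⟩
  change x = aeval (y • α) _
  rw [aeval_comp, map_mul, aeval_C, aeval_X]
  have hy' : (y : K) ≠ 0 := by exact_mod_cast hy
  have h4 : algebraMap ℚ K (y : ℚ)⁻¹ * (y • α) = α := by
    rw [map_inv₀, zsmul_eq_mul, map_intCast]
    field_simp
  rw [h4]
  exact hu.symm

/-- Generators exist. -/
theorem exists_isGen : ∃ (θ : 𝓞 K) (M : ℕ), IsGen θ M := by
  classical
  obtain ⟨θ, hθ⟩ := exists_int_prim (K := K)
  have h1 : ∀ x : 𝓞 K, ∃ M : ℕ, M ≠ 0 ∧ ∃ u : ℤ[X], (M : 𝓞 K) * x = aeval θ u := by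
    intro x
    obtain ⟨u, hu⟩ := hθ x
    obtain ⟨b, hbM, hb⟩ := IsLocalization.integerNormalization_spec (nonZeroDivisors ℤ) u
    have hb0 : (b : ℤ) ≠ 0 := nonZeroDivisors.ne_zero hbM
    have h2 : ((b : ℤ) : 𝓞 K) * x =
        aeval θ (IsLocalization.integerNormalization (nonZeroDivisors ℤ) u) := by
      apply RingOfIntegers.coe_injective
      change ((((b : ℤ) : 𝓞 K) * x : 𝓞 K) : K) = ((aeval θ _ : 𝓞 K) : K)
      rw [show ((aeval θ (IsLocalization.integerNormalization (nonZeroDivisors ℤ) u) : 𝓞 K) : K) =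
        aeval (θ : K) (IsLocalization.integerNormalization (nonZeroDivisors ℤ) u) from
        hom_aeval (algebraMap (𝓞 K) K) θ _]
      have h3 : aeval (θ : K) (IsLocalization.integerNormalization (nonZeroDivisors ℤ) u) =
          aeval (θ : K) ((IsLocalization.integerNormalization (nonZeroDivisors ℤ) u).map
            (algebraMap ℤ ℚ)) := by
        rw [aeval_map_algebraMap]
      rw [h3, hb]
      rw [map_zsmul, ← hu, zsmul_eq_mul]
      simp
    refine ⟨(b : ℤ).natAbs, Int.natAbs_ne_zero.2 hb0, ?_⟩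
    rcases Int.natAbs_eq (b : ℤ) with h4 | h4
    · refine ⟨IsLocalization.integerNormalization (nonZeroDivisors ℤ) u, ?_⟩
      rw [← h2]
      conv_rhs => rw [h4]
      simp
    · refine ⟨-IsLocalization.integerNormalization (nonZeroDivisors ℤ) u, ?_⟩
      rw [map_neg, ← h2]
      conv_rhs => rw [h4]
      simp
  obtain ⟨S, hS⟩ := (inferInstance : Module.Finite ℤ (𝓞 K)).fg_top
  choose M hM u hu using h1
  refine ⟨θ, ∏ x ∈ S, M x, Finset.prod_ne_zero_iff.2 fun x _ => hM x, fun x => ?_⟩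
  have hx : x ∈ Submodule.span ℤ (S : Set (𝓞 K)) := by
    rw [hS]
    exact Submodule.mem_top
  induction hx using Submodule.span_induction with
  | mem y hy =>
    refine ⟨((∏ x ∈ S.erase y, M x : ℕ) : ℤ[X]) * u y, ?_⟩
    rw [map_mul, ← hu y, map_natCast, ← mul_assoc, ← Nat.cast_mul,
      Finset.prod_erase_mul S M (Finset.mem_coe.1 hy)]
  | zero => exact ⟨0, by simp⟩
  | add y z _ _ h1 h2 =>
    obtain ⟨v, hv⟩ := h1
    obtain ⟨w, hw⟩ := h2
    exact ⟨v + w, by rw [mul_add, hv, hw, map_add]⟩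
  | smul a y _ h1 =>
    obtain ⟨v, hv⟩ := h1
    exact ⟨a • v, by rw [mul_smul_comm, hv, map_zsmul]⟩

end Gen

section Roots

/-- The product of the minimal polynomials. -/
lemma exists_R' {K : Type*} [Field K] [CharZero K] {S : Set K} (hS : S.Finite)
    (h : ∀ x ∈ S, IsIntegral ℤ x) : ∃ R : ℤ[X], R.Monic ∧
      (R.map (Int.castRingHom ℚ)).Separable ∧ (∀ x ∈ S, aeval x R = 0) ∧
      ∀ z : ℂ, aeval z R = 0 → ∃ x ∈ S, aeval z (minpoly ℤ x) = 0 := by
  classical
  set T : Finset ℤ[X] := hS.toFinset.image (minpoly ℤ) with hT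
  have hmem : ∀ f ∈ T, ∃ x ∈ S, f = minpoly ℤ x := by
    intro f hf
    obtain ⟨x, hx, rfl⟩ := Finset.mem_image.1 hf
    exact ⟨x, hS.mem_toFinset.1 hx, rfl⟩
  have hmap : ∀ x ∈ S, (minpoly ℤ x).map (Int.castRingHom ℚ) = minpoly ℚ x := by
    intro x hx
    rw [minpoly.isIntegrallyClosed_eq_field_fractions' ℚ (h x hx)]
    rfl
  refine ⟨∏ f ∈ T, f, ?_, ?_, ?_, ?_⟩
  · refine monic_prod_of_monic _ _ fun f hf => ?_
    obtain ⟨x, hx, rfl⟩ := hmem f hf
    exact minpoly.monic (h x hx)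
  · rw [Polynomial.map_prod]
    refine separable_prod' ?_ ?_
    · intro f hf f' hf' hne
      obtain ⟨x, hx, rfl⟩ := hmem f hf
      obtain ⟨y, hy, rfl⟩ := hmem f' hf'
      rw [hmap x hx, hmap y hy]
      have hxi : IsIntegral ℚ x := (h x hx).tower_top
      have hyi : IsIntegral ℚ y := (h y hy).tower_top
      rw [(minpoly.irreducible hxi).coprime_iff_not_dvd]
      intro hdvd
      apply hne
      have h1 : minpoly ℚ x = minpoly ℚ y :=
        eq_of_monic_of_associated (minpoly.monic hxi) (minpoly.monic hyi)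
          ((minpoly.irreducible hxi).associated_of_dvd (minpoly.irreducible hyi) hdvd)
      rw [← hmap x hx, ← hmap y hy] at h1
      exact map_injective _ Int.cast_injective h1
    · intro f hf
      obtain ⟨x, hx, rfl⟩ := hmem f hf
      rw [hmap x hx]
      exact (minpoly.irreducible (h x hx).tower_top).separable
  · intro x hx
    rw [map_prod]
    refine Finset.prod_eq_zero (i := minpoly ℤ x) ?_ (minpoly.aeval ℤ x)
    exact Finset.mem_image_of_mem _ (hS.mem_toFinset.2 hx)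
  · intro z hz
    rw [map_prod] at hz
    obtain ⟨f, hf, hzf⟩ := Finset.prod_eq_zero_iff.1 hz
    obtain ⟨x, hx, rfl⟩ := hmem f hf
    exact ⟨x, hx, hzf⟩

end Roots

end Pool.Agent.K1H12.UN
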