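import Pool.Agent.K1H12.UN.Cnt

/-!
# Counting irreducible polynomials with given constant term
-/

set_option autoImplicit false

open Polynomial

namespace Pool.Agent.K1H12.UN

open Pool.Agent.W521.Density

section Norm

variable {l : ℕ} [Fact l.Prime] {K : Type} [Field K] [Fintype K] [Algebra (ZMod l) K]

lemma norm_full {N : ℕ} (hN : Module.finrank (ZMod l) K = N) {u : K}
    (hu : (minpoly (ZMod l) u).natDegree = N) :
    (minpoly (ZMod l) u).coeff 0 = (-1) ^ N * Algebra.norm (ZMod l) u := by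
  have : FiniteDimensional (ZMod l) K := Module.Finite.of_finite
  have hint : IsIntegral (ZMod l) u := Algebra.IsIntegral.isIntegral u
  have htop : IntermediateField.adjoin (ZMod l) {u} = ⊤ := by
    apply Field.primitive_element_iff_minpoly_natDegree_eq (ZMod l) u |>.2
    rw [hu, hN]
  rw [Algebra.norm_eq_norm_adjoin (ZMod l) u]
  have h1 := Algebra.PowerBasis.norm_gen_eq_coeff_zero_minpoly
    (IntermediateField.adjoin.powerBasis hint)
  rw [IntermediateField.adjoin.powerBasis_gen, IntermediateField.minpoly_gen,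
    IntermediateField.adjoin.powerBasis_dim, hu] at h1
  rw [h1, htop, IntermediateField.finrank_top, pow_one, ← mul_assoc, ← mul_pow]
  simp

lemma norm_count (n : ℕ) (hn : 0 < n) (hK : Module.finrank (ZMod l) K = n) (x : ZMod l)
    (hx : x ≠ 0) : l ^ (n - 1) ≤
      (Finset.univ.filter fun α : K => Algebra.norm (ZMod l) α = x).card := by
  classical
  have hcard : Fintype.card K = l ^ n := by
    rw [Module.card_eq_pow_finrank (K := ZMod l) (V := K), hK, ZMod.card]
  let φ : Kˣ →* (ZMod l)ˣ := Units.map (Algebra.norm (ZMod l) (S := K))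
  have hφ : Function.Surjective φ := FiniteField.unitsMap_norm_surjective (ZMod l) K
  have h1 : ∀ y : (ZMod l)ˣ, (Finset.univ.filter fun u : Kˣ => φ u = y).card =
      (Finset.univ.filter fun u : Kˣ => φ u = Units.mk0 x hx).card := by
    intro y
    exact MonoidHom.card_fiber_eq_of_mem_range φ (hφ y) (hφ _)
  have h2 : (Finset.univ : Finset Kˣ).card = (l - 1) *
      (Finset.univ.filter fun u : Kˣ => φ u = Units.mk0 x hx).card := by
    rw [Finset.card_eq_sum_card_fiberwise (f := φ) (t := Finset.univ)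
      (fun _ _ => Finset.mem_coe.2 (Finset.mem_univ _)), Finset.sum_congr rfl fun y _ => h1 y,
      Finset.sum_const, Finset.card_univ, ZMod.card_units, smul_eq_mul]
  rw [Finset.card_univ, Fintype.card_units, hcard] at h2
  have h3 : (Finset.univ.filter fun u : Kˣ => φ u = Units.mk0 x hx).card ≤
      (Finset.univ.filter fun α : K => Algebra.norm (ZMod l) α = x).card := by
    refine Finset.card_le_card_of_injOn (fun u => (u : K)) ?_ ?_
    · intro u hu
      have h4 := (Finset.mem_filter.1 (Finset.mem_coe.1 hu)).2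
      refine Finset.mem_coe.2 (Finset.mem_filter.2 ⟨Finset.mem_univ _, ?_⟩)
      exact congrArg Units.val h4
    · intro u _ v _ h
      exact Units.ext h
  refine le_trans ?_ h3
  set c := (Finset.univ.filter fun u : Kˣ => φ u = Units.mk0 x hx).card
  have hl := (Fact.out : l.Prime).two_le
  have h5 : l ^ n = l ^ (n - 1) * l := by
    rw [← pow_succ]
    congr 1
    omega
  have h6 : 1 ≤ l ^ (n - 1) := Nat.one_le_pow _ _ (by omega)
  obtain ⟨k, rfl⟩ : ∃ k, l = k + 2 := ⟨l - 2, by omega⟩
  have h7 : k + 2 - 1 = k + 1 := by omega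
  rw [h7] at h2
  set w := (k + 2) ^ (n - 1)
  rw [h5] at h2
  have h8 : w * (k + 1) ≤ w * (k + 2) - 1 := by
    have : w * (k + 2) = w * (k + 1) + w := by ring
    omega
  rw [h2, mul_comm] at h8
  exact Nat.le_of_mul_le_mul_left h8 (by omega)

lemma deg_dvd (n : ℕ) (hK : Module.finrank (ZMod l) K = n) (u : K) :
    (minpoly (ZMod l) u).natDegree ∣ n := by
  have hx : IsIntegral (ZMod l) u := Algebra.IsIntegral.isIntegral u
  rw [← IntermediateField.adjoin.finrank hx, ← hK]
  exact Dvd.intro _ (Module.finrank_mul_finrank (ZMod l)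
    (IntermediateField.adjoin (ZMod l) {u}) K)

lemma gen_count (n : ℕ) (hl : 3 ≤ l) (hn : 3 ≤ n) (hK : Module.finrank (ZMod l) K = n)
    (x : ZMod l) (hx : x ≠ 0) : l ^ (n - 1) ≤
      2 * (Finset.univ.filter fun α : K => (minpoly (ZMod l) α).natDegree = n ∧
        Algebra.norm (ZMod l) α = x).card := by
  classical
  have h0 := norm_count n (by omega) hK x hx
  have h1 : (Finset.univ.filter fun α : K => Algebra.norm (ZMod l) α = x) ⊆
      (Finset.univ.filter fun α : K => (minpoly (ZMod l) α).natDegree = n ∧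
        Algebra.norm (ZMod l) α = x) ∪
      (Finset.range (n / 2 + 1)).biUnion (fun d => if d = 0 then ∅ else
        Finset.univ.filter (fun α : K => (minpoly (ZMod l) α).natDegree = d)) := by
    intro α hα
    have hα' := (Finset.mem_filter.1 hα).2
    rw [Finset.mem_union]
    by_cases h2 : (minpoly (ZMod l) α).natDegree = n
    · exact Or.inl (Finset.mem_filter.2 ⟨Finset.mem_univ _, h2, hα'⟩)
    · right
      rw [Finset.mem_biUnion]
      have h3 : 0 < (minpoly (ZMod l) α).natDegree :=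
        minpoly.natDegree_pos (Algebra.IsIntegral.isIntegral α)
      obtain ⟨c, hc⟩ := deg_dvd n hK α
      have h4 : c ≠ 1 := fun h => h2 (by rw [h, mul_one] at hc; exact hc.symm)
      have h5 : c ≠ 0 := fun h => by
        rw [h, mul_zero] at hc
        omega
      have h6 : 2 ≤ c := by omega
      have h7 : (minpoly (ZMod l) α).natDegree * 2 ≤ n := by
        calc (minpoly (ZMod l) α).natDegree * 2 ≤ (minpoly (ZMod l) α).natDegree * c :=
              Nat.mul_le_mul_left _ h6
          _ = n := hc.symm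
      refine ⟨(minpoly (ZMod l) α).natDegree, Finset.mem_range.2 (by omega), ?_⟩
      rw [if_neg (by omega)]
      exact Finset.mem_filter.2 ⟨Finset.mem_univ _, rfl⟩
  have h2 := (Finset.card_le_card h1).trans (Finset.card_union_le _ _)
  have h4 : ((Finset.range (n / 2 + 1)).biUnion (fun d => if d = 0 then ∅ else
        Finset.univ.filter (fun α : K => (minpoly (ZMod l) α).natDegree = d))).card ≤
      ∑ d ∈ Finset.range (n / 2 + 1), l ^ d := by
    refine Finset.card_biUnion_le.trans (Finset.sum_le_sum fun d _ => ?_)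
    by_cases hd : d = 0
    · rw [if_pos hd]
      simp
    · rw [if_neg hd]
      exact card_small l K d (Nat.pos_of_ne_zero hd)
  have h5 := sum_pow_le l hl (n / 2 + 1)
  have h6 : l ^ (n / 2 + 1) ≤ l ^ (n - 1) := Nat.pow_le_pow_right (by omega) (by omega)
  omega

end Norm

section Lots

variable {l : ℕ} [Fact l.Prime]

lemma irr3_lots (hl : 3 ≤ l) (n : ℕ) (hn : 3 ≤ n) (x : ZMod l) (hx : x ≠ 0) :
    Lots (1 / (2 * n)) l n x {f | Irreducible f} := by
  classical
  let K := GaloisField l n
  have : Fintype K := Fintype.ofFinite K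
  have hK : Module.finrank (ZMod l) K = n := GaloisField.finrank l (by omega)
  have h1 := gen_count n hl hn hK x hx
  set G := (Finset.univ.filter fun α : K => (minpoly (ZMod l) α).natDegree = n ∧
    Algebra.norm (ZMod l) α = x) with hG
  refine ⟨G.image fun α => minpoly (ZMod l) α, ?_, ?_⟩
  · intro f hf
    obtain ⟨α, hα, rfl⟩ := Finset.mem_image.1 hf
    obtain ⟨-, h2, h3⟩ := Finset.mem_filter.1 hα
    have hα' : IsIntegral (ZMod l) α := Algebra.IsIntegral.isIntegral α
    exact ⟨minpoly.irreducible hα', minpoly.monic hα', h2, by rw [norm_full hK h2, h3]⟩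
  · have h2 : G.card ≤ n * (G.image fun α => minpoly (ZMod l) α).card := by
      refine Finset.card_le_mul_card_image G n ?_
      intro f hf
      obtain ⟨α, hα, rfl⟩ := Finset.mem_image.1 hf
      obtain ⟨-, h2, h3⟩ := Finset.mem_filter.1 hα
      have hα' : IsIntegral (ZMod l) α := Algebra.IsIntegral.isIntegral α
      have hP : ((minpoly (ZMod l) α).map (algebraMap (ZMod l) K)) ≠ 0 :=
        ((minpoly.monic hα').map _).ne_zero
      have h3 : (G.filter (fun x => minpoly (ZMod l) x = minpoly (ZMod l) α)) ⊆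
          ((minpoly (ZMod l) α).map (algebraMap (ZMod l) K)).roots.toFinset := by
        intro y hy
        obtain ⟨hy1, hy2⟩ := Finset.mem_filter.1 hy
        rw [Multiset.mem_toFinset, mem_roots hP, IsRoot.def, eval_map, ← hy2]
        exact minpoly.aeval _ y
      refine (Finset.card_le_card h3).trans ((Multiset.toFinset_card_le _).trans ?_)
      refine (card_roots' _).trans ?_
      rw [(minpoly.monic hα').natDegree_map, h2]
    have h3 : l ^ (n - 1) ≤ 2 * (n * (G.image fun α => minpoly (ZMod l) α).card) :=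
      h1.trans (Nat.mul_le_mul_left 2 h2)
    have h4 : (l : ℝ) ^ (n - 1) ≤ 2 * (n * ((G.image fun α => minpoly (ZMod l) α).card : ℝ)) := by
      exact_mod_cast h3
    have hn0 : (0 : ℝ) < n := by
      have : 0 < n := by omega
      exact_mod_cast this
    rw [div_mul_eq_mul_div, one_mul, div_le_iff₀ (by positivity)]
    linarith

lemma irr_lots (hl : 8 ≤ l) (n : ℕ) (hn : 2 ≤ n) (x : ZMod l) (hx : x ≠ 0) :
    Lots (1 / (2 * n)) l n x {f | Irreducible f} := by
  rcases Nat.lt_or_ge 2 n with h | h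
  · exact irr3_lots (by omega) n (by omega) x hx
  · obtain rfl : n = 2 := by omega
    refine lots_mono (irr2_lots hl x hx) ?_
    norm_num

lemma lin_lots (hl : 8 ≤ l) (r : ℕ) (hr : 3 ≤ r) (x : ZMod l) (hx : x ≠ 0) :
    Lots (1 / (4 * r)) l r x {f | IsLin f} := by
  classical
  have h1 : ∀ t : ZMod l, t ≠ 0 → Lots (1 / (2 * ((r - 1 : ℕ) : ℝ))) l (r - 1) (x / t)
      {f | Irreducible f} := fun t ht =>
    irr_lots hl (r - 1) (by omega) _ (div_ne_zero hx ht)
  have h2 : ∀ t : ZMod l, ∃ T : Finset (ZMod l)[X], (∀ f ∈ T, Irreducible f ∧ f.Monic ∧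
      f.natDegree = r - 1 ∧ t * f.coeff 0 = (-1) ^ (r - 1) * x) ∧ (t ≠ 0 →
      1 / (2 * ((r - 1 : ℕ) : ℝ)) * (l : ℝ) ^ (r - 1 - 1) ≤ T.card) := by
    intro t
    by_cases ht : t = 0
    · exact ⟨∅, by simp, fun h => absurd ht h⟩
    · obtain ⟨T, hT, hc⟩ := h1 t ht
      refine ⟨T, fun f hf => ?_, fun _ => hc⟩
      obtain ⟨a1, a2, a3, a4⟩ := hT f hf
      refine ⟨a1, a2, a3, ?_⟩
      rw [a4]
      field_simp
  choose T hT hc using h2
  let S : Finset (ZMod l) := Finset.univ.erase 0
  have hScard : S.card = l - 1 := by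
    rw [Finset.card_erase_of_mem (Finset.mem_univ _), Finset.card_univ, ZMod.card]
  let P : Finset (Σ _ : ZMod l, (ZMod l)[X]) := S.sigma T
  refine ⟨P.image fun y => (X - C y.1) * y.2, ?_, ?_⟩
  · intro f hf
    obtain ⟨⟨t, e⟩, hy, rfl⟩ := Finset.mem_image.1 hf
    obtain ⟨h3, h4⟩ := Finset.mem_sigma.1 hy
    obtain ⟨a1, a2, a3, a4⟩ := hT t e h4
    refine ⟨⟨t, e, a1, by omega, rfl⟩, (monic_X_sub_C t).mul a2, ?_, ?_⟩
    · rw [(monic_X_sub_C t).natDegree_mul a2, natDegree_X_sub_C, a3]
      omega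
    · rw [mul_coeff_zero]
      have e1 : (X - C t : (ZMod l)[X]).coeff 0 = -t := by simp
      have e2 : (-1 : ZMod l) ^ r = -(-1) ^ (r - 1) := by
        conv_lhs => rw [show r = (r - 1) + 1 by omega, pow_succ]
        ring
      change (X - C t : (ZMod l)[X]).coeff 0 * e.coeff 0 = _
      rw [e1, e2]
      linear_combination -a4
  · rw [Finset.card_image_of_injOn]
    · rw [Finset.card_sigma]
      push_cast
      have h3 : ∀ t ∈ S, 1 / (2 * ((r - 1 : ℕ) : ℝ)) * (l : ℝ) ^ (r - 1 - 1) ≤
          ((T t).card : ℝ) := fun t ht => hc t (Finset.mem_erase.1 ht).1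
      refine le_trans ?_ (Finset.sum_le_sum h3)
      rw [Finset.sum_const, hScard, nsmul_eq_mul]
      have hr1 : ((r - 1 : ℕ) : ℝ) = (r : ℝ) - 1 := by
        push_cast [show 1 ≤ r by omega]
        ring
      have hl1 : ((l - 1 : ℕ) : ℝ) = (l : ℝ) - 1 := by
        push_cast [show 1 ≤ l by omega]
        ring
      have hpow : (l : ℝ) ^ (r - 1) = (l : ℝ) ^ (r - 1 - 1) * l := by
        rw [← pow_succ]
        congr 1
        omega
      have hr' : (3 : ℝ) ≤ r := by exact_mod_cast hr
      have hl' : (8 : ℝ) ≤ l := by exact_mod_cast hl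
      rw [hpow, hr1, hl1]
      have hw : (0 : ℝ) < (l : ℝ) ^ (r - 1 - 1) := by positivity
      rw [show 1 / (4 * (r : ℝ)) * ((l : ℝ) ^ (r - 1 - 1) * l) =
        (l : ℝ) ^ (r - 1 - 1) * (l / (4 * r)) by ring,
        show ((l : ℝ) - 1) * (1 / (2 * ((r : ℝ) - 1)) * (l : ℝ) ^ (r - 1 - 1)) =
        (l : ℝ) ^ (r - 1 - 1) * ((l - 1) / (2 * (r - 1))) by ring]
      refine mul_le_mul_of_nonneg_left ?_ hw.le
      rw [div_le_div_iff₀ (by positivity) (by linarith)]
      nlinarith
    · rintro ⟨t, e⟩ hy ⟨t', e'⟩ hy' h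
      obtain ⟨h3, h4⟩ := Finset.mem_sigma.1 (Finset.mem_coe.1 hy)
      obtain ⟨h3', h4'⟩ := Finset.mem_sigma.1 (Finset.mem_coe.1 hy')
      obtain ⟨a1, a2, a3, a4⟩ := hT t e h4
      obtain ⟨b1, b2, b3, b4⟩ := hT t' e' h4'
      have h5 : (X - C t) * e = (X - C t') * e' := h
      have h6 : t = t' := by
        have h7 := congrArg (fun g : (ZMod l)[X] => g.eval t) h5
        simp only [eval_mul, eval_sub, eval_X, eval_C, sub_self, zero_mul] at h7
        rcases mul_eq_zero.1 h7.symm with h8 | h8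
        · exact sub_eq_zero.1 h8
        · exact absurd h8 (irr_no_root b1 (by omega) t)
      subst h6
      rw [mul_left_cancel₀ (X_sub_C_ne_zero t) h5]

end Lots

/-- The numbers of polynomials with the patterns. -/
theorem lots (r N : ℕ) (hr : 2 ≤ r) (hN : 0 < N) : ∃ c : ℝ, 0 < c ∧ c ≤ 1 ∧ ∃ l₀ : ℕ,
    ∀ l : ℕ, l.Prime → l₀ ≤ l → ∀ x : ZMod l, x ≠ 0 → Lots c l r x {f | IsSplit f} ∧
      Lots c l r x {f | IsSwap N f} ∧ Lots c l r x {f | Irreducible f} ∧
      (3 ≤ r → Lots c l r x {f | IsLin f}) := by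
  set c₁ : ℝ := 1 / (4 * 2 ^ r * (2 ^ (r - 2) * (r - 2).factorial)) with hc₁
  set c₂ : ℝ := 1 / (4 * r) with hc₂
  have hr0 : (0 : ℝ) < r := by
    have : 0 < r := by omega
    exact_mod_cast this
  have hf0 : (0 : ℝ) < ((r - 2).factorial : ℝ) := by exact_mod_cast Nat.factorial_pos _
  refine ⟨min 1 (min c₁ c₂), lt_min one_pos (lt_min (by positivity) (by positivity)),
    min_le_left _ _, 4 * r + 8 * N + 8, fun l hl hll x hx => ?_⟩
  have : Fact l.Prime := ⟨hl⟩
  have m1 : min 1 (min c₁ c₂) ≤ c₁ := (min_le_right _ _).trans (min_le_left _ _)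
  have m2 : min 1 (min c₁ c₂) ≤ c₂ := (min_le_right _ _).trans (min_le_right _ _)
  refine ⟨lots_mono (split_lots r hr (by omega) x hx) m1,
    lots_mono (swap_lots N r hr hN (by omega) (by omega) x hx) m1,
    lots_mono (irr_lots (by omega) r hr x hx) (m2.trans ?_),
    fun h3 => lots_mono (lin_lots (by omega) r h3 x hx) m2⟩
  rw [hc₂]
  refine one_div_le_one_div_of_le (by positivity) ?_
  linarith

end Pool.Agent.K1H12.UN
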