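import Pool.Agent.K1H12.UN.Swp
import Pool.Agent.K1H12.UN.Irr
import Pool.Agent.K1H12.UN.Abs

/-!
# Lower bounds for the proportions of unitary similitudes with given patterns
-/

set_option autoImplicit false

open Polynomial NumberField

namespace Pool.Agent.K1H12.UN

open Pool.Agent.W521.Frob Pool.Agent.W458.MF

section Split

variable {K : Type} [Field K] {θ : 𝓞 K} {M l : ℕ}

/-- Complete splitting from the splitting of the minimal polynomial of the generator. -/
theorem splitsIn_of (hθ : IsGen θ M) (hl : l.Prime) (hD : SplitsMod (gp θ) l) (hM : ¬ l ∣ M) :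
    SplitsIn K l := by
  have : Fact l.Prime := ⟨hl⟩
  intro x
  obtain ⟨u, hu⟩ := hθ.2 x
  obtain ⟨T, hT⟩ := hD
  -- the polynomial `u ^ l - u`
  have h1 : (gp θ).map (Int.castRingHom (ZMod l)) ∣
      (u ^ l - u).map (Int.castRingHom (ZMod l)) := by
    rw [hT]
    refine Finset.prod_dvd_of_coprime ?_ ?_
    · intro a _ b _ hab
      exact pairwise_coprime_X_sub_C (fun _ _ h => h) hab
    · intro t _
      rw [dvd_iff_isRoot, IsRoot.def, Polynomial.map_sub, Polynomial.map_pow, eval_sub, eval_pow,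
        ZMod.pow_card, sub_self]
  obtain ⟨w, hw⟩ := h1
  obtain ⟨w', rfl⟩ := Polynomial.map_surjective _ (ZMod.ringHom_surjective
    (Int.castRingHom (ZMod l))) w
  have h2 : C (l : ℤ) ∣ u ^ l - u - gp θ * w' := by
    rw [C_dvd_iff_dvd_coeff]
    intro i
    have h3 : ((u ^ l - u - gp θ * w').map (Int.castRingHom (ZMod l))).coeff i = 0 := by
      rw [Polynomial.map_sub, hw, Polynomial.map_mul, sub_self, coeff_zero]
    rw [coeff_map] at h3
    exact (ZMod.intCast_zmod_eq_zero_iff_dvd _ l).1 h3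
  obtain ⟨v, hv⟩ := h2
  have h3 : (aeval θ u) ^ l - aeval θ u = (l : 𝓞 K) * aeval θ v := by
    have h4 := congrArg (aeval θ) hv
    rw [map_sub, map_sub, map_pow, map_mul, map_mul, gp_root, zero_mul, sub_zero, aeval_C] at h4
    rw [h4]
    simp
  have h4 : (l : 𝓞 K) ∣ (M : 𝓞 K) * (x ^ l - x) := by
    have h5 : (l : 𝓞 K) ∣ (M : 𝓞 K) ^ l - M := by
      have h6 : (l : ℤ) ∣ (M : ℤ) ^ l - M := by
        rw [← ZMod.intCast_zmod_eq_zero_iff_dvd]
        push_cast
        rw [ZMod.pow_card, sub_self]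
      have h7 := map_dvd (Int.castRingHom (𝓞 K)) h6
      simpa using h7
    obtain ⟨a, ha⟩ := h5
    refine ⟨aeval θ v - a * x ^ l, ?_⟩
    have h6 : ((M : 𝓞 K) * x) ^ l = (aeval θ u) ^ l := by rw [hu]
    rw [mul_pow] at h6
    linear_combination h3 - hu + h6 - x ^ l * ha
  have hco : IsCoprime (l : 𝓞 K) (M : 𝓞 K) := by
    have h5 : IsCoprime (l : ℤ) (M : ℤ) := by
      rw [Nat.isCoprime_iff_coprime]
      exact (Nat.Prime.coprime_iff_not_dvd hl).2 hM
    have h6 := h5.map (Int.castRingHom (𝓞 K))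
    simpa using h6
  exact hco.dvd_of_dvd_mul_left h4

/-- The homomorphisms to the prime field are determined by the value at the generator. -/
lemma hom_inj [Fact l.Prime] (hθ : IsGen θ M) (hM : ¬ l ∣ M) :
    Function.Injective fun φ : 𝓞 K →+* ZMod l => φ θ := by
  intro φ ψ h
  refine hθ.hom_ext ?_ h
  rw [Ne, ZMod.natCast_eq_zero_iff]
  exact hM

lemma hom_finite [Fact l.Prime] (hθ : IsGen θ M) (hM : ¬ l ∣ M) :
    Finite (𝓞 K →+* ZMod l) := Finite.of_injective _ (hom_inj hθ hM)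

lemma hom_card [Fact l.Prime] (hθ : IsGen θ M) (hM : ¬ l ∣ M) [Fintype (𝓞 K →+* ZMod l)] :
    Fintype.card (𝓞 K →+* ZMod l) ≤ (gp θ).natDegree := by
  classical
  have hm : ((gp θ).map (Int.castRingHom (ZMod l))).Monic := (gp_monic θ).map _
  have h1 : (Finset.univ : Finset (𝓞 K →+* ZMod l)).card ≤
      ((gp θ).map (Int.castRingHom (ZMod l))).roots.toFinset.card := by
    refine Finset.card_le_card_of_injOn (fun φ => φ θ) ?_ ((hom_inj hθ hM).injOn)
    intro φ _
    rw [Finset.mem_coe, Multiset.mem_toFinset, mem_roots hm.ne_zero, IsRoot.def, eval_map]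
    exact gp_root' φ θ
  rw [Finset.card_univ] at h1
  refine h1.trans ((Multiset.toFinset_card_le _).trans ((card_roots' _).trans ?_))
  rw [(gp_monic θ).natDegree_map]

lemma hom_nonempty [NumberField K] (hl : l.Prime) (hS : SplitsIn K l) :
    Nonempty (𝓞 K →+* ZMod l) := by
  have : Fact l.Prime := ⟨hl⟩
  have h1 : Ideal.span {(l : 𝓞 K)} ≠ ⊤ := by
    rw [Ne, Ideal.span_singleton_eq_top]
    intro h
    have h2 := h.map (Algebra.norm ℤ)
    rw [show (l : 𝓞 K) = algebraMap ℤ (𝓞 K) (l : ℤ) by simp, Algebra.norm_algebraMap] at h2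
    have h3 : IsUnit (l : ℤ) := by
      refine (isUnit_pow_iff ?_).1 h2
      exact (Module.finrank_pos (R := ℤ) (M := 𝓞 K)).ne'
    rw [Int.isUnit_iff] at h3
    have := hl.two_le
    omega
  obtain ⟨𝔪, hm, hle⟩ := Ideal.exists_le_maximal _ h1
  let k := 𝓞 K ⧸ 𝔪
  let _ : Field k := Ideal.Quotient.field 𝔪
  have hlm : ((l : ℕ) : k) = 0 := by
    have h2 : (l : 𝓞 K) ∈ 𝔪 := hle (Ideal.mem_span_singleton_self _)
    have h3 := (Ideal.Quotient.eq_zero_iff_mem (I := 𝔪)).2 h2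
    rw [map_natCast] at h3
    exact h3
  have hchar : CharP k l := by
    obtain ⟨c, hc⟩ := CharP.exists k
    have h2 : c ∣ l := (CharP.cast_eq_zero_iff k c l).1 hlm
    rcases (Nat.dvd_prime hl).1 h2 with h3 | h3
    · rw [h3] at hc
      have h4 : ((1 : ℕ) : k) = 0 := CharP.cast_eq_zero k 1
      rw [Nat.cast_one] at h4
      exact absurd h4 one_ne_zero
    · rw [← h3]
      exact hc
  obtain ⟨φ, -⟩ := exists_lift (l := l) (Ideal.Quotient.mk 𝔪) (fun x => by
    obtain ⟨y, hy⟩ := hS x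
    have h2 := congrArg (Ideal.Quotient.mk 𝔪) hy
    have h3 : (Ideal.Quotient.mk 𝔪) (l : 𝓞 K) = 0 := by
      rw [map_natCast]
      exact hlm
    rw [map_sub, map_pow, map_mul, h3, zero_mul] at h2
    exact sub_eq_zero.1 h2)
  exact ⟨φ⟩

lemma hom_conj_ne [NumberField K] [IsCMField K] [Fact l.Prime] (hθ : IsGen θ M)
    (hD : SplitsMod (gp θ) l) (φ : 𝓞 K →+* ZMod l) : φ.comp (cj K) ≠ φ := by
  intro h
  have h1 : φ (cj K θ) = φ θ := congrArg (fun ρ : 𝓞 K →+* ZMod l => ρ θ) h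
  have hs : (((gp θ).map (algebraMap ℤ (𝓞 K))).map φ).Separable := by
    rw [Polynomial.map_map, RingHom.ext_int (φ.comp _) (Int.castRingHom (ZMod l))]
    exact splits_gp_sep hD
  have h2 : cj K θ = θ := by
    refine eq_of_map_eq' φ _ hs _ _ ?_ ?_ h1
    · rw [eval_map]
      exact gp_root' (cj K) θ
    · rw [eval_map]
      exact gp_root θ
  have h3 : cj K = RingHom.id (𝓞 K) := by
    refine hθ.hom_ext ?_ h2
    exact_mod_cast hθ.1
  apply IsCMField.complexConj_ne_one K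
  have h4 : ck K = RingHom.id K := by
    refine IsLocalization.ringHom_ext (nonZeroDivisors (𝓞 K)) ?_
    ext x
    have h5 := cj_coe x
    rw [h3] at h5
    exact h5.symm
  ext x
  exact congrArg (fun ρ : K →+* K => ρ x) h4

end Split

section Lower

variable {K : Type} [Field K] [NumberField K] [IsCMField K] {θ : 𝓞 K} {M : ℕ}

lemma comp_cj_cj {l : ℕ} (φ : 𝓞 K →+* ZMod l) : (φ.comp (cj K)).comp (cj K) = φ := by
  ext x
  exact congrArg φ (cj_cj x)

/-- A half system. -/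
lemma exists_half {l : ℕ} [Fact l.Prime] (hθ : IsGen θ M) (hD : SplitsMod (gp θ) l)
    [Fintype (𝓞 K →+* ZMod l)] :
    ∃ H : Finset (𝓞 K →+* ZMod l), ∀ φ, φ ∈ H ↔ φ.comp (cj K) ∉ H := by
  classical
  let e := Fintype.equivFin (𝓞 K →+* ZMod l)
  refine ⟨Finset.univ.filter fun φ => e φ < e (φ.comp (cj K)), fun φ => ?_⟩
  simp only [Finset.mem_filter, Finset.mem_univ, true_and, comp_cj_cj, not_lt]
  refine ⟨le_of_lt, fun h => lt_of_le_of_ne h fun h' => ?_⟩
  exact hom_conj_ne hθ hD φ (e.injective h').symm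

/-- The determinants. -/
def dets (K : Type) [Field K] (l : ℕ) (Δ : Set (𝓞 K)) : Set ((𝓞 K →+* ZMod l) → ZMod l) :=
  {d | ∃ δ ∈ Δ, ∀ φ, d φ = φ δ}

lemma simil_eq {r l : ℕ} [Fact l.Prime] (q : ZMod l) (Δ : Set (𝓞 K))
    (E : Set ((𝓞 K →+* ZMod l) → (ZMod l)[X])) :
    {B | B ∈ similitudes K r l q Δ ∧ (fun φ => (B φ).charpoly) ∈ E} =
      Sim r (fun φ : 𝓞 K →+* ZMod l => φ.comp (cj K)) q (dets K l Δ) E := by
  ext B
  constructor
  · rintro ⟨⟨h1, h2⟩, h3⟩
    exact ⟨h1, h2, h3⟩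
  · rintro ⟨h1, h2, h3⟩
    exact ⟨⟨h1, h2⟩, h3⟩

lemma simil_eq' {r l : ℕ} [Fact l.Prime] (q : ZMod l) (Δ : Set (𝓞 K)) :
    similitudes K r l q Δ =
      Sim r (fun φ : 𝓞 K →+* ZMod l => φ.comp (cj K)) q (dets K l Δ) Set.univ := by
  ext B
  constructor
  · rintro ⟨h1, h2⟩
    exact ⟨h1, h2, Set.mem_univ _⟩
  · rintro ⟨h1, h2, -⟩
    exact ⟨h1, h2⟩

lemma law_nonneg (r l : ℕ) (q : ZMod l) (Δ : Set (𝓞 K))
    (E : Set ((𝓞 K →+* ZMod l) → (ZMod l)[X])) : 0 ≤ law K r l q Δ E := by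
  unfold law
  positivity

lemma law_le_one {l : ℕ} [Fact l.Prime] (hθ : IsGen θ M) (hM : ¬ l ∣ M) (r : ℕ) (q : ZMod l)
    (Δ : Set (𝓞 K)) (E : Set ((𝓞 K →+* ZMod l) → (ZMod l)[X])) : law K r l q Δ E ≤ 1 := by
  classical
  have := hom_finite (l := l) hθ hM
  unfold law
  refine div_le_one_of_le₀ ?_ (by positivity)
  refine Nat.cast_le.2 (Set.ncard_le_ncard ?_ (Set.toFinite _))
  rintro B ⟨hB, -⟩
  exact hB

/-- **Lower bounds for the proportions of the patterns.** -/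
theorem law_lower (hθ : IsGen θ M) (r N : ℕ) (hr : 2 ≤ r) (hN : 0 < N) :
    ∃ c : ℝ, 0 < c ∧ ∃ l₁ : ℕ, ∀ l : ℕ, l.Prime → l₁ ≤ l → SplitsMod (gp θ) l → ¬ l ∣ M →
      ∀ q : ℕ, ¬ l ∣ q → ∀ Δ : Set (𝓞 K), Δ.Nonempty →
        (∀ δ ∈ Δ, δ * cj K δ = (q : 𝓞 K) ^ r) →
        c ≤ law K r l (q : ZMod l) Δ (irrPat l) ∧ c ≤ law K r l (q : ZMod l) Δ (splitPat l) ∧
        c ≤ law K r l (q : ZMod l) Δ (swapPat N l) ∧
        (3 ≤ r → c ≤ law K r l (q : ZMod l) Δ (linPat l)) := by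
  classical
  obtain ⟨c, hc, hc1, l₁, h1⟩ := lots r N hr hN
  refine ⟨(c / 2) ^ (gp θ).natDegree, by positivity, l₁,
    fun l hl hll hD hM q hq Δ hΔ hnorm => ?_⟩
  have : Fact l.Prime := ⟨hl⟩
  have := hom_finite (l := l) hθ hM
  have : Fintype (𝓞 K →+* ZMod l) := Fintype.ofFinite _
  obtain ⟨H, hH⟩ := exists_half (l := l) hθ hD
  obtain ⟨φ₁⟩ := hom_nonempty hl (splitsIn_of hθ hl hD hM)
  obtain ⟨φ₀, hφ₀⟩ : ∃ φ₀, φ₀ ∈ H := by
    by_cases h : φ₁ ∈ H
    · exact ⟨φ₁, h⟩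
    · refine ⟨φ₁.comp (cj K), ?_⟩
      by_contra h'
      exact h ((hH φ₁).2 h')
  have hcard : H.card ≤ (gp θ).natDegree := (Finset.card_le_univ H).trans (hom_card hθ hM)
  have hq0 : (q : ZMod l) ≠ 0 := by
    rw [Ne, ZMod.natCast_eq_zero_iff]
    exact hq
  have hDD : ∀ d ∈ dets K l Δ, ∀ φ, d φ * d (φ.comp (cj K)) = (q : ZMod l) ^ r := by
    rintro d ⟨δ, hδ, hd⟩ φ
    have h2 := congrArg φ (hnorm δ hδ)
    rw [map_mul, map_pow, map_natCast] at h2
    rw [hd, hd]
    exact h2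
  have hD0 : ∀ d ∈ dets K l Δ, ∀ φ, d φ ≠ 0 := by
    intro d hd φ h0
    have h2 := hDD d hd φ
    rw [h0, zero_mul] at h2
    exact pow_ne_zero r hq0 h2.symm
  have hr0 : 0 < r := by omega
  have hpos := sim_pos (q := (q : ZMod l)) (c := fun φ : 𝓞 K →+* ZMod l => φ.comp (cj K))
    hr0 hH comp_cj_cj (dets K l Δ)
    (by
      obtain ⟨δ, hδ⟩ := hΔ
      exact ⟨fun φ => φ δ, δ, hδ, fun _ => rfl⟩) hD0 hDD
  have key : ∀ (A : (𝓞 K →+* ZMod l) → Set (ZMod l)[X])
      (E : Set ((𝓞 K →+* ZMod l) → (ZMod l)[X])),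
      (∀ f : (𝓞 K →+* ZMod l) → (ZMod l)[X], (∀ φ ∈ H, f φ ∈ A φ) → f ∈ E) →
      (∀ φ ∈ H, A φ = Set.univ ∨ ∀ x : ZMod l, x ≠ 0 → Lots c l r x (A φ)) →
      (c / 2) ^ (gp θ).natDegree ≤ law K r l (q : ZMod l) Δ E := by
    intro A E hAE hA
    have h2 := abs_law (c := fun φ : 𝓞 K →+* ZMod l => φ.comp (cj K)) hr0 hH comp_cj_cj hq0
      (dets K l Δ) hD0 hDD A E hAE (κ := c / 2) (by positivity) (by
        intro φ hφ x hx
        rcases hA φ hφ with h3 | h3
        · rw [h3]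
          have h4 : (0 : ℝ) ≤ nm r x Set.univ := Nat.cast_nonneg _
          nlinarith
        · obtain ⟨T, hT, hTc⟩ := h3 x hx
          refine ratio hr0 hx (A φ) T hT hc.le ?_
          rw [ZMod.card]
          exact hTc)
    unfold law
    rw [simil_eq, simil_eq', le_div_iff₀ (by exact_mod_cast hpos)]
    refine le_trans (mul_le_mul_of_nonneg_right ?_ (Nat.cast_nonneg _)) h2
    exact pow_le_pow_of_le_one (by positivity) (by linarith) hcard
  refine ⟨?_, ?_, ?_, fun hr3 => ?_⟩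
  · refine key (fun φ => if φ = φ₀ then {f | Irreducible f} else Set.univ) _ ?_ ?_
    · intro f hf
      have h2 := hf φ₀ hφ₀
      rw [if_pos rfl] at h2
      exact ⟨φ₀, h2⟩
    · intro φ _
      by_cases h : φ = φ₀
      · right
        intro x hx
        rw [if_pos h]
        exact (h1 l hl hll x hx).2.2.1
      · left
        rw [if_neg h]
  · refine key (fun _ => {f | IsSplit f}) _ ?_ ?_
    · intro f hf φ
      by_cases h : φ ∈ H
      · exact Or.inl (hf φ h)
      · right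
        refine hf _ ?_
        by_contra h'
        exact h ((hH φ).2 h')
    · intro φ _
      right
      intro x hx
      exact (h1 l hl hll x hx).1
  · refine key (fun φ => if φ = φ₀ then {f | IsSwap N f} else {f | IsSplit f}) _ ?_ ?_
    · intro f hf
      refine ⟨φ₀, ?_, ?_⟩
      · have h2 := hf φ₀ hφ₀
        rw [if_pos rfl] at h2
        exact h2
      · intro φ n1 n2
        by_cases h : φ ∈ H
        · left
          have h2 := hf φ h
          rw [if_neg n1] at h2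
          exact h2
        · right
          have h3 : φ.comp (cj K) ∈ H := by
            by_contra h'
            exact h ((hH φ).2 h')
          have h2 := hf _ h3
          rw [if_neg] at h2
          · exact h2
          · intro h4
            apply n2
            rw [← h4, comp_cj_cj]
    · intro φ _
      right
      intro x hx
      by_cases h : φ = φ₀
      · rw [if_pos h]
        exact (h1 l hl hll x hx).2.1
      · rw [if_neg h]
        exact (h1 l hl hll x hx).1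
  · refine key (fun φ => if φ = φ₀ then {f | IsLin f} else Set.univ) _ ?_ ?_
    · intro f hf
      have h2 := hf φ₀ hφ₀
      rw [if_pos rfl] at h2
      exact ⟨φ₀, h2⟩
    · intro φ _
      by_cases h : φ = φ₀
      · right
        intro x hx
        rw [if_pos h]
        exact (h1 l hl hll x hx).2.2.2 hr3
      · left
        rw [if_neg h]

end Lower

end Pool.Agent.K1H12.UN
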