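import Pool.Agent.K1H12.UN.NTF
import Pool.Agent.K1H12.UN.Law
import Pool.Agent.K1H12.UN.AA
import Pool.Agent.K1H12.UN.Exi
import Pool.Agent.W458.MF.Gen2

/-!
# Families with unitary monodromy: almost all tuples satisfy the hypotheses of the geometric theorem
-/

set_option autoImplicit false

open CategoryTheory AlgebraicGeometry Polynomial NumberField

universe u v

namespace Pool.Agent.K1H12.UN

open Pool.Agent.H914 Pool.Agent.W534 Pool.Agent.W521.Frob VarClass Obj WeilCohomology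
  Pool.Agent.W458.MF

/-- The version of `HasUnitaryMonodromy` in which the determinant does not vary with the parameter
(it is used only for sets `Δ m` with at most one element). -/
structure HasUM {k : Type u} [Field k] {𝒱 : VarClass k} {ops : CycleOps 𝒱}
    {W : WeilCohomology.{u, v} ops} {Y : 𝒱.Obj} (F : Family W Y) {p : ℕ} (Φ : FrobSystem W p)
    (K : Type) [Field K] [NumberField K] [IsCMField K] (d r l₀ : ℕ)
    (P : ∀ m, F.S m → (𝓞 K)[X]) (Δ : ℕ → Set (𝓞 K)) : Prop where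
  isOver : ∀ m, 0 < m → ∀ s : F.S m, (F.member m s).IsOver Φ m
  dim : ∀ m (s : F.S m), (F.member m s).obj.dim = d
  rank : 2 ≤ r
  monic : ∀ m (s : F.S m), (P m s).Monic
  natDegree : ∀ m (s : F.S m), (P m s).natDegree = r
  norm : ∀ m (s : F.S m), (weil (p ^ (d * m)) (F.member m s).pol).map (Int.castRingHom ℂ) =
    ∏ σ : K →+* ℂ, (P m s).map (res σ)
  rh : ∀ m (s : F.S m) (σ : K →+* ℂ) (z : ℂ), eval₂ (res σ) z (P m s) = 0 →
    ‖z‖ ^ 2 = (p : ℝ) ^ (d * m)
  det : ∀ m (s : F.S m), ∃ δ ∈ Δ m, (P m s).coeff 0 = (-1) ^ r * δ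
  norm_det : ∀ m, ∀ δ ∈ Δ m, δ * cj K δ = (p : 𝓞 K) ^ (d * m * r)
  equidistributed : ∀ l l' : ℕ, l.Prime → l'.Prime → l₀ ≤ l → l₀ ≤ l' → l ≠ l' →
    SplitsIn K l → SplitsIn K l' → ∀ ε : ℝ, 0 < ε → ∃ m₀ : ℕ, ∀ m ≥ m₀, Nonempty (F.S m) →
      ∀ (E : Set ((𝓞 K →+* ZMod l) → (ZMod l)[X])) (E' : Set ((𝓞 K →+* ZMod l') → (ZMod l')[X])),
        |frequency (P m) l l' E E' - law K r l (p ^ (d * m) : ℕ) (Δ m) E *
          law K r l' (p ^ (d * m) : ℕ) (Δ m) E'| ≤ ε

variable {k : Type u} [Field k] {𝒱 : VarClass k} {ops : CycleOps 𝒱}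
  {W : WeilCohomology.{u, v} ops} {Y : 𝒱.Obj} {p : ℕ} {Φ : FrobSystem W p}

open Classical in
/-- The patterns. -/
noncomputable def evts {I : Type} (K : I → Type) [∀ i, Field (K i)] [∀ i, NumberField (K i)]
    [∀ i, IsCMField (K i)] (r : I → ℕ) (N : ℕ) (κ : I × Fin 3) (i : I)
    (_m l : ℕ) : Set ((𝓞 (K i) →+* ZMod l) → (ZMod l)[X]) :=
  match κ.2 with
  | 0 => if i = κ.1 then irrPat (F := K i) l else Set.univ
  | 1 => if i = κ.1 then swapPat (F := K i) N l else splitPat (F := K i) l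
  | 2 => if i = κ.1 ∧ 3 ≤ r i then linPat (F := K i) l else Set.univ

lemma law_univ {K : Type} [Field K] [NumberField K] [IsCMField K] {θ : 𝓞 K} {M : ℕ} {l : ℕ}
    [Fact l.Prime] (hθ : IsGen θ M) (hM : ¬ l ∣ M) (r : ℕ) (q : ZMod l) (Δ : Set (𝓞 K))
    (E : Set ((𝓞 K →+* ZMod l) → (ZMod l)[X])) : law K r l q Δ E ≤ law K r l q Δ Set.univ := by
  classical
  have := hom_finite (l := l) hθ hM
  unfold law
  refine div_le_div_of_nonneg_right ?_ (by positivity)
  refine Nat.cast_le.2 (Set.ncard_le_ncard ?_ (Set.toFinite _))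
  rintro B ⟨hB, -⟩
  exact ⟨hB, Set.mem_univ _⟩

/-- **Almost all tuples of members of families with unitary monodromy and independent determinants
satisfy the hypotheses of the geometric theorem.** -/
theorem unitary_setup (σ : W.K →+* ℂ) (hp : p.Prime)
    (hint : ∀ μ : W.K, Module.End.HasEigenvalue (W.map (Φ.Fr Y)).toLinearMap μ → IsIntegral ℤ μ)
    {I : Type} [Fintype I] (F : I → Family W Y) (K : I → Type) [∀ i, Field (K i)]
    [∀ i, NumberField (K i)] [∀ i, IsCMField (K i)] (d r l₀ : I → ℕ)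
    (P : ∀ i m, (F i).S m → (𝓞 (K i))[X]) (Δ : ∀ i, ℕ → Set (𝓞 (K i)))
    (hF : ∀ i, HasUM (F i) Φ (K i) (d i) (r i) (l₀ i) (P i) (Δ i))
    (hind : ∀ m, 0 < m → ∀ δ : ∀ i, 𝓞 (K i), (∀ i, δ i ∈ Δ i m) →
      Independent K δ (frobConjugates Φ Y)) (ε : ℝ) (hε : 0 < ε) :
    ∃ (R : ℤ[X]) (m₀ : ℕ), ∀ m ≥ m₀, ({s : ∀ i, (F i).S m |
        ¬ Setup Φ σ (fun i => (F i).member m (s i)) m R}.ncard : ℝ) ≤
      ε * ∏ i, (Nat.card ((F i).S m) : ℝ) := by
  classical
  choose θ M hθ using fun i => exists_isGen (K := K i)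
  obtain ⟨R, hRm, hRs, hR, hRz⟩ := exists_R'
    (Module.End.finite_hasEigenvalue (W.map (Φ.Fr Y)).toLinearMap) hint
  have hRz' : {z : ℂ | aeval z R = 0} ⊆ frobConjugates Φ Y := by
    intro z hz
    obtain ⟨μ, hμ, h1⟩ := hRz z hz
    exact ⟨μ, hμ, h1⟩
  set g : I → ℕ := fun i => Fintype.card (K i →+* ℂ) * r i with hg
  obtain ⟨N, hN, hNz⟩ := W216.MF.uni ((∑ i, g i) ^ 2)
  refine ⟨R, ?_⟩
  have hdeg : ∀ i m (s : (F i).S m), 2 * ((F i).member m s).pol.natDegree ≤ g i ∨ m = 0 := by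
    intro i m s
    rcases Nat.eq_zero_or_pos m with hm | hm
    · exact Or.inr hm
    left
    have h1 := congrArg natDegree ((hF i).norm m s)
    have hmon := ((hF i).isOver m hm s).monic
    rw [(weil_monic _ hmon).natDegree_map, weil_natDegree _ hmon,
      natDegree_prod_of_monic _ _ fun σ _ => ((hF i).monic m s).map _] at h1
    have h2 : ∀ σ ∈ (Finset.univ : Finset (K i →+* ℂ)),
        ((P i m s).map (res σ)).natDegree = r i := fun σ _ => by
      rw [((hF i).monic m s).natDegree_map, (hF i).natDegree m s]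
    rw [Finset.sum_congr rfl h2, Finset.sum_const, Finset.card_univ, smul_eq_mul] at h1
    exact h1.le
  choose c hc l₁ hl₁ using fun i => law_lower (hθ i) (r i) N (hF i).rank hN
  obtain ⟨c₀, hc₀, hc₀c⟩ : ∃ c₀ : ℝ, 0 < c₀ ∧ ∀ i, c₀ ≤ c i := by
    rcases isEmpty_or_nonempty I with hI | hI
    · exact ⟨1, one_pos, fun i => hI.elim i⟩
    · obtain ⟨i, hi⟩ := Finite.exists_min c
      exact ⟨c i, hc i, hi⟩
  set L : ℕ := p + 3 + ∑ i, (l₀ i + l₁ i + M i) with hL
  have hLi : ∀ i, l₀ i + l₁ i + M i ≤ L := fun i => by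
    have := Finset.single_le_sum (f := fun i => l₀ i + l₁ i + M i) (fun j _ => Nat.zero_le _)
      (Finset.mem_univ i)
    omega
  -- the primes
  obtain ⟨A, hA, hAs, hAd⟩ := exists_common (I := Option I)
    (fun x => match x with | none => R | some i => gp (θ i))
    (fun x => match x with | none => hRm | some i => gp_monic (θ i))
    (fun x => match x with | none => hRs | some i => (gp_irr (θ i)).separable)
  have hAR : R ∣ A := hAd none
  have hAD : ∀ i, gp (θ i) ∣ A := fun i => hAd (some i)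
  set G : Set ℕ := {l : ℕ | l.Prime ∧ SplitsMod A l} \ {l | l ≤ L} with hG
  have hinf : G.Infinite := (W976.MF.SPL A hA hAs).sdiff (Set.finite_le_nat L)
  have hGp : ∀ l ∈ G, l.Prime ∧ SplitsMod A l ∧ L < l := fun l hl =>
    ⟨hl.1.1, hl.1.2, not_le.1 hl.2⟩
  have hGθ : ∀ i, ∀ l ∈ G, SplitsMod (gp (θ i)) l := fun i l hl =>
    splitsMod_of_dvd (gp_monic (θ i)) (hAD i) (hGp l hl).1 (hGp l hl).2.1
  have hGM : ∀ i, ∀ l ∈ G, ¬ l ∣ M i := by
    intro i l hl h
    have h1 := (hGp l hl).2.2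
    have h2 := hLi i
    have h3 := Nat.le_of_dvd (Nat.pos_of_ne_zero (hθ i).1) h
    omega
  have hGlp : ∀ l ∈ G, ¬ l ∣ p := by
    intro l hl h
    have h1 := (hGp l hl).2.2
    have h3 := Nat.le_of_dvd hp.pos h
    omega
  have hdens : ∀ i, ∀ l ∈ G, ∀ m : ℕ, Nonempty ((F i).S m) →
      c₀ ≤ law (K i) (r i) l (p ^ (d i * m) : ℕ) (Δ i m) (irrPat l) ∧
      c₀ ≤ law (K i) (r i) l (p ^ (d i * m) : ℕ) (Δ i m) (splitPat l) ∧
      c₀ ≤ law (K i) (r i) l (p ^ (d i * m) : ℕ) (Δ i m) (swapPat N l) ∧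
      (3 ≤ r i → c₀ ≤ law (K i) (r i) l (p ^ (d i * m) : ℕ) (Δ i m) (linPat l)) := by
    rintro i l hl m ⟨s⟩
    have h4 := hLi i
    have h3 := (hGp l hl).2.2
    obtain ⟨h5, h6, h7, h8⟩ := hl₁ i l (hGp l hl).1 (by omega) (hGθ i l hl) (hGM i l hl)
      (p ^ (d i * m)) (fun h => hGlp l hl ((hGp l hl).1.dvd_of_dvd_pow h)) (Δ i m)
      (by
        obtain ⟨δ, hδ, -⟩ := (hF i).det m s
        exact ⟨δ, hδ⟩)
      (by
        intro δ hδ
        rw [(hF i).norm_det m δ hδ]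
        push_cast
        rw [← pow_mul])
    have h9 := hc₀c i
    exact ⟨h9.trans h5, h9.trans h6, h9.trans h7, fun h => h9.trans (h8 h)⟩
  have hE : ∀ (κ : I × Fin 3) i, ∀ l ∈ G, ∀ m, Nonempty ((F i).S m) →
      c₀ ≤ law (K i) (r i) l (p ^ (d i * m) : ℕ) (Δ i m) (evts K r N κ i m l) := by
    rintro ⟨i₀, e⟩ i l hl m hne
    obtain ⟨h1, h2, h3, h4⟩ := hdens i l hl m hne
    have hlp : Fact l.Prime := ⟨(hGp l hl).1⟩
    have huniv : c₀ ≤ law (K i) (r i) l (p ^ (d i * m) : ℕ) (Δ i m) Set.univ :=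
      h1.trans (law_univ (hθ i) (hGM i l hl) _ _ _ _)
    unfold evts
    fin_cases e
    · dsimp only
      split_ifs
      · exact h1
      · exact huniv
    · dsimp only
      split_ifs with hi
      · exact h3
      · exact h2
    · dsimp only
      split_ifs with hi
      · exact h4 hi.2
      · exact huniv
  obtain ⟨m₀, h⟩ := aa W216.MF.sieve (K := I × Fin 3) (fun i m => (F i).S m)
    (fun i l => (𝓞 (K i) →+* ZMod l) → (ZMod l)[X])
    (fun i m l s φ => (P i m s).map φ) G hinf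
    (fun i m l E => law (K i) (r i) l (p ^ (d i * m) : ℕ) (Δ i m) E)
    (fun i l hl l' hl' hll => (hF i).equidistributed l l' (hGp l hl).1 (hGp l' hl').1
      (by have h1 := hLi i; have h2 := (hGp l hl).2.2; omega)
      (by have h1 := hLi i; have h2 := (hGp l' hl').2.2; omega) hll
      (splitsIn_of (hθ i) (hGp l hl).1 (hGθ i l hl) (hGM i l hl))
      (splitsIn_of (hθ i) (hGp l' hl').1 (hGθ i l' hl') (hGM i l' hl')))
    (fun i l hl m E => law_nonneg _ _ _ _ _)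
    (fun i l hl m E => by
      have hlp : Fact l.Prime := ⟨(hGp l hl).1⟩
      exact law_le_one (hθ i) (hGM i l hl) _ _ _ _)
    (evts K r N) hc₀ hE ε hε
  refine ⟨m₀ + 1, fun m hm => le_trans ?_ (h m (by omega))⟩
  have hm0 : 0 < m := by omega
  refine Nat.cast_le.2 (Set.ncard_le_ncard ?_ (Set.toFinite _))
  intro s hs hpat
  apply hs
  have hO : ∀ i, ((F i).member m (s i)).IsOver Φ m := fun i => (hF i).isOver m hm0 (s i)
  have hdim : ∀ i, ((F i).member m (s i)).obj.dim = d i := fun i => (hF i).dim m (s i)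
  choose δ hδ hδc using fun i => (hF i).det m (s i)
  have hnt := unt (K := K) (fun i => p ^ (d i * m))
    (fun i => ((F i).member m (s i)).pol) R N (fun i => P i m (s i)) δ θ M
    (fun i => pow_pos hp.pos _)
    (fun i => (hO i).monic) hRm (fun i => (hF i).monic m (s i))
    (fun i => (hF i).norm m (s i))
    (fun i σ z hz => by
      rw [(hF i).rh m (s i) σ z hz]
      push_cast
      rfl)
    (fun i => by rw [hδc i, (hF i).natDegree m (s i)])
    (fun e ν hν c hc hprod => hind m hm0 δ hδ e ν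
      (Submonoid.closure_mono hRz' hν) c hc hprod)
    hθ (by
      rintro i z ht ⟨Q, hQ0, hQd, hQz⟩
      refine hNz z ht ⟨Q, hQ0, hQd.trans ?_, hQz⟩
      refine Nat.pow_le_pow_left ?_ 2
      have h1 := (hdeg i m (s i)).resolve_right (by omega)
      exact h1.trans (Finset.single_le_sum (f := g) (fun j _ => Nat.zero_le _)
        (Finset.mem_univ i)))
    (by
      intro i
      obtain ⟨l, hl, h1⟩ := hpat (i, 0)
      have h2 := h1 i
      unfold evts at h2
      dsimp only at h2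
      rw [if_pos rfl] at h2
      exact ⟨l, (hGp l hl).1, hGθ i l hl, hGM i l hl, h2⟩)
    (by
      intro i h3
      obtain ⟨l, hl, h1⟩ := hpat (i, 2)
      have h2 := h1 i
      unfold evts at h2
      dsimp only at h2
      rw [(hF i).natDegree m (s i)] at h3
      rw [if_pos ⟨rfl, h3⟩] at h2
      exact ⟨l, (hGp l hl).1, hGθ i l hl, hGM i l hl, h2⟩)
    (by
      intro i₀
      obtain ⟨l, hl, h1⟩ := hpat (i₀, 1)
      refine ⟨l, (hGp l hl).1, fun i => hGθ i l hl, hGM i₀ l hl,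
        splitsMod_of_dvd hRm hAR (hGp l hl).1 (hGp l hl).2.1, ?_, fun i hi => ?_⟩
      · have h2 := h1 i₀
        unfold evts at h2
        dsimp only at h2
        rw [if_pos rfl] at h2
        exact h2
      · have h2 := h1 i
        unfold evts at h2
        dsimp only at h2
        rw [if_neg hi] at h2
        exact h2)
  have hQ : ∀ i, ((F i).member m (s i)).Q p m = p ^ (d i * m) := by
    intro i
    rw [Piece.Q, hdim i]
  refine ⟨hp.one_lt, hm0, hO, fun μ hμ => hR μ hμ, ?_, ?_⟩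
  · have e : (fun i => ((F i).member m (s i)).Q p m) = fun i => p ^ (d i * m) := funext hQ
    rw [e]
    exact hnt.1
  · intro i
    rw [hQ i]
    exact hnt.2 i

/-- **The Tate conjecture and semisimplicity for the products of almost all members of families
with unitary monodromy.** -/
theorem unitary_tate₀ (W : WeilCohomology.{u, v} ops)
    [IsAlgClosed W.K] (σ : W.K →+* ℂ) (p : ℕ)
    (hp : p.Prime) (Φ : FrobSystem W p) (Y : 𝒱.Obj)
    (hint : ∀ μ : W.K, Module.End.HasEigenvalue (W.map (Φ.Fr Y)).toLinearMap μ → IsIntegral ℤ μ)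
    (hY : ∀ Z, IsProductOf {Y} Z → ∀ j ≤ Z.dim, SemisimpleTateIn Φ Z j)
    {I : Type} [Fintype I] (F : I → Family W Y) (K : I → Type) [∀ i, Field (K i)]
    [∀ i, NumberField (K i)] [∀ i, IsCMField (K i)] (d r l₀ : I → ℕ)
    (P : ∀ i m, (F i).S m → (𝓞 (K i))[X]) (Δ : ∀ i, ℕ → Set (𝓞 (K i)))
    (hF : ∀ i, HasUM (F i) Φ (K i) (d i) (r i) (l₀ i) (P i) (Δ i))
    (hind : ∀ m, 0 < m → ∀ δ : ∀ i, 𝓞 (K i), (∀ i, δ i ∈ Δ i m) →
      Independent K δ (frobConjugates Φ Y)) (ε : ℝ) (hε : 0 < ε) :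
    ∃ m₀ : ℕ, ∀ m ≥ m₀, ((exceptions F m fun Z => ∀ j, SemisimpleTateIn Φ Z j).ncard : ℝ) ≤
      ε * ∏ i, (Nat.card ((F i).S m) : ℝ) := by
  classical
  obtain ⟨R, m₀, h⟩ := unitary_setup (Φ := Φ) (Y := Y) σ hp hint F K d r l₀ P Δ hF hind ε hε
  refine ⟨m₀, fun m hm => le_trans ?_ (h m hm)⟩
  refine Nat.cast_le.2 (Set.ncard_le_ncard ?_ (Set.toFinite _))
  intro s hs H
  exact hs fun Z hZ => tate_products W397.MF.pair W40.MF.span H hY Z hZ

/-- **The pole formula for the products of almost all members of families with unitary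
monodromy.** -/
theorem unitary_pole₀ (W : WeilCohomology.{u, v} ops)
    [IsAlgClosed W.K] (σ : W.K →+* ℂ) (p : ℕ)
    (hp : p.Prime) (Φ : FrobSystem W p) (hRH : ∀ Z, RiemannHyp Φ σ Z) (Y : 𝒱.Obj)
    (hint : ∀ μ : W.K, Module.End.HasEigenvalue (W.map (Φ.Fr Y)).toLinearMap μ → IsIntegral ℤ μ)
    (hY : ∀ Z, IsProductOf {Y} Z → ∀ j ≤ Z.dim, PoleFormula Φ σ Z j)
    {I : Type} [Fintype I] (F : I → Family W Y) (K : I → Type) [∀ i, Field (K i)]
    [∀ i, NumberField (K i)] [∀ i, IsCMField (K i)] (d r l₀ : I → ℕ)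
    (P : ∀ i m, (F i).S m → (𝓞 (K i))[X]) (Δ : ∀ i, ℕ → Set (𝓞 (K i)))
    (hF : ∀ i, HasUM (F i) Φ (K i) (d i) (r i) (l₀ i) (P i) (Δ i))
    (hind : ∀ m, 0 < m → ∀ δ : ∀ i, 𝓞 (K i), (∀ i, δ i ∈ Δ i m) →
      Independent K δ (frobConjugates Φ Y)) (ε : ℝ) (hε : 0 < ε) :
    ∃ m₀ : ℕ, ∀ m ≥ m₀,
      ((exceptions F m fun Z => ∀ j ≤ Z.dim, PoleFormula Φ σ Z j).ncard : ℝ) ≤
        ε * ∏ i, (Nat.card ((F i).S m) : ℝ) := by
  classical
  obtain ⟨R, m₀, h⟩ := unitary_setup (Φ := Φ) (Y := Y) σ hp hint F K d r l₀ P Δ hF hind ε hε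
  refine ⟨m₀, fun m hm => le_trans ?_ (h m hm)⟩
  refine Nat.cast_le.2 (Set.ncard_le_ncard ?_ (Set.toFinite _))
  intro s hs H
  exact hs fun Z hZ => pole_products W397.MF.pair W40.MF.span W216.MF.pole H hRH hY Z hZ

end Pool.Agent.K1H12.UN
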