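import Pool.Agent.K1H12.UN.Rel

/-!
# The relations are balanced
-/

set_option autoImplicit false

open Polynomial NumberField

namespace Pool.Agent.K1H12.UN

open Pool.Agent.W521.Frob Pool.Agent.W458.MF

section

variable {I : Type} [Fintype I] {K : I → Type} [∀ i, Field (K i)] [∀ i, NumberField (K i)]
  [∀ i, IsCMField (K i)] {L : Type} [Field L] [NumberField L] {q : I → ℕ}
  {P : ∀ i, (𝓞 (K i))[X]} {R : ℤ[X]}

/-- The independence in the field `L`. -/
def IndL (δ : ∀ i, 𝓞 (K i)) (R : ℤ[X]) (L : Type) [Field L] [NumberField L] : Prop :=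
  ∀ (e : ∀ i, (K i →+* L) → ℤ), ∀ ν ∈ Submonoid.closure {x : L | aeval x R = 0}, ∀ c : ℚ, 0 < c →
    (∏ i, ∏ σ : K i →+* L, (res σ (δ i)) ^ e i σ) * ν = (c : L) →
      ∀ i (σ : K i →+* L), e i σ = e i (bar σ)

lemma ind_sq (δ : ∀ i, 𝓞 (K i)) (hI : IndL δ R L) (hq : ∀ i, q i ≠ 0) (i : I) (σ : K i →+* L) :
    (res σ (δ i)) ^ 2 ≠ (q i : L) ^ 2 := by
  classical
  intro h
  have h1 := hI (fun i' τ => if h : i' = i then (if τ = h ▸ σ then 2 else 0) else 0) 1
    (one_mem _) ((q i : ℚ) ^ 2) (by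
      have := hq i
      positivity) ?_ i σ
  · simp only [dite_true, if_true] at h1
    rw [if_neg (bar_ne σ)] at h1
    norm_num at h1
  · rw [mul_one, Finset.prod_eq_single i, Finset.prod_eq_single σ]
    · simp only [dite_true, if_true]
      rw [zpow_ofNat, h]
      push_cast
      rfl
    · intro τ _ hτ
      simp only [dite_true]
      rw [if_neg hτ, zpow_zero]
    · intro h
      exact absurd (Finset.mem_univ _) h
    · intro i' _ hi'
      refine Finset.prod_eq_one fun τ _ => ?_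
      rw [dif_neg hi', zpow_zero]
    · intro h
      exact absurd (Finset.mem_univ _) h

/-- The product of the roots. -/
lemma prod_roots (hD : Dat q P L) (δ : ∀ i, 𝓞 (K i))
    (hdet : ∀ i, (P i).coeff 0 = (-1) ^ (P i).natDegree * δ i) (i : I) (σ : K i →+* L) :
    ((P i).map (res σ)).roots.prod = res σ (δ i) := by
  have h1 := (hD.splits i σ).coeff_zero_eq_prod_roots_of_monic ((hD.monic i).map _)
  rw [coeff_map, hdet, (hD.monic i).natDegree_map, map_mul, map_pow, map_neg, map_one] at h1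
  exact (mul_left_cancel₀ (pow_ne_zero _ (neg_ne_zero.2 one_ne_zero)) h1).symm

theorem bal_core [DecidableEq I] [DecidableEq L] (hD : Dat q P L) (hS : AllSwp P R L)
    (δ : ∀ i, 𝓞 (K i)) (hdet : ∀ i, (P i).coeff 0 = (-1) ^ (P i).natDegree * δ i)
    (hsep : ∀ i (σ : K i →+* L), ((P i).map (res σ)).Separable)
    (hdj : ∀ (i : I) (σ τ : K i →+* L), σ ≠ τ → ∀ z, z ∈ Rt (P i) σ → z ∉ Rt (P i) τ)
    (hI : IndL δ R L)
    (l' : List (I × L)) (hl' : ∀ x ∈ l', ∃ σ : K x.1 →+* L, x.2 ∈ Rt (P x.1) σ) {t : ℕ}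
    (ht : 0 < t) {ν' : L} {c : ℕ} (hc : 0 < c)
    (hν' : ν' ∈ Submonoid.closure {x : L | aeval x R = 0})
    (hPe : (l'.map fun x => x.2).prod ^ t * ν' = (c : L)) (i : I) (σ : K i →+* L) {z : L}
    (hz : z ∈ Rt (P i) σ) : l'.count (i, z) = l'.count (i, (q i : L) / z) := by
  set v : I × L → ℤ := fun x => (l'.count x : ℤ) - l'.count (x.1, (q x.1 : L) / x.2) with hv
  have hconst : ∀ (i : I) (σ : K i →+* L) (z₁ z₂ : L), z₁ ∈ Rt (P i) σ → z₂ ∈ Rt (P i) σ →
      v (i, z₁) = v (i, z₂) := fun i σ z₁ z₂ h₁ h₂ =>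
    const_diff hD hS hdj l' hl' ht hc hν' hPe i σ h₁ h₂
  have hq0 : ∀ i, (q i : L) ≠ 0 := fun i => by exact_mod_cast hD.q_ne i
  -- the finite set of all roots
  let S : ∀ i, (K i →+* L) → Finset L := fun i σ => ((P i).map (res σ)).roots.toFinset
  have hmem : ∀ (i : I) (σ : K i →+* L) (z : L), z ∈ S i σ ↔ z ∈ Rt (P i) σ := by
    intro i σ z
    rw [Multiset.mem_toFinset, mem_roots ((hD.monic i).map _).ne_zero, IsRoot.def, eval_map]
    rfl
  let T : Finset (I × L) := Finset.univ.biUnion fun i =>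
    (Finset.univ : Finset (K i →+* L)).biUnion fun σ => (S i σ).image (Prod.mk i)
  have hTmem : ∀ x : I × L, x ∈ T ↔ ∃ σ : K x.1 →+* L, x.2 ∈ Rt (P x.1) σ := by
    rintro ⟨i, z⟩
    simp only [T, Finset.mem_biUnion, Finset.mem_univ, true_and, Finset.mem_image]
    constructor
    · rintro ⟨i', σ, w, hw, h⟩
      obtain ⟨rfl, rfl⟩ := Prod.mk.inj h
      exact ⟨σ, (hmem _ _ _).1 hw⟩
    · rintro ⟨σ, hσ⟩
      exact ⟨i, σ, z, (hmem _ _ _).2 hσ, rfl⟩
  have hTprod : ∀ f : I × L → L, ∏ x ∈ T, f x = ∏ i, ∏ σ : K i →+* L, ∏ z ∈ S i σ, f (i, z) := by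
    intro f
    rw [Finset.prod_biUnion]
    · refine Finset.prod_congr rfl fun i _ => ?_
      rw [Finset.prod_biUnion]
      · refine Finset.prod_congr rfl fun σ _ => ?_
        rw [Finset.prod_image]
        intro a _ b _ h
        exact (Prod.mk.inj h).2
      · intro σ _ τ _ hne
        rw [Function.onFun, Finset.disjoint_left]
        intro x hx hx'
        obtain ⟨a, ha, rfl⟩ := Finset.mem_image.1 hx
        obtain ⟨b, hb, hab⟩ := Finset.mem_image.1 hx'
        obtain ⟨-, rfl⟩ := Prod.mk.inj hab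
        exact hdj i σ τ hne _ ((hmem _ _ _).1 ha) ((hmem _ _ _).1 hb)
    · intro i _ i' _ hne
      rw [Function.onFun, Finset.disjoint_left]
      intro x hx hx'
      simp only [Finset.mem_biUnion, Finset.mem_univ, true_and, Finset.mem_image] at hx hx'
      obtain ⟨_, _, _, rfl⟩ := hx
      obtain ⟨_, _, _, h⟩ := hx'
      exact hne (Prod.mk.inj h).1.symm
  -- the product of the list
  have hP : (l'.map fun x => x.2).prod = ∏ x ∈ T, x.2 ^ l'.count x := by
    have h1 : (l'.map fun x => x.2).prod = ∏ x ∈ l'.toFinset, x.2 ^ l'.count x := by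
      rw [Finset.prod_list_map_count]
      refine Finset.prod_congr rfl fun x _ => ?_
      have e : (instBEqProd : BEq (I × L)) = instBEqOfDecidableEq := lawful_beq_subsingleton _ _
      rw [e]
    rw [h1]
    refine Finset.prod_subset (f := fun x : I × L => x.2 ^ l'.count x) ?_ ?_
    · intro x hx
      exact (hTmem x).2 (hl' x (List.mem_toFinset.1 hx))
    · intro x _ hx
      rw [List.mem_toFinset] at hx
      rw [List.count_eq_zero.2 hx, pow_zero]
  have hbar : ∀ x ∈ T, (x.1, (q x.1 : L) / x.2) ∈ T := by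
    intro x hx
    obtain ⟨σ, hσ⟩ := (hTmem x).1 hx
    exact (hTmem _).2 ⟨bar σ, hD.dual _ _ _ hσ⟩
  have hP' : (l'.map fun x => x.2).prod =
      ∏ x ∈ T, ((q x.1 : L) / x.2) ^ l'.count (x.1, (q x.1 : L) / x.2) := by
    rw [hP]
    refine Finset.prod_nbij' (fun x => (x.1, (q x.1 : L) / x.2))
      (fun x => (x.1, (q x.1 : L) / x.2)) hbar hbar ?_ ?_ ?_
    · rintro ⟨i, x⟩ _
      simp only [div_div_cancel₀ (hq0 i)]
    · rintro ⟨i, x⟩ _
      simp only [div_div_cancel₀ (hq0 i)]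
    · rintro ⟨i, x⟩ _
      simp only [div_div_cancel₀ (hq0 i)]
  set Q : ℕ := ∏ x ∈ T, (q x.1) ^ l'.count (x.1, (q x.1 : L) / x.2) with hQ
  have hQ0 : 0 < Q := Finset.prod_pos fun (x : I × L) _ =>
    pow_pos (Nat.pos_of_ne_zero (hD.q_ne x.1)) _
  have hsq : (l'.map fun x => x.2).prod ^ 2 = (∏ x ∈ T, x.2 ^ v x) * (Q : L) := by
    have h1 : (l'.map fun x => x.2).prod ^ 2 = (∏ x ∈ T, x.2 ^ l'.count x) *
        ∏ x ∈ T, ((q x.1 : L) / x.2) ^ l'.count (x.1, (q x.1 : L) / x.2) := by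
      rw [← hP, ← hP', sq]
    rw [h1, hQ, Nat.cast_prod, ← Finset.prod_mul_distrib, ← Finset.prod_mul_distrib]
    refine Finset.prod_congr rfl fun x hx => ?_
    obtain ⟨σ, hσ⟩ := (hTmem x).1 hx
    have hx0 := hD.ne _ _ _ hσ
    rw [hv]
    dsimp only
    rw [zpow_sub₀ hx0, zpow_natCast, zpow_natCast, div_pow, Nat.cast_pow]
    field_simp
  -- the exponents
  have hne : ∀ (i : I) (σ : K i →+* L), ∃ z, z ∈ Rt (P i) σ := fun i σ => by
    obtain ⟨⟨z, hz, -⟩, -⟩ := hS i σ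
    exact ⟨z, hz⟩
  choose zc hzc using hne
  set e : ∀ i, (K i →+* L) → ℤ := fun i σ => v (i, zc i σ) with he
  have hTe : ∏ x ∈ T, x.2 ^ v x = ∏ i, ∏ σ : K i →+* L, (res σ (δ i)) ^ e i σ := by
    rw [hTprod]
    refine Finset.prod_congr rfl fun i _ => Finset.prod_congr rfl fun σ _ => ?_
    have h1 : ∀ z ∈ S i σ, z ^ v (i, z) = z ^ e i σ := by
      intro z hz
      rw [he]
      dsimp only
      rw [hconst i σ z (zc i σ) ((hmem _ _ _).1 hz) (hzc i σ)]
    rw [Finset.prod_congr rfl h1, Finset.prod_zpow, ← prod_roots hD δ hdet i σ]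
    congr 1
    have h2 : ((P i).map (res σ)).roots.toFinset.val = ((P i).map (res σ)).roots := by
      rw [Multiset.toFinset_val, Multiset.dedup_eq_self]
      exact nodup_roots (hsep i σ)
    rw [Finset.prod_eq_multiset_prod]
    change (Multiset.map (fun x => x) ((P i).map (res σ)).roots.toFinset.val).prod = _
    rw [h2, Multiset.map_id']
  have hrel : (∏ i, ∏ σ : K i →+* L, (res σ (δ i)) ^ (e i σ * (t : ℤ))) * ν' ^ 2 =
      (((c : ℚ) ^ 2 / (Q : ℚ) ^ t : ℚ) : L) := by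
    have h1 : (∏ i, ∏ σ : K i →+* L, (res σ (δ i)) ^ (e i σ * (t : ℤ))) =
        (∏ x ∈ T, x.2 ^ v x) ^ t := by
      rw [hTe, ← Finset.prod_pow]
      refine Finset.prod_congr rfl fun i _ => ?_
      rw [← Finset.prod_pow]
      refine Finset.prod_congr rfl fun σ _ => ?_
      rw [zpow_mul, zpow_natCast]
    have hQL : (Q : L) ≠ 0 := by exact_mod_cast hQ0.ne'
    rw [h1]
    push_cast
    rw [eq_div_iff (pow_ne_zero _ hQL), ← hPe, mul_pow, ← pow_mul, mul_comm t 2, pow_mul, hsq]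
    ring
  have hfin := hI (fun i σ => e i σ * (t : ℤ)) (ν' ^ 2) (Submonoid.pow_mem _ hν' 2)
    ((c : ℚ) ^ 2 / (Q : ℚ) ^ t) (by positivity) hrel i σ
  have ht' : (t : ℤ) ≠ 0 := by exact_mod_cast ht.ne'
  have h1 : e i σ = e i (bar σ) := mul_right_cancel₀ ht' hfin
  have h2 : v (i, z) = e i σ := hconst i σ _ _ hz (hzc i σ)
  have h3 : v (i, (q i : L) / z) = e i (bar σ) :=
    hconst i (bar σ) _ _ (hD.dual i σ z hz) (hzc i (bar σ))
  have h4 : v (i, (q i : L) / z) = - v (i, z) := by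
    rw [hv]
    dsimp only
    rw [div_div_cancel₀ (hq0 i)]
    ring
  have h5 : v (i, z) = 0 := by
    rw [h3, ← h1, ← h2] at h4
    omega
  rw [hv] at h5
  dsimp only at h5
  omega

end

end Pool.Agent.K1H12.UN
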