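import Pool.Agent.K1H12.UN.Pat
import Pool.Agent.W521.Density

/-!
# Counting polynomials with given factorisation pattern and constant term
-/

set_option autoImplicit false

open Polynomial

namespace Pool.Agent.K1H12.UN

open Pool.Agent.W521.Density

/-- There are many polynomials of degree `r` in `A` with the constant term of the
characteristic polynomials of matrices with determinant `x`. -/
def Lots (c : ℝ) (l r : ℕ) (x : ZMod l) (A : Set (ZMod l)[X]) : Prop :=
  ∃ T : Finset (ZMod l)[X], (∀ f ∈ T, f ∈ A ∧ f.Monic ∧ f.natDegree = r ∧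
    f.coeff 0 = (-1) ^ r * x) ∧ c * (l : ℝ) ^ (r - 1) ≤ T.card

lemma lots_mono {c c' : ℝ} {l r : ℕ} {x : ZMod l} {A : Set (ZMod l)[X]} (h : Lots c l r x A)
    (hc : c' ≤ c) : Lots c' l r x A := by
  obtain ⟨T, h1, h2⟩ := h
  exact ⟨T, h1, (mul_le_mul_of_nonneg_right hc (by positivity)).trans h2⟩

section Quad

variable {l : ℕ} [Fact l.Prime]

lemma prod_monic (T : Finset (ZMod l)) : (∏ t ∈ T, (X - C t) : (ZMod l)[X]).Monic :=
  monic_prod_of_monic _ _ fun t _ => monic_X_sub_C t

lemma prod_natDegree (T : Finset (ZMod l)) : (∏ t ∈ T, (X - C t) : (ZMod l)[X]).natDegree =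
    T.card := by
  rw [natDegree_prod_of_monic _ _ fun t _ => monic_X_sub_C t]
  simp

lemma prod_coeff_zero (T : Finset (ZMod l)) : (∏ t ∈ T, (X - C t) : (ZMod l)[X]).coeff 0 =
    (-1) ^ T.card * ∏ t ∈ T, t := by
  rw [coeff_zero_eq_eval_zero, eval_prod]
  simp only [eval_sub, eval_X, eval_C, zero_sub]
  rw [Finset.prod_neg]

lemma quad_lots (r : ℕ) (hr : 2 ≤ r) (hl : 2 * r ≤ l) (x : ZMod l) (hx : x ≠ 0)
    (A : Set (ZMod l)[X]) (G : Finset (ZMod l) → ZMod l → Finset (ZMod l))
    (hG : ∀ T : Finset (ZMod l), T.card = r - 2 → ∀ b, b ≠ 0 → l ≤ 4 * (G T b).card)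
    (hA : ∀ T : Finset (ZMod l), T.card = r - 2 → ∀ b, b ≠ 0 → ∀ a ∈ G T b,
      quad a b * ∏ t ∈ T, (X - C t) ∈ A) :
    Lots (1 / (4 * 2 ^ r * (2 ^ (r - 2) * (r - 2).factorial))) l r x A := by
  classical
  set S : Finset (ZMod l) := Finset.univ.erase 0 with hS
  have hScard : S.card = l - 1 := by
    rw [hS, Finset.card_erase_of_mem (Finset.mem_univ _), Finset.card_univ, ZMod.card]
  let bb : Finset (ZMod l) → ZMod l := fun T => x / ∏ t ∈ T, t
  let P : Finset (Σ _ : Finset (ZMod l), ZMod l) :=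
    (S.powersetCard (r - 2)).sigma (fun T => G T (bb T))
  let F : (Σ _ : Finset (ZMod l), ZMod l) → (ZMod l)[X] := fun y =>
    quad y.2 (bb y.1) * ∏ t ∈ y.1, (X - C t)
  have hprod : ∀ T ∈ S.powersetCard (r - 2), T.card = r - 2 ∧ ∏ t ∈ T, t ≠ 0 := by
    intro T hT
    obtain ⟨h1, h2⟩ := Finset.mem_powersetCard.1 hT
    refine ⟨h2, Finset.prod_ne_zero_iff.2 fun t ht => ?_⟩
    exact (Finset.mem_erase.1 (h1 ht)).1
  have hb : ∀ T ∈ S.powersetCard (r - 2), bb T ≠ 0 := fun T hT =>
    div_ne_zero hx (hprod T hT).2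
  refine ⟨P.image F, ?_, ?_⟩
  · intro f hf
    obtain ⟨⟨T, a⟩, hy, rfl⟩ := Finset.mem_image.1 hf
    obtain ⟨h1, h2⟩ := Finset.mem_sigma.1 hy
    obtain ⟨h3, h4⟩ := hprod T h1
    refine ⟨hA T h3 _ (hb T h1) a h2, (quad_monic _ _).mul (prod_monic T), ?_, ?_⟩
    · change (quad _ _ * _).natDegree = r
      rw [(quad_monic _ _).natDegree_mul (prod_monic T), quad_natDegree, prod_natDegree]
      omega
    · change (quad _ _ * _).coeff 0 = _
      rw [mul_coeff_zero, prod_coeff_zero]
      change (quad a (bb T)).coeff 0 * ((-1) ^ T.card * ∏ t ∈ T, t) = _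
      rw [h3, coeff_zero_eq_eval_zero, quad_eval]
      have e : (-1 : ZMod l) ^ r = (-1) ^ (r - 2) := by
        conv_lhs => rw [show r = (r - 2) + 2 by omega, pow_add]
        simp
      rw [e]
      have e2 : bb T * ∏ t ∈ T, t = x := div_mul_cancel₀ x h4
      linear_combination (-1 : ZMod l) ^ (r - 2) * e2
  · have h1 : P.card ≤ 2 ^ r * (P.image F).card := by
      refine Finset.card_le_mul_card_image P (2 ^ r) ?_
      intro f hf
      obtain ⟨⟨T₀, a₀⟩, hy₀, rfl⟩ := Finset.mem_image.1 hf
      obtain ⟨h01, h02⟩ := Finset.mem_sigma.1 hy₀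
      have hm : (F ⟨T₀, a₀⟩).Monic := (quad_monic _ _).mul (prod_monic T₀)
      have hd : (F ⟨T₀, a₀⟩).natDegree = r := by
        change (quad _ _ * _).natDegree = r
        rw [(quad_monic _ _).natDegree_mul (prod_monic T₀), quad_natDegree, prod_natDegree]
        have := (hprod T₀ h01).1
        omega
      set f := F ⟨T₀, a₀⟩
      have h2 : (P.filter fun y => F y = f).card ≤ (f.roots.toFinset.powerset).card := by
        refine Finset.card_le_card_of_injOn (fun y => y.1) ?_ ?_
        · intro y hy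
          obtain ⟨hy1, hy2⟩ := Finset.mem_filter.1 (Finset.mem_coe.1 hy)
          rw [Finset.mem_coe, Finset.mem_powerset]
          intro t ht
          rw [Multiset.mem_toFinset, mem_roots hm.ne_zero, ← hy2, IsRoot.def]
          change (quad _ _ * ∏ t ∈ y.1, (X - C t)).eval t = 0
          rw [eval_mul, eval_prod, Finset.prod_eq_zero ht (by simp), mul_zero]
        · rintro ⟨T, a⟩ hy ⟨T', a'⟩ hy' h
          obtain ⟨hy1, hy2⟩ := Finset.mem_filter.1 (Finset.mem_coe.1 hy)
          obtain ⟨hy1', hy2'⟩ := Finset.mem_filter.1 (Finset.mem_coe.1 hy')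
          have e : T = T' := h
          subst e
          have h3 : quad a (bb T) * ∏ t ∈ T, (X - C t) =
              quad a' (bb T) * ∏ t ∈ T, (X - C t) := hy2.trans hy2'.symm
          have h4 := mul_right_cancel₀ (prod_monic T).ne_zero h3
          have h5 : a = a' := by
            have h6 := congrArg (fun g : (ZMod l)[X] => g.eval 1) h4
            simp only [quad_eval] at h6
            linear_combination -h6
          rw [h5]
      refine h2.trans ?_
      rw [Finset.card_powerset]
      refine Nat.pow_le_pow_right two_pos ?_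
      exact (Multiset.toFinset_card_le _).trans ((card_roots' _).trans hd.le)
    have h2 : (S.powersetCard (r - 2)).card * l ≤ 4 * P.card := by
      rw [Finset.card_sigma, Finset.mul_sum, ← smul_eq_mul, ← Finset.sum_const]
      refine Finset.sum_le_sum fun T hT => ?_
      exact hG T (hprod T hT).1 _ (hb T hT)
    rw [Finset.card_powersetCard, hScard] at h2
    have h3 : ((((l - 1) + 1 - (r - 2) : ℕ) : ℝ) ^ (r - 2)) / ((r - 2).factorial : ℝ) ≤
        ((l - 1).choose (r - 2) : ℝ) := Nat.pow_le_choose (r - 2) (l - 1)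
    have h4 : (l : ℝ) / 2 ≤ (((l - 1) + 1 - (r - 2) : ℕ) : ℝ) := by
      rw [div_le_iff₀ two_pos]
      have : l ≤ ((l - 1) + 1 - (r - 2)) * 2 := by omega
      exact_mod_cast this
    have h5 : ((l : ℝ) / 2) ^ (r - 2) ≤ ((r - 2).factorial : ℝ) * ((l - 1).choose (r - 2) : ℝ) := by
      rw [div_le_iff₀ (by positivity)] at h3
      refine (pow_le_pow_left₀ (by positivity) h4 _).trans (h3.trans ?_)
      rw [mul_comm]
    have h6 : (((l - 1).choose (r - 2) : ℕ) : ℝ) * l ≤ 4 * (2 ^ r * ((P.image F).card : ℝ)) := by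
      have h7 : (l - 1).choose (r - 2) * l ≤ 4 * (2 ^ r * (P.image F).card) :=
        h2.trans (Nat.mul_le_mul_left 4 h1)
      exact_mod_cast h7
    have hpow : (l : ℝ) ^ (r - 1) = (l : ℝ) ^ (r - 2) * l := by
      rw [← pow_succ]
      congr 1
      omega
    rw [hpow, div_mul_eq_mul_div, one_mul, div_le_iff₀ (by positivity)]
    rw [div_pow, div_le_iff₀ (by positivity)] at h5
    have hf0 : (0 : ℝ) < ((r - 2).factorial : ℝ) := by exact_mod_cast Nat.factorial_pos _
    calc (l : ℝ) ^ (r - 2) * l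
        ≤ (((r - 2).factorial : ℝ) * ((l - 1).choose (r - 2) : ℝ) * 2 ^ (r - 2)) * l :=
          mul_le_mul_of_nonneg_right h5 (Nat.cast_nonneg _)
      _ = (((r - 2).factorial : ℝ) * 2 ^ (r - 2)) * (((l - 1).choose (r - 2) : ℝ) * l) := by ring
      _ ≤ (((r - 2).factorial : ℝ) * 2 ^ (r - 2)) * (4 * (2 ^ r * ((P.image F).card : ℝ))) :=
          mul_le_mul_of_nonneg_left h6 (by positivity)
      _ = _ := by ring

/-- Quadratic polynomials with nonsquare discriminant are irreducible. -/
lemma quad_irr (hl : 3 ≤ l) {a b : ZMod l} (h : ¬ IsSquare (a ^ 2 - 4 * b)) :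
    Irreducible (quad a b) := by
  have h2 := two_ne l hl
  rw [(quad_monic a b).irreducible_iff_roots_eq_zero_of_degree_le_three
    (by rw [quad_natDegree]) (by rw [quad_natDegree]; norm_num)]
  rw [Multiset.eq_zero_iff_forall_notMem]
  intro t ht
  rw [mem_roots (quad_monic a b).ne_zero, IsRoot.def, quad_eval] at ht
  apply h
  refine ⟨2 * t - a, ?_⟩
  linear_combination -4 * ht

lemma exists_nat (b : ZMod l) (hb : b ≠ 0) : ∃ q : ℕ, (q : ZMod l) = b ∧ ¬ l ∣ q := by
  refine ⟨b.val, ZMod.natCast_zmod_val b, fun h => hb ?_⟩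
  rw [← ZMod.natCast_zmod_val b]
  exact (ZMod.natCast_eq_zero_iff _ _).2 h

lemma swap_lots (N r : ℕ) (hr : 2 ≤ r) (hN : 0 < N) (hl : 2 * r ≤ l) (hl' : 8 * N + 8 ≤ l)
    (x : ZMod l) (hx : x ≠ 0) :
    Lots (1 / (4 * 2 ^ r * (2 ^ (r - 2) * (r - 2).factorial))) l r x {f | IsSwap N f} := by
  classical
  refine quad_lots r hr hl x hx _ (fun _ b => Finset.univ.filter fun a =>
    ¬ IsSquare (a ^ 2 - 4 * b) ∧ ¬ quad a b ∣ X ^ (2 * N) - C (b ^ N)) ?_ ?_
  · intro T _ b hb
    obtain ⟨q, rfl, hq⟩ := exists_nat b hb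
    have h1 := card_NN l q (by omega) hq
    let k := AlgebraicClosure (ZMod l)
    have hroot : ∀ a : ZMod l, ∃ z : k, z ^ 2 - algebraMap (ZMod l) k a * z +
        algebraMap (ZMod l) k q = 0 := by
      intro a
      obtain ⟨z, hz⟩ := IsAlgClosed.exists_eval₂_eq_zero (algebraMap (ZMod l) k)
        (quad a (q : ZMod l)) (by
          rw [degree_eq_natDegree (quad_monic _ _).ne_zero, quad_natDegree]
          norm_num)
      refine ⟨z, ?_⟩
      rw [eval₂_eq_eval_map, quad_map, quad_eval] at hz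
      exact hz
    choose ζ hζ using hroot
    have hb' : (algebraMap (ZMod l) k q) ≠ 0 := by
      rw [Ne, map_eq_zero]
      exact hb
    have hz0 : ∀ a, ζ a ≠ 0 := by
      intro a h0
      have := hζ a
      rw [h0] at this
      apply hb'
      linear_combination this
    have h2 : ((NN l q).filter fun a => quad a (q : ZMod l) ∣ X ^ (2 * N) - C ((q : ZMod l) ^ N)).card ≤
        2 * N := by
      have h3 : (X ^ (2 * N) - C ((algebraMap (ZMod l) k q) ^ N) : k[X]) ≠ 0 :=
        X_pow_sub_C_ne_zero (by omega) _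
      refine le_trans (Finset.card_le_card_of_injOn (t := (X ^ (2 * N) -
        C ((algebraMap (ZMod l) k q) ^ N) : k[X]).roots.toFinset) ζ ?_ ?_) ?_
      · intro a ha
        have h4 := (Finset.mem_filter.1 (Finset.mem_coe.1 ha)).2
        rw [Finset.mem_coe, Multiset.mem_toFinset, mem_roots h3, IsRoot.def]
        obtain ⟨g, hg⟩ := h4
        have h5 := congrArg (fun f : (ZMod l)[X] => (f.map (algebraMap (ZMod l) k)).eval (ζ a)) hg
        simp only [Polynomial.map_sub, Polynomial.map_pow, map_X, map_C, map_pow,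
          Polynomial.map_mul, eval_mul, quad_map, quad_eval] at h5
        rw [hζ a, zero_mul] at h5
        simpa using h5
      · intro a _ a' _ h
        have h5 := hζ a
        have h6 := hζ a'
        rw [← h] at h6
        have h7 : (algebraMap (ZMod l) k a - algebraMap (ZMod l) k a') * ζ a = 0 := by
          linear_combination h6 - h5
        rcases mul_eq_zero.1 h7 with h8 | h8
        · exact (algebraMap (ZMod l) k).injective (sub_eq_zero.1 h8)
        · exact absurd h8 (hz0 a)
      · refine (Multiset.toFinset_card_le _).trans ((card_roots' _).trans ?_)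
        rw [natDegree_X_pow_sub_C]
    have h3 := Finset.card_filter_add_card_filter_not (s := NN l q)
      (fun a => quad a (q : ZMod l) ∣ X ^ (2 * N) - C ((q : ZMod l) ^ N))
    have h4 : ((NN l q).filter fun a => ¬ quad a (q : ZMod l) ∣
        X ^ (2 * N) - C ((q : ZMod l) ^ N)).card ≤ (Finset.univ.filter fun a : ZMod l =>
        ¬ IsSquare (a ^ 2 - 4 * (q : ZMod l)) ∧ ¬ quad a (q : ZMod l) ∣
          X ^ (2 * N) - C ((q : ZMod l) ^ N)).card := by
      refine Finset.card_le_card fun a ha => ?_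
      obtain ⟨h5, h6⟩ := Finset.mem_filter.1 ha
      exact Finset.mem_filter.2 ⟨Finset.mem_univ _, (mem_NN l q a).1 h5, h6⟩
    omega
  · intro T _ b _ a ha
    obtain ⟨-, h1, h2⟩ := Finset.mem_filter.1 ha
    exact ⟨a, b, T, quad_irr (by omega) h1, h2, rfl⟩

lemma split_lots (r : ℕ) (hr : 2 ≤ r) (hl : 4 * r + 8 ≤ l) (x : ZMod l) (hx : x ≠ 0) :
    Lots (1 / (4 * 2 ^ r * (2 ^ (r - 2) * (r - 2).factorial))) l r x {f | IsSplit f} := by
  classical
  refine quad_lots r hr (by omega) x hx _ (fun T b => (Finset.univ.filter fun a =>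
    IsSquare (a ^ 2 - 4 * b) ∧ a ^ 2 - 4 * b ≠ 0) \ T.image (fun t => t + b / t)) ?_ ?_
  · intro T hT b hb
    obtain ⟨q, rfl, hq⟩ := exists_nat b hb
    have h1 := (card_SS l q (by omega) hq).1
    have h2 : SS l q = Finset.univ.filter fun a : ZMod l => IsSquare (a ^ 2 - 4 * (q : ZMod l)) ∧
        a ^ 2 - 4 * (q : ZMod l) ≠ 0 := by
      ext a
      rw [mem_SS]
      simp
    rw [← h2]
    have h3 := Finset.le_card_sdiff (T.image fun t => t + (q : ZMod l) / t) (SS l q)
    have h4 : (T.image fun t => t + (q : ZMod l) / t).card ≤ T.card := Finset.card_image_le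
    omega
  · intro T hT b hb a ha
    obtain ⟨h1, h2⟩ := Finset.mem_sdiff.1 ha
    obtain ⟨-, ⟨s, hs⟩, hne⟩ := Finset.mem_filter.1 h1
    have h2' := two_ne l (by omega)
    set u : ZMod l := (a + s) / 2 with hu
    set v : ZMod l := (a - s) / 2 with hv
    have e1 : u + v = a := by
      rw [hu, hv]
      field_simp
      ring
    have e2 : u * v = b := by
      have h4 : (4 : ZMod l) ≠ 0 := by
        have : (4 : ZMod l) = 2 * 2 := by norm_num
        rw [this]
        exact mul_ne_zero h2' h2'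
      have h5 : 4 * (u * v) = 4 * b := by
        have h6 : 2 * u = a + s := by
          rw [hu]
          field_simp
        have h7 : 2 * v = a - s := by
          rw [hv]
          field_simp
        linear_combination 2 * v * h6 + (a + s) * h7 + hs
      exact mul_left_cancel₀ h4 h5
    have huv : u ≠ v := by
      intro h
      apply hne
      have h6 : 2 * u = a + s := by
        rw [hu]
        field_simp
      have h7 : 2 * v = a - s := by
        rw [hv]
        field_simp
      have h8 : 2 * s = 0 := by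
        rw [h] at h6
        linear_combination h7 - h6
      rcases mul_eq_zero.1 h8 with h9 | h9
      · exact absurd h9 h2'
      · rw [hs, h9, mul_zero]
    have hu0 : u ≠ 0 := fun h => hb (by rw [← e2, h, zero_mul])
    have hv0 : v ≠ 0 := fun h => hb (by rw [← e2, h, mul_zero])
    have huT : u ∉ T := by
      intro h
      apply h2
      refine Finset.mem_image.2 ⟨u, h, ?_⟩
      rw [← e2, mul_div_cancel_left₀ _ hu0, e1]
    have hvT : v ∉ T := by
      intro h
      apply h2
      refine Finset.mem_image.2 ⟨v, h, ?_⟩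
      rw [← e2, mul_div_cancel_right₀ _ hv0, add_comm, e1]
    refine ⟨insert u (insert v T), ?_⟩
    rw [Finset.prod_insert (by
      rw [Finset.mem_insert]
      push Not
      exact ⟨huv, huT⟩), Finset.prod_insert hvT, ← mul_assoc]
    congr 1
    rw [quad, ← e1, ← e2, C_add, C_mul]
    ring

lemma irr2_lots (hl : 8 ≤ l) (x : ZMod l) (hx : x ≠ 0) :
    Lots (1 / 4) l 2 x {f | Irreducible f} := by
  classical
  obtain ⟨q, rfl, hq⟩ := exists_nat x hx
  have h1 := card_NN l q (by omega) hq
  refine ⟨(NN l q).image fun a => quad a (q : ZMod l), ?_, ?_⟩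
  · intro f hf
    obtain ⟨a, ha, rfl⟩ := Finset.mem_image.1 hf
    refine ⟨quad_irr (by omega) ((mem_NN l q a).1 ha), quad_monic _ _, quad_natDegree _ _, ?_⟩
    rw [coeff_zero_eq_eval_zero, quad_eval]
    ring
  · rw [Finset.card_image_of_injective]
    · have h2 : l ≤ 4 * (NN l q).card := by omega
      have h3 : (l : ℝ) ≤ 4 * ((NN l q).card : ℝ) := by exact_mod_cast h2
      norm_num
      linarith
    · intro a a' h
      have h6 := congrArg (fun g : (ZMod l)[X] => g.eval 1) h
      simp only [quad_eval] at h6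
      linear_combination -h6

end Quad

end Pool.Agent.K1H12.UN
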