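import Pool.Agent.W458.MF.ExDefs
import Mathlib.NumberTheory.NumberField.CMField

/-!
# Families of varieties with unitary monodromy: definitions
-/

open CategoryTheory AlgebraicGeometry Polynomial NumberField

universe u v

namespace Pool.Agent.K1H12.UN

open Pool.Agent.H914 Pool.Agent.W534 Pool.Agent.W521.Frob VarClass Obj WeilCohomology
  Pool.Agent.W458.MF

section Law

variable (K : Type) [Field K] [NumberField K]

/-- The prime number `l` splits completely in the number field `K`: the integers `x` of `K`
satisfy `x ^ l = x` modulo `l`. -/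
def SplitsIn (l : ℕ) : Prop :=
  ∀ x : 𝓞 K, (l : 𝓞 K) ∣ x ^ l - x

/-- The restriction of an embedding of `K` to the ring of integers. -/
noncomputable def res {K : Type} [Field K] {A : Type*} [Semiring A] (σ : K →+* A) : 𝓞 K →+* A :=
  σ.comp (algebraMap (𝓞 K) K)

variable [IsCMField K]

/-- The complex conjugation of the ring of integers of the CM field `K`. -/
noncomputable def cj : 𝓞 K →+* 𝓞 K :=
  ((IsCMField.ringOfIntegersComplexConj K).toRingEquiv : 𝓞 K →+* 𝓞 K)

/-- The unitary similitudes of rank `r` modulo `l` with multiplier `q` and with a determinant in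
the set `Δ`: the families of matrices `B φ` over the field with `l` elements, indexed by the
homomorphisms `φ` from the ring of integers of `K` to this field (if `l` splits completely in `K`
this is a matrix with coefficients in the ring of integers modulo `l`), such that the product of
`B φ` and of the transpose of `B φ'`, `φ'` the composition of `φ` with the complex conjugation,
is the scalar `q`, and such that the determinants are the `φ δ` for some `δ` in `Δ`. -/
def similitudes (r l : ℕ) (q : ZMod l) (Δ : Set (𝓞 K)) :
    Set ((𝓞 K →+* ZMod l) → Matrix (Fin r) (Fin r) (ZMod l)) :=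
  {B | (∀ φ, B φ * (B (φ.comp (cj K))).transpose = Matrix.scalar (Fin r) q) ∧
    ∃ δ ∈ Δ, ∀ φ, (B φ).det = φ δ}

/-- The proportion, among the unitary similitudes `B` of rank `r` modulo `l` with multiplier `q`
and with a determinant in `Δ`, of those for which the family of the characteristic polynomials of
the matrices `B φ` is in the set `E`. -/
noncomputable def law (r l : ℕ) (q : ZMod l) (Δ : Set (𝓞 K))
    (E : Set ((𝓞 K →+* ZMod l) → (ZMod l)[X])) : ℝ :=
  ({B | B ∈ similitudes K r l q Δ ∧ (fun φ => (B φ).charpoly) ∈ E}.ncard : ℝ) /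
    ((similitudes K r l q Δ).ncard : ℝ)

variable {K}

/-- The proportion of the `s` for which the families of the reductions of the polynomial `P s`
modulo `l` and modulo `l'` are in `E` and in `E'`. -/
noncomputable def frequency {S : Type} (P : S → (𝓞 K)[X]) (l l' : ℕ)
    (E : Set ((𝓞 K →+* ZMod l) → (ZMod l)[X]))
    (E' : Set ((𝓞 K →+* ZMod l') → (ZMod l')[X])) : ℝ :=
  ({s | (fun φ => (P s).map φ) ∈ E ∧ (fun φ => (P s).map φ) ∈ E'}.ncard : ℝ) /
    (Nat.card S : ℝ)

end Law

/-- The numbers `δ i` of the number fields `K i` are multiplicatively independent of each other, of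
the rational numbers and of the numbers in `A`, in the following sense: if the product of integral
powers of their conjugates and of a product of elements of `A` is a positive rational number, then
complex conjugate factors have the same exponents. -/
def Independent {I : Type} [Fintype I] (K : I → Type) [∀ i, Field (K i)]
    [∀ i, NumberField (K i)] (δ : ∀ i, 𝓞 (K i)) (A : Set ℂ) : Prop :=
  ∀ (e : ∀ i, (K i →+* ℂ) → ℤ), ∀ ν ∈ Submonoid.closure A, ∀ c : ℚ, 0 < c →
    (∏ i, ∏ σ : K i →+* ℂ, (res σ (δ i)) ^ e i σ) * ν = (c : ℂ) →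
      ∀ i σ, e i σ = e i (ComplexEmbedding.conjugate σ)

/-- The complex conjugates of the eigenvalues of the Frobenius endomorphism on the cohomology of
`Y`. -/
def frobConjugates {k : Type u} [Field k] {𝒱 : VarClass k} {ops : CycleOps 𝒱}
    {W : WeilCohomology.{u, v} ops} {p : ℕ} (Φ : FrobSystem W p) (Y : 𝒱.Obj) : Set ℂ :=
  {z | ∃ μ : W.K, Module.End.HasEigenvalue (W.map (Φ.Fr Y)).toLinearMap μ ∧
    aeval z (minpoly ℤ μ) = 0}

/-- The family `F` of varieties of dimension `d` over `Y` has large unitary monodromy of rank `r`
for the CM field `K`, with determinants `Δ`.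

The members of the family are as in `Piece.IsOver`: the cohomology of the member is the sum of the
pull-back of the cohomology of `Y` and of the subspace `sub` of the cohomology of degree `d`. The
characteristic polynomial of Frobenius on `sub` is the norm of the polynomial `P m s` of degree
`r ≥ 2` with coefficients in the ring of integers of `K` (the field `K` acts on `sub` and
`P m s` is the characteristic polynomial of Frobenius on the eigenspace of an embedding of `K`).
The eigenvalues have the absolute value `p ^ (d m / 2)`, the determinant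
`(-1) ^ r * (P m s).coeff 0` is in `Δ m`, and for all large primes `l ≠ l'` that split completely
in `K` and for every determinant `δ` in `Δ m` which occurs, the Frobenius endomorphisms modulo `l`
and modulo `l'` of the members with determinant `δ` over the field with `p ^ m` elements are
asymptotically, as `m` tends to infinity, independent and equidistributed in the sets of the unitary
similitudes with multiplier `p ^ (d m)` and with determinant `δ`, as far as their characteristic
polynomials are concerned. -/
structure HasUnitaryMonodromy {k : Type u} [Field k] {𝒱 : VarClass k} {ops : CycleOps 𝒱}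
    {W : WeilCohomology.{u, v} ops} {Y : 𝒱.Obj} (F : Family W Y) {p : ℕ} (Φ : FrobSystem W p)
    (K : Type) [Field K] [NumberField K] [IsCMField K] (d r l₀ : ℕ)
    (P : ∀ m, F.S m → (𝓞 K)[X]) (Δ : ℕ → Set (𝓞 K)) : Prop where
  isOver : ∀ m, 0 < m → ∀ s : F.S m, (F.member m s).IsOver Φ m
  dim : ∀ m (s : F.S m), (F.member m s).obj.dim = d
  rank : 2 ≤ r
  monic : ∀ m (s : F.S m), (P m s).Monic
  natDegree : ∀ m (s : F.S m), (P m s).natDegree = r
  norm : ∀ m (s : F.S m), (weil (p ^ (d * m)) (F.member m s).pol).map (Int.castRingHom ℂ) =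
    ∏ σ : K →+* ℂ, (P m s).map (res σ)
  rh : ∀ m (s : F.S m) (σ : K →+* ℂ) (z : ℂ), eval₂ (res σ) z (P m s) = 0 →
    ‖z‖ ^ 2 = (p : ℝ) ^ (d * m)
  det : ∀ m (s : F.S m), (-1) ^ r * (P m s).coeff 0 ∈ Δ m
  norm_det : ∀ m, ∀ δ ∈ Δ m, δ * cj K δ = (p : 𝓞 K) ^ (d * m * r)
  equidistributed : ∀ l l' : ℕ, l.Prime → l'.Prime → l₀ ≤ l → l₀ ≤ l' → l ≠ l' →
    SplitsIn K l → SplitsIn K l' → ∀ ε : ℝ, 0 < ε → ∃ m₀ : ℕ, ∀ m ≥ m₀, ∀ δ ∈ Δ m,
      Nonempty {s : F.S m // (-1) ^ r * (P m s).coeff 0 = δ} →
      ∀ (E : Set ((𝓞 K →+* ZMod l) → (ZMod l)[X])) (E' : Set ((𝓞 K →+* ZMod l') → (ZMod l')[X])),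
        |frequency (fun s : {s : F.S m // (-1) ^ r * (P m s).coeff 0 = δ} => P m s) l l' E E' -
          law K r l (p ^ (d * m) : ℕ) {δ} E * law K r l' (p ^ (d * m) : ℕ) {δ} E'| ≤ ε

end Pool.Agent.K1H12.UN
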