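import Pool.Agent.K1H12.UN.Nrm

/-!
# The multiplicative relations without the independence of the determinants
-/

set_option autoImplicit false

open Polynomial NumberField

namespace Pool.Agent.K1H12.UN

open Pool.Agent.W521.Frob Pool.Agent.W458.MF

section

variable {I : Type} {K : I → Type} [∀ i, Field (K i)] [∀ i, NumberField (K i)]
  [∀ i, IsCMField (K i)] {L : Type} [Field L] [NumberField L] {q : I → ℕ}
  {P : ∀ i, (𝓞 (K i))[X]} {R : ℤ[X]}

/-- The roots for different embeddings are different. -/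
lemma disj2 (hD : Dat q P L) (hS : AllSwp P R L) (δ : ∀ i, 𝓞 (K i))
    (hdet : ∀ i, (P i).coeff 0 = (-1) ^ (P i).natDegree * δ i)
    (hsep : ∀ i (σ : K i →+* L), ((P i).map (res σ)).Separable)
    (hδ : ∀ i, (P i).natDegree = 2 → ∀ σ : K i →+* L, (res σ (δ i)) ^ 2 ≠ (q i : L) ^ 2) (i : I) {σ τ : K i →+* L}
    (hne : σ ≠ τ) {z : L} (hz : z ∈ Rt (P i) σ) (hz' : z ∈ Rt (P i) τ) : False := by
  classical
  by_cases h : τ = bar σ
  · subst h
    have hy := hD.dual i _ _ hz'
    rw [bar_bar] at hy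
    set y := (q i : L) / z with hyd
    have hz0 := hD.ne i σ z hz
    have hy0 := hD.ne i σ y hy
    have hq0 : (q i : L) ≠ 0 := by
      intro h
      rw [hyd, h, zero_div] at hy0
      exact hy0 rfl
    have hzy : z * y = q i := by
      rw [hyd]
      field_simp
    have key : ∀ w ∈ Rt (P i) σ, w ≠ z → y = z ∨ y = w := by
      intro w hw hwz
      by_contra hcon
      push Not at hcon
      obtain ⟨⟨g, g1, g2, g3, -⟩, -⟩ := (hS i σ).2 z hz w hw (Ne.symm hwz)
      have h1 := g3 y hy hcon.1 hcon.2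
      rw [hyd, map_div₀, map_natCast, g1] at h1
      apply hwz
      have hw0 := hD.ne i σ w hw
      field_simp at h1
      exact h1.symm
    have key2 : y = z → ∀ w ∈ Rt (P i) σ, w ≠ z → w = -z := by
      intro hyz w hw hwz
      obtain ⟨⟨g, g1, g2, g3, -⟩, -⟩ := (hS i σ).2 z hz w hw (Ne.symm hwz)
      rw [hyz] at hzy
      have h1 := congrArg g hzy
      rw [map_mul, map_natCast, g1, ← hzy] at h1
      have h2 : (w - z) * (w + z) = 0 := by linear_combination h1
      have h3 := (mul_eq_zero.1 h2).resolve_left (sub_ne_zero.2 hwz)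
      linear_combination h3
    obtain ⟨w, hw, hwz⟩ := exists_other hS i σ z
    have honly : ∀ u ∈ Rt (P i) σ, u = z ∨ u = w := by
      intro u hu
      by_contra hcon
      push Not at hcon
      by_cases hyz : y = z
      · exact hcon.2 ((key2 hyz u hu hcon.1).trans (key2 hyz w hw hwz).symm)
      · have h1 := (key w hw hwz).resolve_left hyz
        have h2 := (key u hu hcon.1).resolve_left hyz
        exact hcon.2 (h2.symm.trans h1)
    have hzw : (z * w) ^ 2 = (q i : L) ^ 2 := by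
      rcases key w hw hwz with h1 | h1
      · rw [key2 h1 w hw hwz, ← hzy, h1]
        ring
      · rw [← h1, hzy]
    have hP0 : (P i).map (res σ) ≠ 0 := ((hD.monic i).map _).ne_zero
    have hroots : ((P i).map (res σ)).roots = {z, w} := by
      have hnd := nodup_roots (hsep i σ)
      refine (Multiset.Nodup.ext hnd ?_).2 ?_
      · rw [Multiset.insert_eq_cons, Multiset.nodup_cons]
        simp [hwz.symm]
      · intro u
        rw [mem_roots hP0, IsRoot.def, eval_map]
        simp only [Multiset.insert_eq_cons, Multiset.mem_cons, Multiset.mem_singleton]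
        constructor
        · exact honly u
        · rintro (rfl | rfl)
          · exact hz
          · exact hw
    have hprod := (hD.splits i σ).eq_prod_roots_of_monic ((hD.monic i).map _)
    rw [hroots] at hprod
    have hdeg : (P i).natDegree = 2 := by
      rw [← (hD.monic i).natDegree_map (res σ), (hD.splits i σ).natDegree_eq_card_roots, hroots]
      rfl
    apply hδ i hdeg σ
    rw [← hzw]
    have h0 := congrArg (fun f => f.coeff 0) hprod
    simp only [coeff_map, hdet, hdeg] at h0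
    have h2 : ((Multiset.map (fun a => X - C a) ({z, w} : Multiset L)).prod).coeff 0 = z * w := by
      rw [Polynomial.coeff_zero_eq_eval_zero, eval_multiset_prod]
      simp
    rw [h2] at h0
    rw [← h0]
    simp
  · obtain ⟨w, hw, hwz⟩ := exists_other hS i σ z
    obtain ⟨⟨g, g1, -, -, g4, -⟩, -⟩ := (hS i σ).2 z hz w hw (Ne.symm hwz)
    have h1 := g4 τ (Ne.symm hne) h z hz'
    rw [g1] at h1
    exact hwz h1

end

section Main

variable {I : Type} [Fintype I] {K : I → Type} [∀ i, Field (K i)] [∀ i, NumberField (K i)]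
  [∀ i, IsCMField (K i)]

open Classical in
/-- In all multiplicative relations the differences of the multiplicities of `z` and `q / z` are
the same for all roots `z` of the image of `P i` under an embedding. -/
def SemiBal (q : I → ℕ) (P : ∀ i, (𝓞 (K i))[X]) : Prop :=
  ∀ l : List (I × ℂ), (∀ x ∈ l, ∃ σ : K x.1 →+* ℂ, eval₂ (res σ) x.2 (P x.1) = 0) →
    ∀ t : ℕ, 0 < t → ∀ c : ℕ, 0 < c → (l.map fun x => x.2 ^ t).prod = (c : ℂ) →
      ∀ i (σ : K i →+* ℂ) (z₁ z₂ : ℂ), eval₂ (res σ) z₁ (P i) = 0 → eval₂ (res σ) z₂ (P i) = 0 →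
        (l.count (i, z₁) : ℤ) - l.count (i, (q i : ℂ) / z₁) =
          l.count (i, z₂) - l.count (i, (q i : ℂ) / z₂)

open Classical in
/-- All multiplicative relations are balanced. -/
def Bal (q : I → ℕ) (P : ∀ i, (𝓞 (K i))[X]) : Prop :=
  ∀ l : List (I × ℂ), (∀ x ∈ l, ∃ σ : K x.1 →+* ℂ, eval₂ (res σ) x.2 (P x.1) = 0) →
    ∀ t : ℕ, 0 < t → ∀ c : ℕ, 0 < c → (l.map fun x => x.2 ^ t).prod = (c : ℂ) →
      ∀ i (σ : K i →+* ℂ) (z : ℂ), eval₂ (res σ) z (P i) = 0 →
        l.count (i, z) = l.count (i, (q i : ℂ) / z)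

/-- **The patterns imply that the relations come from the relations between the determinants.** -/
theorem unt2 (q : I → ℕ) (Q : I → ℤ[X]) (N : ℕ) (P : ∀ i, (𝓞 (K i))[X])
    (δ : ∀ i, 𝓞 (K i)) (θ : ∀ i, 𝓞 (K i)) (M : I → ℕ)
    (hq : ∀ i, 0 < q i) (hQ : ∀ i, (Q i).Monic) (hP : ∀ i, (P i).Monic)
    (hnorm : ∀ i, (Q i).map (Int.castRingHom ℂ) = ∏ σ : K i →+* ℂ, (P i).map (res σ))
    (hrh : ∀ i (σ : K i →+* ℂ) (z : ℂ), eval₂ (res σ) z (P i) = 0 → ‖z‖ ^ 2 = q i)
    (hdet : ∀ i, (P i).coeff 0 = (-1) ^ (P i).natDegree * δ i)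
    (hδ : ∀ i, (P i).natDegree = 2 → (δ i) ^ 2 ≠ (q i : 𝓞 (K i)) ^ 2)
    (hθ : ∀ i, IsGen (θ i) (M i))
    (hN : ∀ i, ∀ z : ℂ, (∃ t : ℕ, 0 < t ∧ z ^ t = 1) →
      (∃ S : ℚ[X], S ≠ 0 ∧ S.natDegree ≤ (Q i).natDegree ^ 2 ∧ aeval z S = 0) → z ^ N = 1)
    (hirr : ∀ i₀, ∃ l : ℕ, l.Prime ∧ SplitsMod (gp (θ i₀)) l ∧ ¬ l ∣ M i₀ ∧
      (fun φ => (P i₀).map φ) ∈ irrPat (F := K i₀) l)
    (hlin : ∀ i₀, 3 ≤ (P i₀).natDegree → ∃ l : ℕ, l.Prime ∧ SplitsMod (gp (θ i₀)) l ∧
      ¬ l ∣ M i₀ ∧ (fun φ => (P i₀).map φ) ∈ linPat (F := K i₀) l)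
    (hswp : ∀ i₀, ∃ l : ℕ, l.Prime ∧ (∀ i, SplitsMod (gp (θ i)) l) ∧ ¬ l ∣ M i₀ ∧
      (fun φ => (P i₀).map φ) ∈ swapPat (F := K i₀) N l ∧
      ∀ i, i ≠ i₀ → (fun φ => (P i).map φ) ∈ splitPat (F := K i) l) :
    SemiBal q P ∧ (Independent K δ ∅ → Bal q P) ∧
      (∀ i (σ : K i →+* ℂ), ((P i).map (res σ)).Separable) ∧
      ∀ i (σ τ : K i →+* ℂ), σ ≠ τ → ∀ z, eval₂ (res σ) z (P i) = 0 → eval₂ (res τ) z (P i) ≠ 0 := by
  classical
  -- the field
  obtain ⟨L, _, _, _, j, hL⟩ := W338.MF.exists_field' ((∏ i, Q i) * ∏ i, gp (θ i))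
    ((monic_prod_of_monic _ _ fun i _ => hQ i).mul
      (monic_prod_of_monic _ _ fun i _ => gp_monic (θ i)))
  have hLw : ∀ i (z : ℂ), aeval z (Q i) = 0 → ∃ x : L, j x = z := by
    intro i z hz
    apply hL
    rw [map_mul, map_prod, Finset.prod_eq_zero (Finset.mem_univ i) hz, zero_mul]
  have hLθ : ∀ i (z : ℂ), aeval z (gp (θ i)) = 0 → ∃ x : L, j x = z := by
    intro i z hz
    apply hL
    have h1 : aeval z (∏ i, gp (θ i)) = 0 := by
      rw [map_prod]
      exact Finset.prod_eq_zero (Finset.mem_univ i) hz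
    rw [map_mul, h1, mul_zero]
  -- the roots
  have hroot : ∀ i (z : ℂ), aeval z (Q i) = 0 ↔
      ∃ σ : K i →+* ℂ, eval₂ (res σ) z (P i) = 0 := by
    intro i z
    have h1 : aeval z (Q i) = ((Q i).map (Int.castRingHom ℂ)).eval z := by
      rw [eval_map]
      rfl
    rw [h1, hnorm i, eval_prod, Finset.prod_eq_zero_iff]
    simp only [Finset.mem_univ, true_and, eval_map]
  have hrootL : ∀ i (z : L), aeval z (Q i) = 0 ↔
      ∃ σ : K i →+* L, z ∈ Rt (P i) σ := by
    intro i z
    have h1 : aeval z (Q i) = 0 ↔ aeval (j z) (Q i) = 0 := by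
      rw [← hom_aeval]
      exact (map_eq_zero j).symm
    rw [h1, hroot]
    constructor
    · rintro ⟨σ, hσ⟩
      obtain ⟨τ, rfl⟩ := emb_lift j (hθ i) (hLθ i) σ
      exact ⟨τ, (rt_up j).2 hσ⟩
    · rintro ⟨τ, hτ⟩
      exact ⟨j.comp τ, (rt_up j).1 hτ⟩
  have hD : Dat q P L := {
    monic := hP
    q_ne := fun i => (hq i).ne'
    splits := by
      intro i σ
      refine Polynomial.Splits.of_splits_map j (IsAlgClosed.splits _) ?_
      intro z hz
      rw [mem_roots (((hP i).map _).map _).ne_zero, IsRoot.def, Polynomial.map_map,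
        eval_map] at hz
      exact hLw i z ((hroot i z).2 ⟨j.comp σ, hz⟩)
    dual := by
      intro i σ z hz
      rw [rt_up j] at hz ⊢
      have h1 := hrh i _ _ hz
      have h2 := eval_conj hz
      rw [bar_conj, map_div₀, map_natCast]
      have h3 : j z ≠ 0 := by
        intro h0
        rw [h0, norm_zero, zero_pow two_ne_zero] at h1
        have h2 : (0 : ℝ) < q i := by exact_mod_cast hq i
        exact h2.ne h1
      have h4 : (q i : ℂ) / j z = starRingEnd ℂ (j z) := by
        rw [div_eq_iff h3, ← Complex.normSq_eq_conj_mul_self, Complex.normSq_eq_norm_sq, h1]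
        simp
      rw [h4]
      exact h2
    ne := by
      intro i σ z hz h0
      rw [rt_up j] at hz
      have h1 := hrh i _ _ hz
      rw [h0, map_zero, norm_zero, zero_pow two_ne_zero] at h1
      have h2 : (0 : ℝ) < q i := by exact_mod_cast hq i
      exact h2.ne h1 }
  have hsepK : ∀ i, ((P i).map (algebraMap (𝓞 (K i)) (K i))).Separable := by
    intro i
    obtain ⟨l, hl, -, -, φ₀, h0⟩ := hirr i
    have : Fact l.Prime := ⟨hl⟩
    have h1 : Irreducible (P i) := (hP i).irreducible_of_irreducible_map φ₀ _ h0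
    exact (((hP i).irreducible_iff_irreducible_map_fraction_map (K := K i)).1 h1).separable
  have hsep : ∀ i (σ : K i →+* L), ((P i).map (res σ)).Separable := by
    intro i σ
    have h1 : (P i).map (res σ) = ((P i).map (algebraMap (𝓞 (K i)) (K i))).map σ := by
      rw [Polynomial.map_map]
      rfl
    rw [h1]
    exact (hsepK i).map
  have hS : AllSwp P (1 : ℤ[X]) L := by
    intro i σ
    refine all_swp (N := N) hD hθ i monic_one (hirr i) (hlin i) ?_ ?_ σ
    · obtain ⟨l, h1, h2, h3, h4, h5⟩ := hswp i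
      exact ⟨l, h1, h2, h3, ⟨∅, by simp⟩, h4, h5⟩
    rintro z₁ z₂ ⟨τ, h1, h2⟩ ⟨t, ht, h3⟩
    have hz1 : z₁ ≠ 0 := hD.ne i τ z₁ h1
    obtain ⟨S, hS, hSd, hSz⟩ := quot_deg j (hQ i)
      ((hrootL i z₁).2 ⟨τ, h1⟩) ((hrootL i z₂).2 ⟨τ, h2⟩)
    have h4 := hN i (j (z₂ / z₁)) ⟨t, ht, by
      rw [← map_pow, div_pow, h3, div_self, map_one]
      rw [← h3]
      exact pow_ne_zero _ hz1⟩ ⟨S, hS, hSd, hSz⟩
    rw [← map_pow, ← map_one j] at h4
    have h5 := j.injective h4
    rw [div_pow, div_eq_one_iff_eq (pow_ne_zero _ hz1)] at h5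
    exact h5.symm
  have hδL : ∀ i, (P i).natDegree = 2 → ∀ σ : K i →+* L,
      (res σ (δ i)) ^ 2 ≠ (q i : L) ^ 2 := by
    intro i h2 σ h
    apply hδ i h2
    apply RingOfIntegers.coe_injective
    apply σ.injective
    have e1 : σ ((δ i ^ 2 : 𝓞 (K i)) : K i) = (res σ (δ i)) ^ 2 := by
      change res σ (δ i ^ 2) = _
      rw [map_pow]
    have e2 : σ (((q i : 𝓞 (K i)) ^ 2 : 𝓞 (K i)) : K i) = (q i : L) ^ 2 := by
      change res σ ((q i : 𝓞 (K i)) ^ 2) = _
      rw [map_pow, map_natCast]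
    exact e1.trans (h.trans e2.symm)
  have hdj : ∀ (i : I) (σ τ : K i →+* L), σ ≠ τ → ∀ z, z ∈ Rt (P i) σ → z ∉ Rt (P i) τ :=
    fun i σ τ hne z hz hz' => disj2 hD hS δ hdet hsep hδL i hne hz hz'
  -- everything in `L`
  have hlist : ∀ l : List (I × ℂ), (∀ x ∈ l, ∃ σ : K x.1 →+* ℂ, eval₂ (res σ) x.2 (P x.1) = 0) →
      ∃ l' : List (I × L), l'.map (Prod.map id j) = l ∧
        ∀ x ∈ l', ∃ σ : K x.1 →+* L, x.2 ∈ Rt (P x.1) σ := by
    intro l hl
    induction l with
    | nil => exact ⟨[], rfl, by simp⟩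
    | cons a T ih =>
      obtain ⟨T', h1, h2⟩ := ih fun z hz => hl z (List.mem_cons_of_mem a hz)
      have h3 := hl a List.mem_cons_self
      obtain ⟨x, hx⟩ := hLw a.1 a.2 ((hroot _ _).2 h3)
      refine ⟨(a.1, x) :: T', ?_, ?_⟩
      · rw [List.map_cons, h1]
        congr 1
        exact Prod.ext rfl hx
      · intro y hy
        rcases List.mem_cons.1 hy with e | e
        · rw [e]
          refine (hrootL a.1 x).1 ?_
          apply j.injective
          rw [hom_aeval, hx, (hroot _ _).2 h3, map_zero]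
        · exact h2 y e
  have hrel : ∀ (l' : List (I × L)) (t : ℕ) (c : ℕ),
      ((l'.map (Prod.map id j)).map fun x : I × ℂ => x.2 ^ t).prod = (c : ℂ) →
      (l'.map fun x => x.2).prod ^ t * 1 = (c : L) := by
    intro l' t c hprod
    apply j.injective
    have e1 : ∀ k : List (I × L), ((k.map (Prod.map id j)).map fun x : I × ℂ => x.2 ^ t).prod =
        (j (k.map fun x => x.2).prod) ^ t := by
      intro k
      induction k with
      | nil => simp
      | cons a k ih =>
        rw [List.map_cons, List.map_cons, List.prod_cons, ih, List.map_cons, List.prod_cons,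
          map_mul, mul_pow]
        rfl
    rw [mul_one, map_pow, map_natCast, ← hprod, e1]
  have hinj : Function.Injective (Prod.map id j : I × L → I × ℂ) :=
    Function.Injective.prodMap Function.injective_id j.injective
  have hcount : ∀ (l' : List (I × L)) (i : I) (x : L),
      (l'.map (Prod.map id j)).count (i, j x) = l'.count (i, x) := by
    intro l' i x
    rw [show ((i, j x) : I × ℂ) = Prod.map id j (i, x) from rfl]
    exact List.count_map_of_injective l' _ hinj _
  have hqj : ∀ i (x : L), (q i : ℂ) / j x = j (q i / x) := fun i x => by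
    rw [map_div₀, map_natCast]
  refine ⟨?_, ?_, ?_, ?_⟩
  · intro l hl t ht c hc hprod i σ z₁ z₂ h₁ h₂
    obtain ⟨l', rfl, hl'⟩ := hlist l hl
    obtain ⟨τ, rfl⟩ := emb_lift j (hθ i) (hLθ i) σ
    obtain ⟨x₁, rfl⟩ := hLw i z₁ ((hroot i z₁).2 ⟨_, h₁⟩)
    obtain ⟨x₂, rfl⟩ := hLw i z₂ ((hroot i z₂).2 ⟨_, h₂⟩)
    rw [hqj, hqj, hcount, hcount, hcount, hcount]
    exact const_diff hD hS hdj l' hl' ht hc (one_mem _) (hrel l' t c hprod) i τ
      ((rt_up j).2 h₁) ((rt_up j).2 h₂)
  · intro hind l hl t ht c hc hprod i σ z hz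
    have hI : IndL δ (1 : ℤ[X]) L := by
      intro e ν hν c hc hrel i σ
      have hν1 : ν = 1 := by
        clear hrel
        induction hν using Submonoid.closure_induction with
        | mem x hx =>
          have h1 : aeval x (1 : ℤ[X]) = 0 := hx
          rw [map_one] at h1
          exact absurd h1 one_ne_zero
        | one => rfl
        | mul x y _ _ h1 h2 => rw [h1, h2, mul_one]
      have h1 := hind (fun i σ => e i ((embE j (hθ i) (hLθ i)).symm σ)) 1 (one_mem _) c hc (by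
        have h2 := congrArg j hrel
        rw [map_mul, map_prod, map_ratCast, hν1, map_one] at h2
        rw [← h2]
        congr 1
        refine Finset.prod_congr rfl fun i _ => ?_
        rw [map_prod]
        refine (Fintype.prod_equiv (embE j (hθ i) (hLθ i)) _ _ fun τ => ?_).symm
        rw [Equiv.symm_apply_apply, map_zpow₀]
        rfl) i (embE j (hθ i) (hLθ i) σ)
      have h3 : ComplexEmbedding.conjugate (embE j (hθ i) (hLθ i) σ) =
          embE j (hθ i) (hLθ i) (bar σ) := (bar_conj j σ).symm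
      rw [h3, Equiv.symm_apply_apply, Equiv.symm_apply_apply] at h1
      exact h1
    obtain ⟨l', rfl, hl'⟩ := hlist l hl
    obtain ⟨τ, rfl⟩ := emb_lift j (hθ i) (hLθ i) σ
    obtain ⟨x, rfl⟩ := hLw i z ((hroot i z).2 ⟨_, hz⟩)
    rw [hqj, hcount, hcount]
    exact bal_core hD hS δ hdet hsep hdj hI l' hl' ht hc (one_mem _) (hrel l' t c hprod) i τ
      ((rt_up j).2 hz)
  · intro i σ
    have h2 : (P i).map (res σ) = ((P i).map (algebraMap (𝓞 (K i)) (K i))).map σ := by
      rw [Polynomial.map_map]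
      rfl
    rw [h2]
    exact (hsepK i).map
  · intro i σ τ hne z hz hz'
    obtain ⟨σ', rfl⟩ := emb_lift j (hθ i) (hLθ i) σ
    obtain ⟨τ', rfl⟩ := emb_lift j (hθ i) (hLθ i) τ
    obtain ⟨x, rfl⟩ := hLw i z ((hroot i z).2 ⟨_, hz⟩)
    exact hdj i σ' τ' (fun h => hne (by rw [h])) x ((rt_up j).2 hz) ((rt_up j).2 hz')

end Main

end Pool.Agent.K1H12.UN
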