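import Pool.Agent.K1H12.UN.AbD
import Pool.Agent.K1H12.UN.NT2

/-!
# Tate classes in exterior algebras and determinants
-/

set_option autoImplicit false

open Polynomial NumberField

namespace Pool.Agent.K1H12.UN

section Lists

variable {α β : Type*}

/-- Extraction of a part of a list with given labels. -/
lemma extract [DecidableEq β] (f : α → β) : ∀ (ks : List β) (l : List α), ks.Nodup →
    (∀ k ∈ ks, k ∈ l.map f) → ∃ L l' : List α, l.Perm (L ++ l') ∧ L.map f = ks := by
  intro ks
  induction ks with
  | nil => exact fun l _ _ => ⟨[], l, List.Perm.refl _, rfl⟩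
  | cons k ks ih =>
    intro l hnd hmem
    classical
    obtain ⟨hk, hnd'⟩ := List.nodup_cons.1 hnd
    obtain ⟨a, ha, hak⟩ := List.mem_map.1 (hmem k List.mem_cons_self)
    obtain ⟨L, l', h1, h2⟩ := ih (l.erase a) hnd' (by
      intro k' hk'
      obtain ⟨b, hb, hbk⟩ := List.mem_map.1 (hmem k' (List.mem_cons_of_mem _ hk'))
      refine List.mem_map.2 ⟨b, ?_, hbk⟩
      refine (List.mem_erase_of_ne ?_).2 hb
      rintro rfl
      apply hk
      rw [← hak, hbk]
      exact hk')
    refine ⟨a :: L, l', ?_, by rw [List.map_cons, hak, h2]⟩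
    exact (List.perm_cons_erase ha).trans (h1.cons a)

end Lists

section Ext

variable {I : Type} {K : I → Type} [∀ i, Field (K i)] [∀ i, NumberField (K i)]
  {V : Type} [AddCommGroup V] [Module ℂ V]

open ExteriorAlgebra

/-- A letter: an eigenvector with a label. -/
structure Ltr (P : ∀ i, (𝓞 (K i))[X]) (F : V →ₗ[ℂ] V) where
  i : I
  z : ℂ
  v : V
  root : ∃ σ : K i →+* ℂ, eval₂ (res σ) z (P i) = 0
  eig : F v = z • v

variable {P : ∀ i, (𝓞 (K i))[X]} {F : V →ₗ[ℂ] V}

/-- The label. -/
def Ltr.lab (a : Ltr P F) : I × ℂ := (a.i, a.z)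

/-- The product. -/
noncomputable def val (l : List (Ltr P F)) : ExteriorAlgebra ℂ V :=
  (l.map fun a => ι ℂ a.v).prod

/-- The eigenvalue. -/
noncomputable def pr (l : List (Ltr P F)) : ℂ := (l.map fun a => a.z).prod

lemma val_append (l l' : List (Ltr P F)) : val (l ++ l') = val l * val l' := by
  rw [val, val, val, List.map_append, List.prod_append]

lemma pr_append (l l' : List (Ltr P F)) : pr (l ++ l') = pr l * pr l' := by
  rw [pr, pr, pr, List.map_append, List.prod_append]

lemma val_perm {l l' : List (Ltr P F)} (h : l.Perm l') : ∃ ε : ℂ, val l = ε • val l' := by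
  induction h with
  | nil => exact ⟨1, by rw [one_smul]⟩
  | cons a _ ih =>
    obtain ⟨ε, hε⟩ := ih
    refine ⟨ε, ?_⟩
    unfold val at hε ⊢
    rw [List.map_cons, List.prod_cons, hε, List.map_cons, List.prod_cons, mul_smul_comm]
  | swap a b l =>
    refine ⟨-1, ?_⟩
    unfold val
    rw [List.map_cons, List.prod_cons, List.map_cons, List.prod_cons, List.map_cons,
      List.prod_cons, List.map_cons, List.prod_cons, ← mul_assoc, ← mul_assoc]
    have h : ι ℂ b.v * ι ℂ a.v = - (ι ℂ a.v * ι ℂ b.v) :=
      eq_neg_of_add_eq_zero_left (ι_add_mul_swap b.v a.v)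
    rw [h, neg_mul, neg_one_smul]
  | trans _ _ h1 h2 =>
    obtain ⟨ε, hε⟩ := h1
    obtain ⟨ε', hε'⟩ := h2
    exact ⟨ε * ε', by rw [hε, hε', smul_smul]⟩

lemma pr_perm {l l' : List (Ltr P F)} (h : l.Perm l') : pr l = pr l' :=
  (h.map _).prod_eq

lemma pow_eig {v : V} {z : ℂ} (h : F v = z • v) (s : ℕ) : (F ^ s) v = z ^ s • v := by
  induction s with
  | zero => simp
  | succ s ih => rw [pow_succ', Module.End.mul_apply, ih, map_smul, h, smul_smul, pow_succ]

lemma val_map (l : List (Ltr P F)) (s : ℕ) :
    ExteriorAlgebra.map (F ^ s) (val l) = (pr l) ^ s • val l := by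
  induction l with
  | nil => simp [val, pr]
  | cons a l ih =>
    have e1 : val (a :: l) = ι ℂ a.v * val l := by simp [val]
    have e2 : pr (a :: l) = a.z * pr l := by simp [pr]
    rw [e1, e2, map_mul, ih, map_apply_ι, pow_eig a.eig s, map_smul, smul_mul_smul_comm, mul_pow]

lemma val_mem (l : List (Ltr P F)) : val l ∈ ⋀[ℂ]^(l.length) V := by
  induction l with
  | nil =>
    rw [List.length_nil]
    simp only [val, List.map_nil, List.prod_nil, exteriorPower, pow_zero]
    exact Submodule.one_le.1 le_rfl
  | cons a l ih =>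
    have e1 : val (a :: l) = ι ℂ a.v * val l := by simp [val]
    rw [e1, List.length_cons, exteriorPower, pow_succ']
    exact Submodule.mul_mem_mul (LinearMap.mem_range_self _ _) ih

open Classical in
/-- The differences of the multiplicities are constant. -/
def SB (P : ∀ i, (𝓞 (K i))[X]) (q : ℕ) (k : List (I × ℂ)) : Prop :=
  ∀ i (σ : K i →+* ℂ) (z₁ z₂ : ℂ), eval₂ (res σ) z₁ (P i) = 0 → eval₂ (res σ) z₂ (P i) = 0 →
    (k.count (i, z₁) : ℤ) - k.count (i, (q : ℂ) / z₁) =
      k.count (i, z₂) - k.count (i, (q : ℂ) / z₂)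

/-- The hypotheses on the roots. -/
structure Rts (P : ∀ i, (𝓞 (K i))[X]) (q : ℕ) (cb : ∀ i, (K i →+* ℂ) → (K i →+* ℂ)) : Prop where
  q_pos : 0 < q
  monic : ∀ i, (P i).Monic
  sep : ∀ i (σ : K i →+* ℂ), ((P i).map (res σ)).Separable
  disj : ∀ i (σ τ : K i →+* ℂ), σ ≠ τ → ∀ z, eval₂ (res σ) z (P i) = 0 →
    eval₂ (res τ) z (P i) ≠ 0
  dual : ∀ i (σ : K i →+* ℂ) z, eval₂ (res σ) z (P i) = 0 →
    z ≠ 0 ∧ eval₂ (res (cb i σ)) ((q : ℂ) / z) (P i) = 0
  cb_ne : ∀ i σ, cb i σ ≠ σ
  cb_cb : ∀ i σ, cb i (cb i σ) = σ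

variable {q : ℕ} {cb : ∀ i, (K i →+* ℂ) → (K i →+* ℂ)}

lemma pair_div (hq : 0 < q) {z w : ℂ} (hz : z ≠ 0) (hw : w = (q : ℂ) / z) :
    z * w = q ∧ w ≠ 0 ∧ z = (q : ℂ) / w := by
  have hq0 : (q : ℂ) ≠ 0 := by exact_mod_cast hq.ne'
  subst hw
  refine ⟨by field_simp, div_ne_zero hq0 hz, by field_simp⟩

open Classical in
/-- **Decomposition of a monomial in determinants and pairs.** -/
theorem decomp (hR : Rts P q cb) : ∀ (N : ℕ) (l : List (Ltr P F)), l.length ≤ N →
    SB P q (l.map Ltr.lab) → ∃ l₁ l₂ : List (Ltr P F), l.Perm (l₁ ++ l₂) ∧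
      (∃ L : List (ExteriorAlgebra ℂ V), (∀ w ∈ L, ∃ (i : I) (σ : K i →+* ℂ),
        IsDeterminant (P i) σ F w) ∧ val l₁ = L.prod) ∧
      (∃ n : ℕ, l₂.length = 2 * n ∧ pr l₂ = (q : ℂ) ^ n) ∧
      val l₂ ∈ Algebra.adjoin ℂ (divisorClasses F q) ∧
      ((∀ i (σ : K i →+* ℂ) (z : ℂ), eval₂ (res σ) z (P i) = 0 →
        (l.map Ltr.lab).count (i, z) = (l.map Ltr.lab).count (i, (q : ℂ) / z)) → l₁ = []) := by
  classical
  have hq0 : (q : ℂ) ≠ 0 := by exact_mod_cast hR.q_pos.ne'
  intro N
  induction N with
  | zero =>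
    intro l hl _
    have : l = [] := List.length_eq_zero_iff.1 (by omega)
    subst this
    exact ⟨[], [], List.Perm.refl _, ⟨[], by simp, rfl⟩, ⟨0, rfl, by simp [pr]⟩, by
      simp [val], fun _ => rfl⟩
  | succ N ih =>
    intro l hl hSB
    by_cases hz : ∀ i (σ : K i →+* ℂ) (z : ℂ), eval₂ (res σ) z (P i) = 0 →
        (l.map Ltr.lab).count (i, z) = (l.map Ltr.lab).count (i, (q : ℂ) / z)
    · -- balanced
      cases l with
      | nil =>
        exact ⟨[], [], List.Perm.refl _, ⟨[], by simp, rfl⟩, ⟨0, rfl, by simp [pr]⟩, by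
          simp [val], fun _ => rfl⟩
      | cons a l =>
        obtain ⟨σ, hσ⟩ := a.root
        obtain ⟨ha0, hdual⟩ := hR.dual a.i σ a.z hσ
        have hne : (q : ℂ) / a.z ≠ a.z := by
          intro h
          rw [h] at hdual
          exact hR.disj a.i σ _ (hR.cb_ne a.i σ).symm _ hσ hdual
        have h1 := hz a.i σ a.z hσ
        have h2 : 0 < ((a :: l).map Ltr.lab).count (a.i, a.z) := by
          rw [List.count_pos_iff, List.map_cons]
          exact List.mem_cons_self
        rw [h1, List.count_pos_iff, List.map_cons, List.mem_cons] at h2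
        have h3 : (a.i, (q : ℂ) / a.z) ∈ l.map Ltr.lab := by
          rcases h2 with h2 | h2
          · exact absurd (congrArg Prod.snd h2) hne
          · exact h2
        obtain ⟨b, hb, hbl⟩ := List.mem_map.1 h3
        have hperm : (a :: l).Perm (a :: b :: l.erase b) := (List.perm_cons_erase hb).cons a
        have hbz : b.z = (q : ℂ) / a.z := congrArg Prod.snd hbl
        have hbi : b.i = a.i := congrArg Prod.fst hbl
        obtain ⟨hab, hb0, haz⟩ := pair_div hR.q_pos ha0 hbz
        have hlen : (l.erase b).length ≤ N := by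
          rw [List.length_erase_of_mem hb]
          rw [List.length_cons] at hl
          omega
        have hcount : ∀ x : I × ℂ, ((a :: l).map Ltr.lab).count x =
            ([a, b].map Ltr.lab).count x + ((l.erase b).map Ltr.lab).count x := by
          intro x
          rw [(hperm.map _).count_eq, ← List.count_append]
          rfl
        have hpair : ∀ (i : I) (z : ℂ), z ≠ 0 → ([a, b].map Ltr.lab).count (i, z) =
            ([a, b].map Ltr.lab).count (i, (q : ℂ) / z) := by
          intro i z hz0
          have e1 : [a, b].map Ltr.lab = [(a.i, a.z), (a.i, (q : ℂ) / a.z)] := by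
            rw [List.map_cons, List.map_cons, hbl]
            rfl
          rw [e1]
          by_cases hii : i = a.i
          · subst hii
            simp only [List.count_cons, List.count_nil, beq_iff_eq, Prod.mk.injEq, true_and]
            have e2 : (a.z = z) ↔ ((q : ℂ) / a.z = (q : ℂ) / z) := by
              constructor
              · rintro rfl
                rfl
              · intro h9
                rw [div_eq_div_iff ha0 hz0] at h9
                exact (mul_left_cancel₀ hq0 h9).symm
            have e3 : ((q : ℂ) / a.z = z) ↔ (a.z = (q : ℂ) / z) := by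
              constructor
              · intro h9
                rw [← h9, div_div_cancel₀ hq0]
              · intro h9
                rw [h9, div_div_cancel₀ hq0]
            simp only [e2, e3]
            omega
          · have e2 : ∀ x : ℂ, ([(a.i, a.z), (a.i, (q : ℂ) / a.z)] :
                List (I × ℂ)).count (i, x) = 0 := by
              intro x
              rw [List.count_eq_zero]
              simp only [List.mem_cons, List.not_mem_nil, or_false, Prod.mk.injEq, not_or]
              exact ⟨fun h => hii h.1, fun h => hii h.1⟩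
            rw [e2, e2]
        have hSB' : SB P q ((l.erase b).map Ltr.lab) := by
          intro i τ z₁ z₂ h₁ h₂
          have h4 := hz i τ z₁ h₁
          have h5 := hz i τ z₂ h₂
          have z1 := (hR.dual i τ z₁ h₁).1
          have z2 := (hR.dual i τ z₂ h₂).1
          have h6 := hpair i z₁ z1
          have h7 := hpair i z₂ z2
          have c1 := hcount (i, z₁)
          have c2 := hcount (i, z₂)
          have c3 := hcount (i, (q : ℂ) / z₁)
          have c4 := hcount (i, (q : ℂ) / z₂)
          omega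
        obtain ⟨l₁, l₂, p1, p2, ⟨n, p3, p4⟩, p5, p6⟩ := ih (l.erase b) hlen hSB'
        refine ⟨l₁, a :: b :: l₂, ?_, p2, ⟨n + 1, ?_, ?_⟩, ?_, fun _ => p6 ?_⟩
        · refine hperm.trans ?_
          refine ((p1.cons b).cons a).trans ?_
          refine (List.Perm.cons a ?_).trans (List.perm_middle.symm)
          exact List.perm_middle.symm
        · rw [List.length_cons, List.length_cons, p3]
          ring
        · have e2 : pr (a :: b :: l₂) = a.z * b.z * pr l₂ := by
            simp [pr, mul_assoc]
          rw [e2, hab, p4, pow_succ]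
          ring
        · have e1 : val (a :: b :: l₂) = (ι ℂ a.v * ι ℂ b.v) * val l₂ := by
            simp [val, mul_assoc]
          rw [e1]
          refine Subalgebra.mul_mem _ (Algebra.subset_adjoin ?_) p5
          refine ⟨?_, 1, one_pos, ?_⟩
          · rw [mul_one, exteriorPower, pow_two]
            exact Submodule.mul_mem_mul (LinearMap.mem_range_self _ _)
              (LinearMap.mem_range_self _ _)
          · rw [pow_one, pow_one, pow_one, map_mul, map_apply_ι, map_apply_ι, a.eig, b.eig,
              map_smul, map_smul, smul_mul_smul_comm, hab]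
        · intro i τ z h
          have h4 := hz i τ z h
          have z1 := (hR.dual i τ z h).1
          have h6 := hpair i z z1
          have c1 := hcount (i, z)
          have c3 := hcount (i, (q : ℂ) / z)
          omega
    · -- a determinant
      push Not at hz
      obtain ⟨i₀, σ₀, z₀, hz₀, hne₀⟩ := hz
      obtain ⟨σ, hσpos⟩ : ∃ σ : K i₀ →+* ℂ, (∃ z, eval₂ (res σ) z (P i₀) = 0) ∧
          ∀ z, eval₂ (res σ) z (P i₀) = 0 →
            (l.map Ltr.lab).count (i₀, (q : ℂ) / z) < (l.map Ltr.lab).count (i₀, z) := by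
        rcases lt_or_gt_of_ne hne₀ with h | h
        · obtain ⟨h0, hd⟩ := hR.dual i₀ σ₀ z₀ hz₀
          refine ⟨cb i₀ σ₀, ⟨_, hd⟩, fun z hz => ?_⟩
          have h1 := hSB i₀ (cb i₀ σ₀) z ((q : ℂ) / z₀) hz hd
          rw [div_div_cancel₀ hq0] at h1
          omega
        · refine ⟨σ₀, ⟨_, hz₀⟩, fun z hz => ?_⟩
          have h1 := hSB i₀ σ₀ z z₀ hz hz₀
          omega
      obtain ⟨⟨w₀, hw₀⟩, hpos⟩ := hσpos
      set rl : List ℂ := ((P i₀).map (res σ)).roots.toList with hrl
      have hP0 : (P i₀).map (res σ) ≠ 0 := ((hR.monic i₀).map _).ne_zero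
      have hmemr : ∀ z, z ∈ rl ↔ eval₂ (res σ) z (P i₀) = 0 := by
        intro z
        rw [hrl, Multiset.mem_toList, mem_roots hP0, IsRoot.def, eval_map]
      have hnd : rl.Nodup := by
        rw [hrl, ← Multiset.coe_nodup, Multiset.coe_toList]
        exact nodup_roots (hR.sep i₀ σ)
      have hndl : (rl.map fun z => (i₀, z)).Nodup :=
        hnd.map fun a b h => congrArg Prod.snd h
      obtain ⟨L, l', hperm, hL⟩ := extract (Ltr.lab (P := P) (F := F))
        (rl.map fun z => (i₀, z)) l hndl (by
          intro k hk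
          obtain ⟨z, hz, rfl⟩ := List.mem_map.1 hk
          have h1 := hpos z ((hmemr z).1 hz)
          exact List.count_pos_iff.1 (by omega))
      have hLlen : 0 < L.length := by
        rw [← List.length_map (Ltr.lab), hL, List.length_map]
        exact List.length_pos_of_mem ((hmemr w₀).2 hw₀)
      have hlen : l'.length ≤ N := by
        have h1 := hperm.length_eq
        rw [List.length_append] at h1
        omega
      have hcount : ∀ x : I × ℂ, (l.map Ltr.lab).count x =
          (rl.map fun z => (i₀, z)).count x + (l'.map Ltr.lab).count x := by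
        intro x
        rw [(hperm.map _).count_eq, List.map_append, List.count_append, hL]
      have hc0 : ∀ (i : I) (z : ℂ), (i ≠ i₀ ∨ eval₂ (res σ) z (P i₀) ≠ 0) →
          (rl.map fun z => (i₀, z)).count (i, z) = 0 := by
        intro i z h
        rw [List.count_eq_zero]
        intro hmem
        obtain ⟨w, hw, hwe⟩ := List.mem_map.1 hmem
        obtain ⟨e1, e2⟩ := Prod.mk.inj hwe
        subst e1
        subst e2
        rcases h with h | h
        · exact h rfl
        · exact h ((hmemr w).1 hw)
      have hc1 : ∀ z : ℂ, eval₂ (res σ) z (P i₀) = 0 →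
          (rl.map fun z => (i₀, z)).count (i₀, z) = 1 := by
        intro z h
        refine List.count_eq_one_of_mem hndl ?_
        exact List.mem_map.2 ⟨z, (hmemr z).2 h, rfl⟩
      have hSB' : SB P q (l'.map Ltr.lab) := by
        intro i τ z₁ z₂ h₁ h₂
        have h0 := hSB i τ z₁ z₂ h₁ h₂
        have c1 := hcount (i, z₁)
        have c2 := hcount (i, z₂)
        have c3 := hcount (i, (q : ℂ) / z₁)
        have c4 := hcount (i, (q : ℂ) / z₂)
        obtain ⟨z1, d1⟩ := hR.dual i τ z₁ h₁
        obtain ⟨z2, d2⟩ := hR.dual i τ z₂ h₂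
        by_cases hi : i = i₀
        · subst hi
          by_cases hτ : τ = σ
          · subst hτ
            have k1 := hc1 z₁ h₁
            have k2 := hc1 z₂ h₂
            have k3 := hc0 i ((q : ℂ) / z₁) (Or.inr (hR.disj i _ τ (hR.cb_ne i τ) _ d1))
            have k4 := hc0 i ((q : ℂ) / z₂) (Or.inr (hR.disj i _ τ (hR.cb_ne i τ) _ d2))
            omega
          · have k1 := hc0 i z₁ (Or.inr (hR.disj i τ σ hτ _ h₁))
            have k2 := hc0 i z₂ (Or.inr (hR.disj i τ σ hτ _ h₂))
            by_cases hτ' : cb i τ = σ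
            · rw [hτ'] at d1 d2
              have k3 := hc1 _ d1
              have k4 := hc1 _ d2
              omega
            · have k3 := hc0 i ((q : ℂ) / z₁) (Or.inr (hR.disj i _ σ hτ' _ d1))
              have k4 := hc0 i ((q : ℂ) / z₂) (Or.inr (hR.disj i _ σ hτ' _ d2))
              omega
        · have k1 := hc0 i z₁ (Or.inl hi)
          have k2 := hc0 i z₂ (Or.inl hi)
          have k3 := hc0 i ((q : ℂ) / z₁) (Or.inl hi)
          have k4 := hc0 i ((q : ℂ) / z₂) (Or.inl hi)
          omega
      obtain ⟨l₁, l₂, p1, ⟨D, p2, p2'⟩, p3, p5, -⟩ := ih l' hlen hSB'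
      -- the determinant
      have hdet : IsDeterminant (P i₀) σ F (val L) := by
        have hex : ∀ z ∈ rl, ∃ a ∈ L, a.lab = (i₀, z) := by
          intro z hz
          have h1 : (i₀, z) ∈ L.map Ltr.lab := by
            rw [hL]
            exact List.mem_map.2 ⟨z, hz, rfl⟩
          exact List.mem_map.1 h1
        have hLnd : (L.map Ltr.lab).Nodup := by
          rw [hL]
          exact hndl
        refine ⟨fun z => if h : z ∈ rl then (hex z h).choose.v else 0, ?_, ?_⟩
        · intro z
          by_cases h : z ∈ rl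
          · simp only [h, dif_pos]
            have h1 := (hex z h).choose_spec.2
            have h2 : (hex z h).choose.z = z := congrArg Prod.snd h1
            have h3 := (hex z h).choose.eig
            rw [h2] at h3
            exact h3
          · simp only [h, dif_neg, not_false_eq_true, map_zero, smul_zero]
        · have key : ∀ (L' : List (Ltr P F)) (r' : List ℂ), L'.map Ltr.lab =
              (r'.map fun z => (i₀, z)) → (∀ a ∈ L', a ∈ L) → (∀ z ∈ r', z ∈ rl) →
              val L' = (r'.map fun z => ι ℂ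
                (if h : z ∈ rl then (hex z h).choose.v else 0)).prod := by
            intro L'
            induction L' with
            | nil =>
              intro r' h1 _ _
              have h2 : r' = [] := by
                rw [List.map_nil] at h1
                exact List.map_eq_nil_iff.1 h1.symm
              subst h2
              simp [val]
            | cons a L' ih' =>
              intro r' h1 h2 h3
              cases r' with
              | nil => simp at h1
              | cons z r' =>
                rw [List.map_cons, List.map_cons] at h1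
                obtain ⟨e1, e2⟩ := List.cons.inj h1
                have h4 := ih' r' e2 (fun b hb => h2 b (List.mem_cons_of_mem _ hb))
                  (fun w hw => h3 w (List.mem_cons_of_mem _ hw))
                have hzr : z ∈ rl := h3 z List.mem_cons_self
                have e3 : val (a :: L') = ι ℂ a.v * val L' := by simp [val]
                rw [e3, h4, List.map_cons, List.prod_cons]
                congr 2
                rw [dif_pos hzr]
                have h5 := (hex z hzr).choose_spec
                have h6 : a = (hex z hzr).choose := by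
                  refine List.inj_on_of_nodup_map hLnd (h2 a List.mem_cons_self) h5.1 ?_
                  rw [h5.2]
                  exact e1
                rw [← h6]
          exact key L rl hL (fun _ h => h) (fun _ h => h)
      refine ⟨L ++ l₁, l₂, ?_, ⟨val L :: D, ?_, ?_⟩, p3, p5,
        fun h => absurd (h i₀ σ₀ z₀ hz₀) hne₀⟩
      · rw [List.append_assoc]
        exact hperm.trans (p1.append_left L)
      · intro w hw
        rcases List.mem_cons.1 hw with rfl | hw
        · exact ⟨i₀, σ, hdet⟩
        · exact p2 w hw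
      · rw [val_append, p2', List.prod_cons]

/-- Tate classes are combinations of monomials which are Tate classes. -/
lemma mono_span (hspan : IsFrobeniusOfProduct P F) (n s : ℕ) (x : ExteriorAlgebra ℂ V)
    (hx : x ∈ ⋀[ℂ]^(2 * n) V) (hFx : ExteriorAlgebra.map (F ^ s) x = (((q : ℂ) ^ n) ^ s) • x)
    (A : Submodule ℂ (ExteriorAlgebra ℂ V))
    (hA : ∀ l : List (Ltr P F), l.length = 2 * n → pr l ^ s = ((q : ℂ) ^ n) ^ s → val l ∈ A) :
    x ∈ A := by
  classical
  set E' : Set V := {v : V | ∃ (i : I) (σ : K i →+* ℂ) (z : ℂ), eval₂ (res σ) z (P i) = 0 ∧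
    F v = z • v} with hs
  have hsp := exteriorPower.ιMulti_span_fixedDegree_of_span_eq_top ℂ (2 * n) V hspan
  set T : Set (ExteriorAlgebra ℂ V) :=
    {y | ∃ l : List (Ltr P F), l.length = 2 * n ∧ val l = y} with hT
  have hTspan : x ∈ Submodule.span ℂ T := by
    rw [← hsp] at hx
    refine Submodule.span_mono ?_ hx
    rintro _ ⟨a, ha, rfl⟩
    have h1 : ∀ j, ∃ b : Ltr P F, b.v = a j := by
      intro j
      obtain ⟨i, σ, z, h1, h2⟩ := ha ⟨j, rfl⟩
      exact ⟨⟨i, z, a j, ⟨σ, h1⟩, h2⟩, rfl⟩
    choose b hb using h1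
    refine ⟨List.ofFn b, by simp, ?_⟩
    rw [ExteriorAlgebra.ιMulti_apply, val, List.map_ofFn]
    congr 2
    funext j
    change ι ℂ (b j).v = _
    rw [hb]
  have hmem := Pool.Agent.H925R2.mem_span_eigen (ExteriorAlgebra.map (F ^ s)).toLinearMap T (by
    rintro t ⟨l, hl, rfl⟩
    exact ⟨_, val_map l s⟩) (((q : ℂ) ^ n) ^ s) x hTspan hFx
  refine Submodule.span_le.2 ?_ hmem
  rintro t ⟨⟨l, hl, rfl⟩, ht⟩
  by_cases h0 : val l = 0
  · rw [h0]; exact Submodule.zero_mem _
  refine hA l hl ?_
  have h1 : (pr l) ^ s • val l = ((q : ℂ) ^ n) ^ s • val l := (val_map l s).symm.trans ht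
  exact smul_left_injective ℂ h0 h1

open Classical in
/-- **Tate classes are polynomials in the classes of divisors and in the Weil classes.** -/
theorem tate_gen (hR : Rts P q cb) (hspan : IsFrobeniusOfProduct P F)
    (hSB : ∀ k : List (I × ℂ), (∀ x ∈ k, ∃ σ : K x.1 →+* ℂ, eval₂ (res σ) x.2 (P x.1) = 0) →
      ∀ t : ℕ, 0 < t → ∀ c : ℕ, 0 < c → (k.map fun x => x.2 ^ t).prod = (c : ℂ) → SB P q k)
    {n : ℕ} {x : ExteriorAlgebra ℂ V} (hx : IsTateClass F q n x) :
    x ∈ Algebra.adjoin ℂ (divisorClasses F q ∪ weilClasses P F q) := by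
  obtain ⟨hx1, s, hs, hx2⟩ := hx
  have hq0 : (q : ℂ) ≠ 0 := by exact_mod_cast hR.q_pos.ne'
  refine mono_span hspan n s x hx1 hx2
    (Subalgebra.toSubmodule (Algebra.adjoin ℂ (divisorClasses F q ∪ weilClasses P F q))) ?_
  intro l hl hpr
  change val l ∈ Algebra.adjoin ℂ (divisorClasses F q ∪ weilClasses P F q)
  have h1 : SB P q (l.map Ltr.lab) := by
    refine hSB _ ?_ s hs ((q ^ n) ^ s) (pow_pos (pow_pos hR.q_pos n) s) ?_
    · intro y hy
      obtain ⟨a, -, rfl⟩ := List.mem_map.1 hy
      exact a.root
    · have e1 : ∀ k : List (Ltr P F), ((k.map Ltr.lab).map fun x : I × ℂ => x.2 ^ s).prod =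
          pr k ^ s := by
        intro k
        induction k with
        | nil => simp [pr]
        | cons a k ih =>
          have e2 : pr (a :: k) = a.z * pr k := by simp [pr]
          rw [List.map_cons, List.map_cons, List.prod_cons, ih, e2, mul_pow]
          rfl
      rw [e1, hpr]
      push_cast
      rfl
  obtain ⟨l₁, l₂, hperm, ⟨L, hL, hL'⟩, ⟨n₂, hn₂, hp₂⟩, hv₂, -⟩ :=
    decomp hR l.length l le_rfl h1
  obtain ⟨ε, hε⟩ := val_perm hperm
  rw [hε, val_append]
  have hv₂' : val l₂ ∈ Algebra.adjoin ℂ (divisorClasses F q ∪ weilClasses P F q) :=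
    Algebra.adjoin_mono Set.subset_union_left hv₂
  suffices hw : val l₁ ∈ weilClasses P F q from
    Subalgebra.smul_mem _ (Subalgebra.mul_mem _
      (Algebra.subset_adjoin (Set.mem_union_right _ hw)) hv₂') _
  refine ⟨?_, L, hL, hL'⟩
  have hlen := hperm.length_eq
  rw [List.length_append, hl, hn₂] at hlen
  refine ⟨n - n₂, ?_, s, hs, ?_⟩
  · have h2 : 2 * (n - n₂) = l₁.length := by omega
    rw [h2]
    exact val_mem l₁
  · rw [val_map]
    congr 1
    have h2 := pr_perm hperm
    rw [pr_append, hp₂] at h2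
    rw [h2, mul_pow] at hpr
    have h3 : n = (n - n₂) + n₂ := by omega
    have h4 : (((q : ℂ) ^ n) ^ s) = ((q : ℂ) ^ (n - n₂)) ^ s * ((q : ℂ) ^ n₂) ^ s := by
      rw [← mul_pow, ← pow_add, ← h3]
    rw [h4] at hpr
    exact mul_right_cancel₀ (pow_ne_zero _ (pow_ne_zero _ hq0)) hpr

open Classical in
/-- **Tate classes are polynomials in the classes of divisors, if all relations are balanced.** -/
theorem tate_div (hR : Rts P q cb) (hspan : IsFrobeniusOfProduct P F)
    (hB : ∀ k : List (I × ℂ), (∀ x ∈ k, ∃ σ : K x.1 →+* ℂ, eval₂ (res σ) x.2 (P x.1) = 0) →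
      ∀ t : ℕ, 0 < t → ∀ c : ℕ, 0 < c → (k.map fun x => x.2 ^ t).prod = (c : ℂ) →
        ∀ i (σ : K i →+* ℂ) (z : ℂ), eval₂ (res σ) z (P i) = 0 →
          k.count (i, z) = k.count (i, (q : ℂ) / z))
    {n : ℕ} {x : ExteriorAlgebra ℂ V} (hx : IsTateClass F q n x) :
    x ∈ Algebra.adjoin ℂ (divisorClasses F q) := by
  obtain ⟨hx1, s, hs, hx2⟩ := hx
  refine mono_span hspan n s x hx1 hx2
    (Subalgebra.toSubmodule (Algebra.adjoin ℂ (divisorClasses F q))) ?_
  intro l hl hpr
  change val l ∈ Algebra.adjoin ℂ (divisorClasses F q)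
  have h0 := hB (l.map Ltr.lab) (by
    intro y hy
    obtain ⟨a, -, rfl⟩ := List.mem_map.1 hy
    exact a.root) s hs ((q ^ n) ^ s) (pow_pos (pow_pos hR.q_pos n) s) (by
    have e1 : ∀ k : List (Ltr P F), ((k.map Ltr.lab).map fun x : I × ℂ => x.2 ^ s).prod =
        pr k ^ s := by
      intro k
      induction k with
      | nil => simp [pr]
      | cons a k ih =>
        have e2 : pr (a :: k) = a.z * pr k := by simp [pr]
        rw [List.map_cons, List.map_cons, List.prod_cons, ih, e2, mul_pow]
        rfl
    rw [e1, hpr]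
    push_cast
    rfl)
  have h1 : SB P q (l.map Ltr.lab) := by
    intro i σ z₁ z₂ k1 k2
    have e1 := h0 i σ z₁ k1
    have e2 := h0 i σ z₂ k2
    omega
  obtain ⟨l₁, l₂, hperm, -, -, hv₂, hnil⟩ := decomp hR l.length l le_rfl h1
  obtain ⟨ε, hε⟩ := val_perm hperm
  rw [hnil h0, List.nil_append] at hε
  rw [hε]
  exact Subalgebra.smul_mem _ hv₂ _

end Ext

end Pool.Agent.K1H12.UN
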