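import Pool.Agent.K1H12.UN.Defs
import Pool.Agent.W338.MF.NT

/-!
# Frobenius elements and the roots of polynomials over number fields
-/

set_option autoImplicit false

open Polynomial NumberField

namespace Pool.Agent.K1H12.UN

open Pool.Agent.W521.Frob Pool.Agent.W458.MF

section Prime

variable {k : Type*} [Field k] {l : ℕ} [Fact l.Prime] [CharP k l]

/-- The homomorphism from the prime field. -/
noncomputable def psi (k : Type*) [Field k] (l : ℕ) [Fact l.Prime] [CharP k l] : ZMod l →+* k :=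
  ZMod.castHom dvd_rfl k

lemma psi_inj : Function.Injective (psi k l) := (psi k l).injective

lemma psi_pow (x : ZMod l) : psi k l x ^ l = psi k l x := by
  rw [← map_pow, ZMod.pow_card]

lemma mem_psi {y : k} (hy : y ^ l = y) : ∃ x : ZMod l, psi k l x = y := by
  have h1 : y ∈ (⊥ : Subfield k) := (Subfield.mem_bot_iff_pow_eq_self k l).2 hy
  rw [← ZMod.fieldRange_castHom_eq_bot l] at h1
  exact h1

/-- A homomorphism whose values are in the prime field. -/
lemma exists_lift {R : Type*} [CommRing R] (ρ : R →+* k) (h : ∀ x, ρ x ^ l = ρ x) :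
    ∃ φ : R →+* ZMod l, (psi k l).comp φ = ρ := by
  have hr : ∀ x, ρ x ∈ (psi k l).range := fun x => by
    obtain ⟨y, hy⟩ := mem_psi (h x)
    exact ⟨y, hy⟩
  let e : ZMod l ≃+* (psi k l).range := RingEquiv.ofBijective (psi k l).rangeRestrict
    ⟨fun a b hab => psi_inj (congrArg Subtype.val hab), (psi k l).rangeRestrict_surjective⟩
  refine ⟨(e.symm : (psi k l).range →+* ZMod l).comp (ρ.codRestrict (psi k l).range hr), ?_⟩
  ext x
  have h1 : e (e.symm (ρ.codRestrict (psi k l).range hr x)) =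
      ρ.codRestrict (psi k l).range hr x := e.apply_symm_apply _
  exact congrArg Subtype.val h1

/-- Two roots of an irreducible polynomial over the prime field are conjugate by a power of the
Frobenius automorphism. -/
lemma conj_roots {e : (ZMod l)[X]} (he : Irreducible e) {s s' : k}
    (hs : (e.map (psi k l)).eval s = 0) (hs' : (e.map (psi k l)).eval s' = 0) :
    ∃ n : ℕ, s ^ l ^ n = s' := by
  letI : Algebra (ZMod l) k := (psi k l).toAlgebra
  have hs1 : aeval s e = 0 := by
    rw [eval_map] at hs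
    exact hs
  have hs1' : aeval s' e = 0 := by
    rw [eval_map] at hs'
    exact hs'
  have hi : IsIntegral (ZMod l) s := by
    rw [← isAlgebraic_iff_isIntegral]
    exact ⟨e, he.ne_zero, hs1⟩
  have hi' : IsIntegral (ZMod l) s' := by
    rw [← isAlgebraic_iff_isIntegral]
    exact ⟨e, he.ne_zero, hs1'⟩
  let F : IntermediateField (ZMod l) k := IntermediateField.adjoin (ZMod l) {s, s'}
  have hfd : FiniteDimensional (ZMod l) F := by
    refine IntermediateField.finiteDimensional_adjoin ?_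
    rintro x (rfl | rfl)
    · exact hi
    · exact hi'
  have hfin : Finite F := Module.finite_of_finite (ZMod l)
  have hsF : s ∈ F := IntermediateField.subset_adjoin _ _ (Or.inl rfl)
  have hsF' : s' ∈ F := IntermediateField.subset_adjoin _ _ (Or.inr rfl)
  have hz : aeval (⟨s, hsF⟩ : F) e = 0 := by
    apply F.val.injective
    exact (Polynomial.aeval_algHom_apply F.val (⟨s, hsF⟩ : F) e).symm.trans
      (hs1.trans (map_zero _).symm)
  have hz' : aeval (⟨s', hsF'⟩ : F) e = 0 := by
    apply F.val.injective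
    exact (Polynomial.aeval_algHom_apply F.val (⟨s', hsF'⟩ : F) e).symm.trans
      (hs1'.trans (map_zero _).symm)
  have hm : minpoly (ZMod l) (⟨s, hsF⟩ : F) = e * C e.leadingCoeff⁻¹ :=
    (minpoly.eq_of_irreducible he hz).symm
  have hm' : minpoly (ZMod l) (⟨s', hsF'⟩ : F) = e * C e.leadingCoeff⁻¹ :=
    (minpoly.eq_of_irreducible he hz').symm
  obtain ⟨τ, hτ⟩ := isConjRoot_iff_exists_algEquiv.1
    (hm'.trans hm.symm : IsConjRoot (ZMod l) (⟨s', hsF'⟩ : F) ⟨s, hsF⟩)
  obtain ⟨n, hn⟩ := (FiniteField.bijective_frobeniusAlgEquivOfAlgebraic_pow (ZMod l) F).2 τ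
  refine ⟨n, ?_⟩
  have h1 : ∀ (m : ℕ) (x : F), ((FiniteField.frobeniusAlgEquivOfAlgebraic (ZMod l) F) ^ m) x =
      x ^ l ^ m := by
    intro m x
    induction m with
    | zero => simp
    | succ m ih =>
      rw [pow_succ', AlgEquiv.mul_apply, ih, FiniteField.coe_frobeniusAlgEquivOfAlgebraic]
      simp only [ZMod.card]
      rw [← pow_mul, ← pow_succ]
  have h2 := h1 n ⟨s, hsF⟩
  have h3 : (FiniteField.frobeniusAlgEquivOfAlgebraic (ZMod l) F ^ (n : ℕ)) ⟨s, hsF⟩ =
      ⟨s', hsF'⟩ := by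
    rw [← hτ]
    exact congrArg (fun τ : Gal(F/ZMod l) => τ ⟨s, hsF⟩) hn
  rw [h3] at h2
  exact (congrArg Subtype.val h2).symm

end Prime

section Ring

/-- Two roots of a polynomial in a domain with the same image in a field in which the image of the
polynomial is separable are equal. -/
theorem eq_of_map_eq' {R k : Type*} [CommRing R] [IsDomain R] [Field k] (φ : R →+* k) (H : R[X])
    (hsep : (H.map φ).Separable) (t t' : R) (e1 : H.eval t = 0)
    (e2 : H.eval t' = 0) (hφ : φ t = φ t') : t = t' := by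
  by_contra hne
  obtain ⟨c, hc⟩ := H.binomExpansion t (t' - t)
  rw [add_sub_cancel, e1, e2, zero_add] at hc
  have hd : t' - t ≠ 0 := sub_ne_zero.2 (Ne.symm hne)
  have h1 : H.derivative.eval t + c * (t' - t) = 0 := by
    have h2 : (t' - t) * (H.derivative.eval t + c * (t' - t)) = 0 := by
      linear_combination (-1 : R) * hc
    exact (mul_eq_zero.1 h2).resolve_left hd
  have h2 : φ (H.derivative.eval t) = 0 := by
    have h3 := congrArg φ h1
    rw [map_add, map_mul, map_sub, hφ, sub_self, mul_zero, add_zero, map_zero] at h3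
    exact h3
  have h3 : (H.map φ).eval (φ t) = 0 := by
    rw [eval_map, Polynomial.eval₂_at_apply, e1, map_zero]
  have h4 : (H.map φ).derivative.eval (φ t) = 0 := by
    rw [derivative_map, eval_map, Polynomial.eval₂_at_apply]
    exact h2
  exact hsep.eval₂_derivative_ne_zero (RingHom.id k) h3 h4

end Ring

section Frob

variable {K L : Type} [Field K] [NumberField K] [Field L] [NumberField L]

/-- The homomorphism of the rings of integers. -/
noncomputable def ro (σ : K →+* L) : 𝓞 K →+* 𝓞 L := RingOfIntegers.mapRingHom σ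

omit [NumberField K] [NumberField L] in
lemma ro_coe (σ : K →+* L) (x : 𝓞 K) : ((ro σ x : 𝓞 L) : L) = res σ x := rfl

/-- The roots of the image of `P` under `σ`. -/
def Om (P : (𝓞 K)[X]) (σ : K →+* L) : Set (𝓞 L) := {w | (P.map (ro σ)).eval w = 0}

lemma om_coe {P : (𝓞 K)[X]} {σ : K →+* L} {w : 𝓞 L} :
    w ∈ Om P σ ↔ eval₂ (res σ) (w : L) P = 0 := by
  have h : eval₂ (res σ) (w : L) P = ((P.map (ro σ)).eval w : 𝓞 L) := by
    rw [eval_map]
    exact (Polynomial.hom_eval₂ P (ro σ) (algebraMap (𝓞 L) L) w).symm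
  rw [h]
  constructor
  · intro h1
    rw [show (P.map (ro σ)).eval w = 0 from h1]
    rfl
  · intro h1
    exact RingOfIntegers.coe_injective h1

/-- Roots are integral. -/
lemma exists_om {P : (𝓞 K)[X]} (hP : P.Monic) {σ : K →+* L} {z : L}
    (hz : eval₂ (res σ) z P = 0) : ∃ w : 𝓞 L, (w : L) = z ∧ w ∈ Om P σ := by
  have h1 : IsIntegral (𝓞 L) z := by
    refine ⟨P.map (ro σ), hP.map _, ?_⟩
    rw [eval₂_map]
    exact hz
  have h2 : IsIntegral ℤ z := isIntegral_trans z h1
  refine ⟨⟨z, h2⟩, rfl, ?_⟩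
  rw [om_coe]
  exact hz

variable {k : Type} [Field k] {l : ℕ} [Fact l.Prime] [CharP k l] {Φ : 𝓞 L →+* k} {g : Gal(L/ℚ)}

lemma smul_coe (g : Gal(L/ℚ)) (x : 𝓞 L) : ((g • x : 𝓞 L) : L) = g (x : L) := rfl

/-- The Frobenius element fixes the roots of polynomials which split modulo `l`. -/
lemma frob_fix (hg : ∀ x : 𝓞 L, Φ (g • x) = Φ x ^ l) {D : ℤ[X]} (hD : SplitsMod D l) {x : 𝓞 L}
    (hx : aeval x D = 0) : g • x = x := by
  obtain ⟨T, hT⟩ := hD
  have hm : D.map (Int.castRingHom k) = ∏ t ∈ T, (X - C (psi k l t)) := by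
    rw [← RingHom.ext_int ((psi k l).comp (Int.castRingHom (ZMod l))) (Int.castRingHom k),
      ← Polynomial.map_map, hT, Polynomial.map_prod]
    refine Finset.prod_congr rfl fun t _ => ?_
    rw [Polynomial.map_sub, map_X, map_C]
  have hsep : (D.map (Int.castRingHom k)).Separable := by
    rw [hm]
    refine separable_prod_X_sub_C_iff'.2 ?_
    intro a _ b _ hab
    exact psi_inj hab
  have hgx : aeval (g • x) D = 0 := by
    have h1 : aeval (MulSemiringAction.toRingHom Gal(L/ℚ) (𝓞 L) g x) D =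
        MulSemiringAction.toRingHom Gal(L/ℚ) (𝓞 L) g (aeval x D) := by
      change eval₂ _ _ _ = (MulSemiringAction.toRingHom Gal(L/ℚ) (𝓞 L) g) (eval₂ _ _ _)
      rw [Polynomial.hom_eval₂]
      congr 1
      exact RingHom.ext_int _ _
    rw [hx, map_zero] at h1
    exact h1
  refine eq_of_map_eq Φ D hsep _ _ hgx hx ?_
  rw [hg]
  have h1 : (D.map (Int.castRingHom k)).eval (Φ x) = 0 := by
    have h2 : Φ (eval₂ (Int.castRingHom (𝓞 L)) x D) = 0 := by
      have h3 : eval₂ (Int.castRingHom (𝓞 L)) x D = aeval x D := rfl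
      rw [h3, hx, map_zero]
    rw [Polynomial.hom_eval₂] at h2
    rw [eval_map]
    rwa [RingHom.ext_int (Φ.comp (Int.castRingHom (𝓞 L))) (Int.castRingHom k)] at h2
  rw [hm, eval_prod, Finset.prod_eq_zero_iff] at h1
  obtain ⟨s, -, hs⟩ := h1
  rw [eval_sub, eval_X, eval_C, sub_eq_zero] at hs
  rw [hs, psi_pow]

variable {P : (𝓞 K)[X]} {σ : K →+* L} {φ : 𝓞 K →+* ZMod l}

lemma om_smul (hgσ : ∀ x : 𝓞 K, g • ro σ x = ro σ x) {w : 𝓞 L} (hw : w ∈ Om P σ) :
    g • w ∈ Om P σ := by
  have h1 : (P.map (ro σ)).eval (MulSemiringAction.toRingHom Gal(L/ℚ) (𝓞 L) g w) =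
      MulSemiringAction.toRingHom Gal(L/ℚ) (𝓞 L) g ((P.map (ro σ)).eval w) := by
    rw [eval_map, eval_map, Polynomial.hom_eval₂]
    congr 1
    ext x
    exact congrArg _ (hgσ x).symm
  rw [show (P.map (ro σ)).eval w = 0 from hw, map_zero] at h1
  exact h1

lemma map_map_eq (hφ : (psi k l).comp φ = Φ.comp (ro σ)) :
    (P.map (ro σ)).map Φ = (P.map φ).map (psi k l) := by
  rw [Polynomial.map_map, Polynomial.map_map, hφ]

lemma om_root (hφ : (psi k l).comp φ = Φ.comp (ro σ)) {w : 𝓞 L} (hw : w ∈ Om P σ) :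
    ((P.map φ).map (psi k l)).eval (Φ w) = 0 := by
  rw [← map_map_eq hφ, eval_map, Polynomial.eval₂_at_apply,
    show (P.map (ro σ)).eval w = 0 from hw, map_zero]

lemma om_inj (hφ : (psi k l).comp φ = Φ.comp (ro σ)) (hsep : (P.map φ).Separable) {w w' : 𝓞 L}
    (hw : w ∈ Om P σ) (hw' : w' ∈ Om P σ) (h : Φ w = Φ w') : w = w' := by
  refine eq_of_map_eq' Φ (P.map (ro σ)) ?_ w w' hw hw' h
  rw [map_map_eq hφ]
  exact hsep.map

/-- A polynomial over the ring of integers of `L` which splits over `L` splits over the ring of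
integers. -/
lemma splits_int {F : (𝓞 L)[X]} (hF : F.Monic) (hs : (F.map (algebraMap (𝓞 L) L)).Splits) :
    ∃ R' : Multiset (𝓞 L), F = (R'.map (fun a => X - C a)).prod := by
  have hlift : ∀ R : Multiset L, (∀ x ∈ R, IsIntegral ℤ x) →
      ∃ R' : Multiset (𝓞 L), R'.map (algebraMap (𝓞 L) L) = R := by
    intro R
    induction R using Multiset.induction_on with
    | empty => exact fun _ => ⟨0, rfl⟩
    | cons a s ih =>
      intro hR
      obtain ⟨R', hR'⟩ := ih fun x hx => hR x (Multiset.mem_cons_of_mem hx)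
      obtain ⟨a', ha'⟩ : ∃ a' : 𝓞 L, algebraMap (𝓞 L) L a' = a :=
        ⟨⟨a, hR a (Multiset.mem_cons_self a s)⟩, rfl⟩
      refine ⟨a' ::ₘ R', ?_⟩
      rw [Multiset.map_cons, hR', ha']
  obtain ⟨R', hR'⟩ := hlift (F.map (algebraMap (𝓞 L) L)).roots (by
    intro x hx
    have h1 := (mem_roots'.1 hx).2
    rw [IsRoot.def, eval_map] at h1
    exact isIntegral_trans x (⟨F, hF, h1⟩ : IsIntegral (𝓞 L) x))
  refine ⟨R', ?_⟩
  apply Polynomial.map_injective (algebraMap (𝓞 L) L) RingOfIntegers.coe_injective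
  conv_lhs => rw [hs.eq_prod_roots_of_monic (hF.map _)]
  rw [← hR', Polynomial.map_multiset_prod, Multiset.map_map, Multiset.map_map]
  congr 1
  refine Multiset.map_congr rfl fun x _ => ?_
  simp

lemma om_surj (hP : P.Monic) (hs : (P.map (res σ)).Splits)
    (hφ : (psi k l).comp φ = Φ.comp (ro σ)) {s : k}
    (h : ((P.map φ).map (psi k l)).eval s = 0) : ∃ w ∈ Om P σ, Φ w = s := by
  have e1 : P.map (res σ) = (P.map (ro σ)).map (algebraMap (𝓞 L) L) := by
    rw [Polynomial.map_map]
    rfl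
  rw [e1] at hs
  obtain ⟨R', hR'⟩ := splits_int (hP.map (ro σ)) hs
  have h4 : (P.map (ro σ)).map Φ = (R'.map (fun a => X - C (Φ a))).prod := by
    rw [hR', Polynomial.map_multiset_prod, Multiset.map_map]
    congr 1
    refine Multiset.map_congr rfl fun x _ => ?_
    simp
  rw [← map_map_eq hφ, h4, eval_multiset_prod, Multiset.map_map, Multiset.prod_eq_zero_iff,
    Multiset.mem_map] at h
  obtain ⟨t, ht, ht2⟩ := h
  refine ⟨t, ?_, ?_⟩
  · change (P.map (ro σ)).eval t = 0
    rw [hR', eval_multiset_prod, Multiset.map_map]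
    refine Multiset.prod_eq_zero (Multiset.mem_map.2 ⟨t, ht, ?_⟩)
    simp
  · simp only [Function.comp_apply, eval_sub, eval_X, eval_C] at ht2
    exact (sub_eq_zero.1 ht2).symm

/-- The reduction of the image of a polynomial which splits. -/
lemma splits_red (hP : P.Monic) (hs : (P.map (res σ)).Splits)
    (hφ : (psi k l).comp φ = Φ.comp (ro σ)) : ((P.map φ).map (psi k l)).Splits := by
  have e1 : P.map (res σ) = (P.map (ro σ)).map (algebraMap (𝓞 L) L) := by
    rw [Polynomial.map_map]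
    rfl
  rw [e1] at hs
  obtain ⟨R', hR'⟩ := splits_int (hP.map (ro σ)) hs
  rw [← map_map_eq hφ, hR', Polynomial.map_multiset_prod, Multiset.map_map]
  refine Polynomial.Splits.multisetProd ?_
  intro f hf
  obtain ⟨a, -, rfl⟩ := Multiset.mem_map.1 hf
  simp only [Function.comp_apply, Polynomial.map_sub, map_X, map_C]
  exact Polynomial.Splits.X_sub_C _

end Frob

end Pool.Agent.K1H12.UN
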