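import Pool.Agent.K1H12.UN.Pat
import Pool.Agent.W928.MF.NT2

/-!
# Embeddings of number fields and Frobenius elements
-/

set_option autoImplicit false

open Polynomial NumberField

namespace Pool.Agent.K1H12.UN

open Pool.Agent.W521.Frob Pool.Agent.W458.MF

/-- The multiples of all integers by `M` are polynomials in `θ`. -/
def IsGen {K : Type} [Field K] (θ : 𝓞 K) (M : ℕ) : Prop :=
  M ≠ 0 ∧ ∀ x : 𝓞 K, ∃ u : ℤ[X], (M : 𝓞 K) * x = aeval θ u

section Gen

variable {K : Type} [Field K] {θ : 𝓞 K} {M : ℕ}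

lemma hom_aeval {R A : Type*} [CommRing R] [CommRing A] (ρ : R →+* A) (x : R) (u : ℤ[X]) :
    ρ (aeval x u) = aeval (ρ x) u := by
  change ρ (eval₂ _ _ _) = eval₂ _ _ _
  rw [Polynomial.hom_eval₂]
  congr 1
  exact RingHom.ext_int _ _

lemma IsGen.hom_ext (hθ : IsGen θ M) {A : Type*} [CommRing A] [IsDomain A] {ρ₁ ρ₂ : 𝓞 K →+* A}
    (hM : (M : A) ≠ 0) (h : ρ₁ θ = ρ₂ θ) : ρ₁ = ρ₂ := by
  ext x
  obtain ⟨u, hu⟩ := hθ.2 x
  apply mul_left_cancel₀ hM
  have h1 := congrArg ρ₁ hu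
  have h2 := congrArg ρ₂ hu
  rw [map_mul, map_natCast, hom_aeval] at h1 h2
  rw [h1, h2, h]

lemma IsGen.emb_ext [NumberField K] (hθ : IsGen θ M) {A : Type*} [Field A] [CharZero A] {σ τ : K →+* A}
    (h : res σ θ = res τ θ) : σ = τ := by
  have h1 : res σ = res τ := hθ.hom_ext (by exact_mod_cast hθ.1) h
  refine IsLocalization.ringHom_ext (nonZeroDivisors (𝓞 K)) ?_
  exact h1

/-- The minimal polynomial of the generator. -/
noncomputable def gp (θ : 𝓞 K) : ℤ[X] := minpoly ℤ θ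

lemma gp_monic (θ : 𝓞 K) : (gp θ).Monic :=
  minpoly.monic (RingOfIntegers.isIntegral θ)

lemma gp_root (θ : 𝓞 K) : aeval θ (gp θ) = 0 := minpoly.aeval ℤ θ

lemma gp_irr [NumberField K] (θ : 𝓞 K) : Irreducible ((gp θ).map (Int.castRingHom ℚ)) := by
  have h1 : (minpoly ℤ θ) = minpoly ℤ (θ : K) :=
    (minpoly.algebraMap_eq (RingOfIntegers.coe_injective) θ).symm
  have h2 : (minpoly ℤ (θ : K)).map (Int.castRingHom ℚ) = minpoly ℚ (θ : K) := by
    rw [minpoly.isIntegrallyClosed_eq_field_fractions' ℚ (RingOfIntegers.isIntegral_coe θ)]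
    rfl
  rw [gp, h1, h2]
  exact minpoly.irreducible (Algebra.IsIntegral.isIntegral _)

lemma gp_root' {A : Type*} [CommRing A] (ρ : 𝓞 K →+* A) (θ : 𝓞 K) : aeval (ρ θ) (gp θ) = 0 := by
  rw [← hom_aeval, gp_root, map_zero]

end Gen

section Emb

variable {K L : Type} [Field K] [NumberField K] [Field L] [NumberField L] [IsGalois ℚ L]
  {θ : 𝓞 K} {M : ℕ}

/-- The Galois group acts transitively on the embeddings. -/
lemma exists_gal (hθ : IsGen θ M) (σ τ : K →+* L) :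
    ∃ g : Gal(L/ℚ), ((g : L ≃+* L) : L →+* L).comp σ = τ := by
  obtain ⟨g, hg⟩ := W928.MF.exists_perm (gp_monic θ) (gp_irr θ) L (res σ θ) (res τ θ)
    (gp_root' _ θ) (gp_root' _ θ)
  refine ⟨g, hθ.emb_ext ?_⟩
  exact hg

omit [IsGalois ℚ L] in
/-- The composition of an embedding with a Galois automorphism. -/
lemma comp_res (g : Gal(L/ℚ)) (σ : K →+* L) (x : 𝓞 K) :
    res (((g : L ≃+* L) : L →+* L).comp σ) x = g (res σ x) := rfl

end Emb

section Prime

variable {K L : Type} [Field K] [NumberField K] [Field L] [NumberField L] [IsGalois ℚ L]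
  {θ : 𝓞 K} {M : ℕ} {k : Type} [Field k] {l : ℕ} [Fact l.Prime] [CharP k l] {Φ : 𝓞 L →+* k}
  {g : Gal(L/ℚ)}

omit [IsGalois ℚ L] in
/-- The Frobenius element fixes the images of `K`. -/
lemma frob_emb (hg : ∀ x : 𝓞 L, Φ (g • x) = Φ x ^ l) (hθ : IsGen θ M) (hD : SplitsMod (gp θ) l)
    (σ : K →+* L) (x : 𝓞 K) : g • ro σ x = ro σ x := by
  have h1 : (MulSemiringAction.toRingHom Gal(L/ℚ) (𝓞 L) g).comp (ro σ) = ro σ := by
    refine hθ.hom_ext ?_ ?_
    · exact_mod_cast hθ.1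
    · exact frob_fix hg hD (gp_root' (ro σ) θ)
  exact congrArg (fun ρ : 𝓞 K →+* 𝓞 L => ρ x) h1

omit [IsGalois ℚ L] in
/-- The homomorphism to the prime field which belongs to an embedding. -/
lemma exists_phi (hg : ∀ x : 𝓞 L, Φ (g • x) = Φ x ^ l) (hθ : IsGen θ M)
    (hD : SplitsMod (gp θ) l) (σ : K →+* L) :
    ∃ φ : 𝓞 K →+* ZMod l, (psi k l).comp φ = Φ.comp (ro σ) := by
  refine exists_lift _ fun x => ?_
  change Φ (ro σ x) ^ l = Φ (ro σ x)
  rw [← hg, frob_emb hg hθ hD]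

omit [NumberField L] [IsGalois ℚ L] [NumberField K] in
lemma splits_gp_sep (hD : SplitsMod (gp θ) l) : ((gp θ).map (Int.castRingHom k)).Separable := by
  obtain ⟨T, hT⟩ := hD
  have hm : (gp θ).map (Int.castRingHom k) = ∏ t ∈ T, (X - C (psi k l t)) := by
    rw [← RingHom.ext_int ((psi k l).comp (Int.castRingHom (ZMod l))) (Int.castRingHom k),
      ← Polynomial.map_map, hT, Polynomial.map_prod]
    refine Finset.prod_congr rfl fun t _ => ?_
    rw [Polynomial.map_sub, map_X, map_C]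
  rw [hm]
  refine separable_prod_X_sub_C_iff'.2 ?_
  intro a _ b _ hab
  exact psi_inj hab

omit [IsGalois ℚ L] in
/-- Different embeddings have different reductions. -/
lemma emb_inj (hθ : IsGen θ M) (hD : SplitsMod (gp θ) l) {σ τ : K →+* L}
    (h : Φ.comp (ro σ) = Φ.comp (ro τ)) : σ = τ := by
  refine hθ.emb_ext ?_
  have h1 : ro σ θ = ro τ θ := by
    refine eq_of_map_eq Φ (gp θ) (splits_gp_sep hD) _ _ (gp_root' _ θ) (gp_root' _ θ) ?_
    exact congrArg (fun ρ : 𝓞 K →+* k => ρ θ) h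
  exact congrArg (fun x : 𝓞 L => (x : L)) h1

/-- Every homomorphism to the prime field belongs to an embedding. -/
lemma exists_emb (hg : ∀ x : 𝓞 L, Φ (g • x) = Φ x ^ l) (hθ : IsGen θ M)
    (hD : SplitsMod (gp θ) l) (hM : ¬ l ∣ M) (σ₀ : K →+* L) (φ : 𝓞 K →+* ZMod l) :
    ∃ σ : K →+* L, (psi k l).comp φ = Φ.comp (ro σ) := by
  obtain ⟨φ₀, hφ₀⟩ := exists_phi (k := k) hg hθ hD σ₀
  have hs : (((gp θ).map (algebraMap ℤ (𝓞 K))).map (res σ₀)).Splits := by
    have e1 : ((gp θ).map (algebraMap ℤ (𝓞 K))).map (res σ₀) =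
        (minpoly ℚ (res σ₀ θ)).map (algebraMap ℚ L) := by
      have e2 : minpoly ℚ (res σ₀ θ) = (gp θ).map (Int.castRingHom ℚ) := by
        refine (minpoly.eq_of_irreducible_of_monic (gp_irr θ) ?_ ((gp_monic θ).map _)).symm
        rw [aeval_def, eval₂_map, RingHom.ext_int ((algebraMap ℚ L).comp _) (algebraMap ℤ L)]
        exact gp_root' _ θ
      rw [e2, Polynomial.map_map, Polynomial.map_map]
      congr 1
      exact RingHom.ext_int _ _
    rw [e1]
    exact Normal.splits inferInstance _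
  obtain ⟨w, hw, hΦw⟩ := om_surj (P := (gp θ).map (algebraMap ℤ (𝓞 K))) ((gp_monic θ).map _) hs
    hφ₀ (s := psi k l (φ θ)) (by
      rw [Polynomial.map_map, Polynomial.map_map]
      have e1 : (((psi k l).comp φ₀).comp (algebraMap ℤ (𝓞 K))) =
          (((psi k l).comp φ).comp (algebraMap ℤ (𝓞 K))) := RingHom.ext_int _ _
      rw [eval_map]
      have e2 : eval₂ (((psi k l).comp φ).comp (algebraMap ℤ (𝓞 K))) (psi k l (φ θ)) (gp θ) =
          ((psi k l).comp φ) (aeval θ (gp θ)) := by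
        rw [aeval_def, Polynomial.hom_eval₂]
        rfl
      rw [e1, e2, gp_root, map_zero])
  have hw' : aeval w (gp θ) = 0 := by
    have h1 : (((gp θ).map (algebraMap ℤ (𝓞 K))).map (ro σ₀)).eval w = 0 := hw
    rw [Polynomial.map_map, eval_map] at h1
    rw [aeval_def, ← h1]
    congr 1
    exact RingHom.ext_int _ _
  obtain ⟨τ, hτ⟩ := W928.MF.exists_perm (gp_monic θ) (gp_irr θ) L (res σ₀ θ) (w : L)
    (gp_root' _ θ) (by
      have h2 := hom_aeval (algebraMap (𝓞 L) L) w (gp θ)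
      rw [hw', map_zero] at h2
      exact h2.symm)
  refine ⟨((τ : L ≃+* L) : L →+* L).comp σ₀, ?_⟩
  refine hθ.hom_ext ?_ ?_
  · rw [Ne, CharP.cast_eq_zero_iff k l]
    exact hM
  · change psi k l (φ θ) = Φ (ro (((τ : L ≃+* L) : L →+* L).comp σ₀) θ)
    rw [← hΦw]
    congr 1
    apply RingOfIntegers.coe_injective
    exact hτ.symm

end Prime

end Pool.Agent.K1H12.UN
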