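import Mathlib

/-!
# Matrices over finite fields with given determinant and characteristic polynomial
-/

set_option autoImplicit false

open Polynomial Matrix

namespace Pool.Agent.K1H12.UN

section Cyc

variable {F : Type} [Field F]

/-- A matrix with a given characteristic polynomial and a cyclic vector. -/
lemma exists_cyclic {r : ℕ} {f : F[X]} (hf : f.Monic) (hr : f.natDegree = r) :
    ∃ (C : Matrix (Fin r) (Fin r) F) (v : Fin r → F), C.charpoly = f ∧
      ∀ A B : Matrix (Fin r) (Fin r) F,
        (∀ i : ℕ, A *ᵥ ((C ^ i) *ᵥ v) = B *ᵥ ((C ^ i) *ᵥ v)) → A = B := by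
  subst hr
  let pb := AdjoinRoot.powerBasis' hf
  have hdim : pb.dim = f.natDegree := AdjoinRoot.powerBasis'_dim hf
  let b := pb.basis.reindex (finCongr hdim)
  let C := Algebra.leftMulMatrix b pb.gen
  refine ⟨C, b.repr 1, ?_, ?_⟩
  · have h1 : C = Matrix.reindex (finCongr hdim) (finCongr hdim)
        (Algebra.leftMulMatrix pb.basis pb.gen) := by
      ext i j
      rw [Matrix.reindex_apply, Matrix.submatrix_apply, Algebra.leftMulMatrix_eq_repr_mul]
      change Algebra.leftMulMatrix b pb.gen i j = _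
      rw [Algebra.leftMulMatrix_eq_repr_mul]
      change (pb.basis.reindex (finCongr hdim)).repr
        (pb.gen * (pb.basis.reindex (finCongr hdim)) j) i = _
      rw [Module.Basis.reindex_apply, Module.Basis.repr_reindex_apply]
    rw [h1, Matrix.charpoly_reindex, charpoly_leftMulMatrix]
    exact AdjoinRoot.minpoly_powerBasis_gen_of_monic hf
  · intro A B h
    have hC : ∀ i : ℕ, (C ^ i) *ᵥ (b.repr 1) = b.repr (pb.gen ^ i) := by
      intro i
      change (Algebra.leftMulMatrix b pb.gen) ^ i *ᵥ (b.repr 1) = _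
      rw [← map_pow, Algebra.leftMulMatrix_mulVec_repr, mul_one]
    ext i j
    have h1 := h j
    have h2 : (b.repr (pb.gen ^ (j : ℕ)) : Fin f.natDegree → F) = Pi.single j 1 := by
      have h3 : pb.gen ^ (j : ℕ) = b j := by
        rw [Module.Basis.reindex_apply, PowerBasis.coe_basis]
        rfl
      rw [h3, Module.Basis.repr_self, Finsupp.single_eq_pi_single]
    rw [hC, h2, Matrix.mulVec_single_one, Matrix.mulVec_single_one] at h1
    exact congrFun h1 i

end Cyc

section Count

variable {F : Type} [Field F] [Fintype F] [DecidableEq F] {r : ℕ}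

/-- The number of invertible matrices. -/
noncomputable def gl (F : Type) [Field F] [Fintype F] [DecidableEq F] (r : ℕ) : ℕ :=
  (Finset.univ.filter fun M : Matrix (Fin r) (Fin r) F => M.det ≠ 0).card

/-- The number of the matrices with the determinant `x` and the characteristic polynomial in
`A`. -/
noncomputable def nm (r : ℕ) (x : F) (A : Set F[X]) : ℕ :=
  {M : Matrix (Fin r) (Fin r) F | M.det = x ∧ M.charpoly ∈ A}.ncard

lemma orb {f : F[X]} (hf : f.Monic) (hr : f.natDegree = r) :
    gl F r ≤ (Finset.univ.filter fun M : Matrix (Fin r) (Fin r) F => M.charpoly = f).card *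
      Fintype.card F ^ r := by
  obtain ⟨C, v, hC, hv⟩ := exists_cyclic hf hr
  have h1 : Fintype.card F ^ r = (Finset.univ : Finset (Fin r → F)).card := by
    rw [Finset.card_univ, Fintype.card_fun, Fintype.card_fin]
  rw [h1, ← Finset.card_product, gl]
  refine Finset.card_le_card_of_injOn (fun g => (g * C * g⁻¹, g *ᵥ v)) ?_ ?_
  · intro g hg
    simp only [Finset.coe_filter, Finset.mem_univ, true_and, Set.mem_ofPred_eq] at hg
    simp only [Finset.coe_product, Set.mem_prod, Finset.coe_filter, Finset.mem_univ, true_and,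
      Set.mem_ofPred_eq, Finset.coe_univ, Set.mem_univ, and_true]
    have hu : IsUnit g := (Matrix.isUnit_iff_isUnit_det g).2 (isUnit_iff_ne_zero.2 hg)
    obtain ⟨u, rfl⟩ := hu
    rw [Matrix.charpoly_units_conj, hC]
  · intro g hg g' hg' h
    simp only [Finset.coe_filter, Finset.mem_univ, true_and, Set.mem_ofPred_eq] at hg hg'
    obtain ⟨e1, e2⟩ := Prod.mk.inj h
    have hi : g⁻¹ * g = 1 := Matrix.nonsing_inv_mul g (isUnit_iff_ne_zero.2 hg)
    have hi' : g'⁻¹ * g' = 1 := Matrix.nonsing_inv_mul g' (isUnit_iff_ne_zero.2 hg')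
    have hpow : ∀ (u : Matrix (Fin r) (Fin r) F), u⁻¹ * u = 1 → ∀ i : ℕ,
        u * C ^ i = (u * C * u⁻¹) ^ i * u := by
      intro u hu i
      induction i with
      | zero => simp
      | succ i ih =>
        rw [pow_succ, ← mul_assoc, ih, pow_succ, mul_assoc, mul_assoc, mul_assoc, mul_assoc,
          mul_assoc, hu, mul_one]
    apply hv
    intro i
    rw [Matrix.mulVec_mulVec, Matrix.mulVec_mulVec, hpow g hi, hpow g' hi', e1,
      ← Matrix.mulVec_mulVec, ← Matrix.mulVec_mulVec]
    have e2' : g *ᵥ v = g' *ᵥ v := e2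
    rw [e2']

lemma det_fiber (hr : 0 < r) {x : F} (hx : x ≠ 0) :
    nm r x Set.univ * (Fintype.card F - 1) ≤ gl F r := by
  have h1 : Fintype.card F - 1 = (Finset.univ.filter fun u : F => u ≠ 0).card := by
    rw [Finset.filter_ne' Finset.univ (0 : F), Finset.card_erase_of_mem (Finset.mem_univ _),
      Finset.card_univ]
  have h2 : nm r x Set.univ =
      (Finset.univ.filter fun M : Matrix (Fin r) (Fin r) F => M.det = x).card := by
    rw [nm, ← Set.ncard_coe_finset]
    congr 1
    ext M
    simp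
  rw [h1, h2, ← Finset.card_product, gl]
  let i₀ : Fin r := ⟨0, hr⟩
  refine Finset.card_le_card_of_injOn
    (fun y => Matrix.diagonal (Function.update (fun _ => 1) i₀ y.2) * y.1) ?_ ?_
  · rintro ⟨M, u⟩ hM
    simp only [Finset.coe_product, Set.mem_prod, Finset.coe_filter, Finset.mem_univ, true_and,
      Set.mem_ofPred_eq] at hM
    simp only [Finset.coe_filter, Finset.mem_univ, true_and, Set.mem_ofPred_eq]
    rw [Matrix.det_mul, Matrix.det_diagonal, hM.1, Finset.prod_update_of_mem (Finset.mem_univ _)]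
    simp [hM.2, hx]
  · rintro ⟨M, u⟩ hM ⟨M', u'⟩ hM' h
    simp only [Finset.coe_product, Set.mem_prod, Finset.coe_filter, Finset.mem_univ, true_and,
      Set.mem_ofPred_eq] at hM hM'
    dsimp only at h
    have h3 := congrArg Matrix.det h
    rw [Matrix.det_mul, Matrix.det_mul, Matrix.det_diagonal, Matrix.det_diagonal, hM.1, hM'.1,
      Finset.prod_update_of_mem (Finset.mem_univ _), Finset.prod_update_of_mem (Finset.mem_univ _)]
      at h3
    simp only [Finset.prod_const_one, mul_one] at h3
    have h4 : u = u' := mul_right_cancel₀ hx h3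
    subst h4
    have h5 : IsUnit (Matrix.diagonal (Function.update (fun _ : Fin r => (1 : F)) i₀ u)) := by
      rw [Matrix.isUnit_iff_isUnit_det, Matrix.det_diagonal,
        Finset.prod_update_of_mem (Finset.mem_univ _)]
      simp [hM.2]
    rw [h5.mul_left_cancel h]

lemma nm_lower {x : F} (A : Set F[X]) (T : Finset F[X])
    (hT : ∀ f ∈ T, f ∈ A ∧ f.Monic ∧ f.natDegree = r ∧ f.coeff 0 = (-1) ^ r * x) :
    T.card * gl F r ≤ nm r x A * Fintype.card F ^ r := by
  have h2 : (Finset.univ.filter fun M : Matrix (Fin r) (Fin r) F => M.charpoly ∈ T).card ≤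
      nm r x A := by
    rw [nm, ← Set.ncard_coe_finset]
    refine Set.ncard_le_ncard ?_ (Set.toFinite _)
    intro M hM
    simp only [Finset.coe_filter, Finset.mem_univ, true_and, Set.mem_ofPred_eq] at hM
    obtain ⟨h1, h2, h3, h4⟩ := hT _ hM
    refine ⟨?_, h1⟩
    rw [Matrix.det_eq_sign_charpoly_coeff, h4, Fintype.card_fin, ← mul_assoc, ← mul_pow]
    simp
  refine le_trans ?_ (Nat.mul_le_mul_right _ h2)
  rw [Finset.card_eq_sum_card_fiberwise (f := fun M : Matrix (Fin r) (Fin r) F => M.charpoly)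
    (t := T) (fun M hM => by
      simp only [Finset.coe_filter, Finset.mem_univ, true_and, Set.mem_ofPred_eq] at hM
      exact hM), Finset.sum_mul]
  rw [← smul_eq_mul, ← Finset.sum_const]
  refine Finset.sum_le_sum fun f hf => ?_
  obtain ⟨-, h2, h3, -⟩ := hT f hf
  refine (orb h2 h3).trans (Nat.mul_le_mul_right _ ?_)
  refine Finset.card_le_card ?_
  intro M hM
  simp only [Finset.mem_filter, Finset.mem_univ, true_and] at hM ⊢
  exact ⟨hM ▸ hf, hM⟩

/-- The proportion of the matrices with the characteristic polynomial in `A`. -/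
lemma ratio (hr : 0 < r) {x : F} (hx : x ≠ 0) (A : Set F[X]) (T : Finset F[X])
    (hT : ∀ f ∈ T, f ∈ A ∧ f.Monic ∧ f.natDegree = r ∧ f.coeff 0 = (-1) ^ r * x) {c : ℝ}
    (hc : 0 ≤ c) (h : c * (Fintype.card F : ℝ) ^ (r - 1) ≤ T.card) :
    c / 2 * (nm r x Set.univ : ℝ) ≤ nm r x A := by
  have h1 : (T.card : ℝ) * gl F r ≤ nm r x A * (Fintype.card F : ℝ) ^ r := by
    exact_mod_cast nm_lower A T hT
  have h2 : (nm r x Set.univ : ℝ) * ((Fintype.card F : ℝ) - 1) ≤ gl F r := by
    have h3 := det_fiber hr hx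
    have h4 : 1 ≤ Fintype.card F := Fintype.card_pos
    have h5 : ((Fintype.card F - 1 : ℕ) : ℝ) = (Fintype.card F : ℝ) - 1 := by
      push_cast [h4]
      ring
    rw [← h5]
    exact_mod_cast h3
  set l : ℝ := (Fintype.card F : ℝ) with hl
  have hl2 : 2 ≤ l := by
    have : 1 < Fintype.card F := Fintype.one_lt_card
    rw [hl]
    exact_mod_cast this
  have hlp : 0 < l ^ (r - 1) := by positivity
  have h6 : l ^ r = l ^ (r - 1) * l := by
    rw [← pow_succ]
    congr 1
    omega
  rw [h6] at h1
  have h7 : (0 : ℝ) ≤ nm r x Set.univ := Nat.cast_nonneg _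
  have h8 : c * l ^ (r - 1) * ((nm r x Set.univ : ℝ) * (l - 1)) ≤
      nm r x A * (l ^ (r - 1) * l) := by
    refine le_trans ?_ h1
    exact mul_le_mul h h2 (by nlinarith) (Nat.cast_nonneg _)
  have h9 : c * ((nm r x Set.univ : ℝ) * (l - 1)) ≤ nm r x A * l := by
    have h10 : l ^ (r - 1) * (c * ((nm r x Set.univ : ℝ) * (l - 1))) ≤
        l ^ (r - 1) * (nm r x A * l) := by nlinarith
    exact le_of_mul_le_mul_left h10 hlp
  have h11 : c * (nm r x Set.univ : ℝ) * (l / 2) ≤ nm r x A * l := by
    refine le_trans ?_ h9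
    have : 0 ≤ c * (nm r x Set.univ : ℝ) := mul_nonneg hc h7
    nlinarith
  have h12 : (c / 2 * (nm r x Set.univ : ℝ)) * l ≤ nm r x A * l := by nlinarith
  exact le_of_mul_le_mul_right h12 (by linarith)

end Count

end Pool.Agent.K1H12.UN
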