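import Pool.Agent.K1H12.UN.Bal

/-!
# The patterns imply that the relations are balanced
-/

set_option autoImplicit false

open Polynomial NumberField

namespace Pool.Agent.K1H12.UN

open Pool.Agent.W521.Frob Pool.Agent.W458.MF

section Emb

variable {K L : Type} [Field K] [NumberField K] [Field L] [NumberField L] (j : L →+* ℂ)
  {θ : 𝓞 K} {M : ℕ}

/-- Embeddings in the complex numbers with values in the image of `L`. -/
lemma emb_lift (hθ : IsGen θ M) (hL : ∀ z : ℂ, aeval z (gp θ) = 0 → ∃ x : L, j x = z)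
    (σ : K →+* ℂ) : ∃ τ : K →+* L, j.comp τ = σ := by
  have h1 : ∀ x : 𝓞 K, res σ x ∈ j.fieldRange := by
    intro x
    obtain ⟨u, hu⟩ := hθ.2 x
    have h2 := congrArg (res σ) hu
    rw [map_mul, map_natCast, hom_aeval] at h2
    have h3 : aeval (res σ θ) u ∈ j.fieldRange := by
      obtain ⟨y, hy⟩ := hL _ (gp_root' (res σ) θ)
      rw [← hy, ← hom_aeval]
      exact ⟨_, rfl⟩
    have h4 : (M : ℂ) ≠ 0 := by exact_mod_cast hθ.1
    have h5 : res σ x = aeval (res σ θ) u / M := by
      rw [← h2]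
      field_simp
    rw [h5]
    exact div_mem h3 (natCast_mem _ _)
  have h2 : ∀ x : K, σ x ∈ j.fieldRange := by
    intro x
    obtain ⟨a, b, hb, rfl⟩ := IsFractionRing.div_surjective (A := 𝓞 K) x
    rw [map_div₀]
    exact div_mem (h1 a) (h1 b)
  let e : L ≃+* j.fieldRange := RingEquiv.ofBijective j.rangeRestrictField
    (RingHom.rangeRestrictField_bijective j)
  refine ⟨(e.symm : j.fieldRange →+* L).comp (σ.codRestrict j.fieldRange h2), ?_⟩
  ext x
  have h3 : e (e.symm (σ.codRestrict j.fieldRange h2 x)) = σ.codRestrict j.fieldRange h2 x :=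
    e.apply_symm_apply _
  exact congrArg Subtype.val h3

/-- The embeddings in `L` and in the complex numbers. -/
noncomputable def embE (hθ : IsGen θ M) (hL : ∀ z : ℂ, aeval z (gp θ) = 0 → ∃ x : L, j x = z) :
    (K →+* L) ≃ (K →+* ℂ) :=
  Equiv.ofBijective (fun τ => j.comp τ) ⟨fun τ τ' h => by
    ext x
    exact j.injective (congrArg (fun ρ : K →+* ℂ => ρ x) h), fun σ => emb_lift j hθ hL σ⟩

lemma rt_up {P : (𝓞 K)[X]} {σ : K →+* L} {z : L} :
    z ∈ Rt P σ ↔ eval₂ (res (j.comp σ)) (j z) P = 0 := by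
  have h1 : eval₂ (res (j.comp σ)) (j z) P = j (eval₂ (res σ) z P) := by
    rw [Polynomial.hom_eval₂]
    rfl
  rw [h1, map_eq_zero]
  rfl

variable [IsCMField K]

lemma bar_conj (σ : K →+* L) : j.comp (bar σ) = ComplexEmbedding.conjugate (j.comp σ) := by
  ext x
  exact IsCMField.complexEmbedding_complexConj K (j.comp σ) x

lemma eval_conj {P : (𝓞 K)[X]} {σ : K →+* ℂ} {z : ℂ} (h : eval₂ (res σ) z P = 0) :
    eval₂ (res (ComplexEmbedding.conjugate σ)) (starRingEnd ℂ z) P = 0 := by
  have h1 := congrArg (starRingEnd ℂ) h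
  rw [map_zero, Polynomial.hom_eval₂] at h1
  exact h1

end Emb

/-- Quotients of roots which are roots of unity have bounded degree. -/
lemma quot_deg {L : Type} [Field L] [NumberField L] (j : L →+* ℂ) {w : ℤ[X]} (hw : w.Monic)
    {z₁ z₂ : L} (h₁ : aeval z₁ w = 0) (h₂ : aeval z₂ w = 0) :
    ∃ Q : ℚ[X], Q ≠ 0 ∧ Q.natDegree ≤ w.natDegree ^ 2 ∧ aeval (j (z₂ / z₁)) Q = 0 := by
  have hdeg : ∀ z : L, aeval z w = 0 → Module.finrank ℚ (IntermediateField.adjoin ℚ {z}) ≤
      w.natDegree := by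
    intro z hz
    rw [IntermediateField.adjoin.finrank (Algebra.IsIntegral.isIntegral z)]
    refine (natDegree_le_of_dvd (minpoly.dvd ℚ z (p := w.map (Int.castRingHom ℚ)) ?_)
      (hw.map _).ne_zero).trans (hw.natDegree_map _).le
    rw [aeval_def, eval₂_map, RingHom.ext_int ((algebraMap ℚ L).comp _) (algebraMap ℤ L)]
    exact hz
  set ρ : L := z₂ / z₁ with hρ
  refine ⟨minpoly ℚ ρ, minpoly.ne_zero (Algebra.IsIntegral.isIntegral ρ), ?_, ?_⟩
  · set E₁ := IntermediateField.adjoin ℚ {z₁}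
    set E₂ := IntermediateField.adjoin ℚ {z₂}
    have h3 : ρ ∈ E₁ ⊔ E₂ := by
      refine div_mem ?_ ?_
      · exact (le_sup_right : E₂ ≤ E₁ ⊔ E₂)
          (IntermediateField.mem_adjoin_simple_self ℚ z₂)
      · exact (le_sup_left : E₁ ≤ E₁ ⊔ E₂)
          (IntermediateField.mem_adjoin_simple_self ℚ z₁)
    have h4 : (minpoly ℚ ρ).natDegree ≤ Module.finrank ℚ (E₁ ⊔ E₂ : IntermediateField ℚ L) := by
      have h5 : minpoly ℚ ρ = minpoly ℚ (⟨ρ, h3⟩ : (E₁ ⊔ E₂ : IntermediateField ℚ L)) :=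
        (minpoly.algebraMap_eq (algebraMap (E₁ ⊔ E₂ : IntermediateField ℚ L) L).injective
          (⟨ρ, h3⟩ : (E₁ ⊔ E₂ : IntermediateField ℚ L)))
      rw [h5]
      exact minpoly.natDegree_le _
    refine h4.trans ((IntermediateField.finrank_sup_le E₁ E₂).trans ?_)
    rw [sq]
    exact Nat.mul_le_mul (hdeg z₁ h₁) (hdeg z₂ h₂)
  · have h3 : aeval (j ρ) (minpoly ℚ ρ) = j (aeval ρ (minpoly ℚ ρ)) := by
      change eval₂ _ _ _ = j (eval₂ _ _ _)
      rw [Polynomial.hom_eval₂]
      congr 1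
      exact Subsingleton.elim _ _
    rw [h3, minpoly.aeval, map_zero]

section Main

variable {I : Type} [Fintype I] {K : I → Type} [∀ i, Field (K i)] [∀ i, NumberField (K i)]
  [∀ i, IsCMField (K i)]

/-- **The patterns imply that the relations are balanced.** -/
theorem unt (q : I → ℕ) (h : I → ℤ[X]) (R : ℤ[X]) (N : ℕ) (P : ∀ i, (𝓞 (K i))[X])
    (δ : ∀ i, 𝓞 (K i)) (θ : ∀ i, 𝓞 (K i)) (M : I → ℕ)
    (hq : ∀ i, 0 < q i) (hh : ∀ i, (h i).Monic) (hR : R.Monic) (hP : ∀ i, (P i).Monic)
    (hnorm : ∀ i, (weil (q i) (h i)).map (Int.castRingHom ℂ) =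
      ∏ σ : K i →+* ℂ, (P i).map (res σ))
    (hrh : ∀ i (σ : K i →+* ℂ) (z : ℂ), eval₂ (res σ) z (P i) = 0 → ‖z‖ ^ 2 = q i)
    (hdet : ∀ i, (P i).coeff 0 = (-1) ^ (P i).natDegree * δ i)
    (hind : Independent K δ {z : ℂ | aeval z R = 0})
    (hθ : ∀ i, IsGen (θ i) (M i))
    (hN : ∀ i, ∀ z : ℂ, (∃ t : ℕ, 0 < t ∧ z ^ t = 1) →
      (∃ Q : ℚ[X], Q ≠ 0 ∧ Q.natDegree ≤ (2 * (h i).natDegree) ^ 2 ∧ aeval z Q = 0) → z ^ N = 1)
    (hirr : ∀ i₀, ∃ l : ℕ, l.Prime ∧ SplitsMod (gp (θ i₀)) l ∧ ¬ l ∣ M i₀ ∧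
      (fun φ => (P i₀).map φ) ∈ irrPat (F := K i₀) l)
    (hlin : ∀ i₀, 3 ≤ (P i₀).natDegree → ∃ l : ℕ, l.Prime ∧ SplitsMod (gp (θ i₀)) l ∧
      ¬ l ∣ M i₀ ∧ (fun φ => (P i₀).map φ) ∈ linPat (F := K i₀) l)
    (hswp : ∀ i₀, ∃ l : ℕ, l.Prime ∧ (∀ i, SplitsMod (gp (θ i)) l) ∧ ¬ l ∣ M i₀ ∧
      SplitsMod R l ∧ (fun φ => (P i₀).map φ) ∈ swapPat (F := K i₀) N l ∧
      ∀ i, i ≠ i₀ → (fun φ => (P i).map φ) ∈ splitPat (F := K i) l) :
    W458.MF.Balanced q h R ∧ ∀ i, ((weil (q i) (h i)).map (Int.castRingHom ℚ)).Separable := by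
  classical
  -- the field
  obtain ⟨L, _, _, _, j, hL⟩ := W338.MF.exists_field'
    ((∏ i, weil (q i) (h i)) * (R * ∏ i, gp (θ i)))
    (((monic_prod_of_monic _ _ fun i _ => weil_monic (q i) (hh i))).mul
      (hR.mul (monic_prod_of_monic _ _ fun i _ => gp_monic (θ i))))
  have hLw : ∀ i (z : ℂ), aeval z (weil (q i) (h i)) = 0 → ∃ x : L, j x = z := by
    intro i z hz
    apply hL
    rw [map_mul, map_prod, Finset.prod_eq_zero (Finset.mem_univ i) hz, zero_mul]
  have hLR : ∀ z : ℂ, aeval z R = 0 → ∃ x : L, j x = z := by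
    intro z hz
    apply hL
    rw [map_mul, map_mul, hz, zero_mul, mul_zero]
  have hLθ : ∀ i (z : ℂ), aeval z (gp (θ i)) = 0 → ∃ x : L, j x = z := by
    intro i z hz
    apply hL
    have h1 : aeval z (∏ i, gp (θ i)) = 0 := by
      rw [map_prod]
      exact Finset.prod_eq_zero (Finset.mem_univ i) hz
    rw [map_mul, map_mul, h1, mul_zero, mul_zero]
  -- the roots
  have hroot : ∀ i (z : ℂ), aeval z (weil (q i) (h i)) = 0 ↔
      ∃ σ : K i →+* ℂ, eval₂ (res σ) z (P i) = 0 := by
    intro i z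
    have h1 : aeval z (weil (q i) (h i)) = ((weil (q i) (h i)).map (Int.castRingHom ℂ)).eval z := by
      rw [eval_map]
      rfl
    rw [h1, hnorm i, eval_prod, Finset.prod_eq_zero_iff]
    simp only [Finset.mem_univ, true_and, eval_map]
  have hrootL : ∀ i (z : L), aeval z (weil (q i) (h i)) = 0 ↔
      ∃ σ : K i →+* L, z ∈ Rt (P i) σ := by
    intro i z
    have h1 : aeval z (weil (q i) (h i)) = 0 ↔ aeval (j z) (weil (q i) (h i)) = 0 := by
      rw [← hom_aeval]
      exact (map_eq_zero j).symm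
    rw [h1, hroot]
    constructor
    · rintro ⟨σ, hσ⟩
      obtain ⟨τ, rfl⟩ := emb_lift j (hθ i) (hLθ i) σ
      exact ⟨τ, (rt_up j).2 hσ⟩
    · rintro ⟨τ, hτ⟩
      exact ⟨j.comp τ, (rt_up j).1 hτ⟩
  have hD : Dat q P L := {
    monic := hP
    q_ne := fun i => (hq i).ne'
    splits := by
      intro i σ
      refine Polynomial.Splits.of_splits_map j (IsAlgClosed.splits _) ?_
      intro z hz
      rw [mem_roots (((hP i).map _).map _).ne_zero, IsRoot.def, Polynomial.map_map,
        eval_map] at hz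
      exact hLw i z ((hroot i z).2 ⟨j.comp σ, hz⟩)
    dual := by
      intro i σ z hz
      rw [rt_up j] at hz ⊢
      have h1 := hrh i _ _ hz
      have h2 := eval_conj hz
      rw [bar_conj, map_div₀, map_natCast]
      have h3 : j z ≠ 0 := by
        intro h0
        rw [h0, norm_zero, zero_pow two_ne_zero] at h1
        have h2 : (0 : ℝ) < q i := by exact_mod_cast hq i
        exact h2.ne h1
      have h4 : (q i : ℂ) / j z = starRingEnd ℂ (j z) := by
        rw [div_eq_iff h3, ← Complex.normSq_eq_conj_mul_self, Complex.normSq_eq_norm_sq, h1]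
        simp
      rw [h4]
      exact h2
    ne := by
      intro i σ z hz h0
      rw [rt_up j] at hz
      have h1 := hrh i _ _ hz
      rw [h0, map_zero, norm_zero, zero_pow two_ne_zero] at h1
      have h2 : (0 : ℝ) < q i := by exact_mod_cast hq i
      exact h2.ne h1 }
  have hsepK : ∀ i, ((P i).map (algebraMap (𝓞 (K i)) (K i))).Separable := by
    intro i
    obtain ⟨l, hl, -, -, φ₀, h0⟩ := hirr i
    have : Fact l.Prime := ⟨hl⟩
    have h1 : Irreducible (P i) := (hP i).irreducible_of_irreducible_map φ₀ _ h0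
    exact (((hP i).irreducible_iff_irreducible_map_fraction_map (K := K i)).1 h1).separable
  have hsep : ∀ i (σ : K i →+* L), ((P i).map (res σ)).Separable := by
    intro i σ
    have h1 : (P i).map (res σ) = ((P i).map (algebraMap (𝓞 (K i)) (K i))).map σ := by
      rw [Polynomial.map_map]
      rfl
    rw [h1]
    exact (hsepK i).map
  have hS : AllSwp P R L := by
    intro i σ
    refine all_swp hD hθ i hR (hirr i) (hlin i) (hswp i) ?_ σ
    rintro z₁ z₂ ⟨τ, h1, h2⟩ ⟨t, ht, h3⟩
    have hz1 : z₁ ≠ 0 := hD.ne i τ z₁ h1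
    obtain ⟨Q, hQ, hQd, hQz⟩ := quot_deg j (weil_monic (q i) (hh i))
      ((hrootL i z₁).2 ⟨τ, h1⟩) ((hrootL i z₂).2 ⟨τ, h2⟩)
    rw [weil_natDegree (q i) (hh i)] at hQd
    have h4 := hN i (j (z₂ / z₁)) ⟨t, ht, by
      rw [← map_pow, div_pow, h3, div_self, map_one]
      rw [← h3]
      exact pow_ne_zero _ hz1⟩ ⟨Q, hQ, hQd, hQz⟩
    rw [← map_pow, ← map_one j] at h4
    have h5 := j.injective h4
    rw [div_pow, div_eq_one_iff_eq (pow_ne_zero _ hz1)] at h5
    exact h5.symm
  have hI : IndL δ R L := by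
    intro e ν hν c hc hrel i σ
    have h1 := hind (fun i σ => e i ((embE j (hθ i) (hLθ i)).symm σ)) (j ν) (by
      clear hrel
      induction hν using Submonoid.closure_induction with
      | mem x hx =>
        refine Submonoid.subset_closure ?_
        change aeval (j x) R = 0
        rw [← hom_aeval, show aeval x R = 0 from hx, map_zero]
      | one => rw [map_one]; exact one_mem _
      | mul x y _ _ h1 h2 => rw [map_mul]; exact mul_mem h1 h2) c hc (by
      have h2 := congrArg j hrel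
      rw [map_mul, map_prod, map_ratCast] at h2
      rw [← h2]
      congr 1
      refine Finset.prod_congr rfl fun i _ => ?_
      rw [map_prod]
      refine (Fintype.prod_equiv (embE j (hθ i) (hLθ i)) _ _ fun τ => ?_).symm
      rw [Equiv.symm_apply_apply, map_zpow₀]
      rfl) i (embE j (hθ i) (hLθ i) σ)
    have h3 : ComplexEmbedding.conjugate (embE j (hθ i) (hLθ i) σ) =
        embE j (hθ i) (hLθ i) (bar σ) := (bar_conj j σ).symm
    rw [h3, Equiv.symm_apply_apply, Equiv.symm_apply_apply] at h1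
    exact h1
  have hdj : ∀ (i : I) (σ τ : K i →+* L), σ ≠ τ → ∀ z, z ∈ Rt (P i) σ → z ∉ Rt (P i) τ :=
    fun i σ τ hne z hz hz' => disj hD hS δ hdet hsep
      (fun i σ => ind_sq δ hI (fun i => (hq i).ne') i σ) i hne hz hz'
  refine ⟨?_, ?_⟩
  · unfold W458.MF.Balanced
    intro l hl t ht ν hν c hc hprod i z
    -- everything in `L`
    obtain ⟨l', rfl, hl'⟩ : ∃ l' : List (I × L), l'.map (Prod.map id j) = l ∧
        ∀ x ∈ l', ∃ σ : K x.1 →+* L, x.2 ∈ Rt (P x.1) σ := by
      clear hprod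
      induction l with
      | nil => exact ⟨[], rfl, by simp⟩
      | cons a T ih =>
        obtain ⟨T', h1, h2⟩ := ih fun z hz => hl z (List.mem_cons_of_mem a hz)
        have h3 := hl a List.mem_cons_self
        obtain ⟨x, hx⟩ := hLw a.1 a.2 h3
        refine ⟨(a.1, x) :: T', ?_, ?_⟩
        · rw [List.map_cons, h1]
          congr 1
          exact Prod.ext rfl hx
        · intro y hy
          rcases List.mem_cons.1 hy with e | e
          · rw [e]
            refine (hrootL a.1 x).1 ?_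
            apply j.injective
            rw [hom_aeval, hx, h3, map_zero]
          · exact h2 y e
    obtain ⟨ν', rfl, hν'⟩ : ∃ ν' : L, j ν' = ν ∧
        ν' ∈ Submonoid.closure {x : L | aeval x R = 0} := by
      clear hprod
      induction hν using Submonoid.closure_induction with
      | mem x hx =>
        obtain ⟨y, hy⟩ := hLR x hx
        refine ⟨y, hy, Submonoid.subset_closure ?_⟩
        apply j.injective
        rw [hom_aeval, hy, map_zero]
        exact hx
      | one => exact ⟨1, map_one j, one_mem _⟩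
      | mul x y _ _ h1 h2 =>
        obtain ⟨a, ha, ha'⟩ := h1
        obtain ⟨b, hb, hb'⟩ := h2
        exact ⟨a * b, by rw [map_mul, ha, hb], mul_mem ha' hb'⟩
    have hinj : Function.Injective (Prod.map id j : I × L → I × ℂ) :=
      Function.Injective.prodMap Function.injective_id j.injective
    have hq0 : (q i : ℂ) ≠ 0 := by exact_mod_cast (hq i).ne'
    by_cases hz : aeval z (weil (q i) (h i)) = 0
    swap
    · have h1 : (i, z) ∉ l'.map (Prod.map id j) := by
        intro h1
        exact hz (hl (i, z) h1)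
      have h2 : (i, (q i : ℂ) / z) ∉ l'.map (Prod.map id j) := by
        intro h2
        have h3 : aeval ((q i : ℂ) / z) (weil (q i) (h i)) = 0 := hl (i, (q i : ℂ) / z) h2
        have h4 := root_conj (hq i).ne' (hh i) h3
        rw [div_div_cancel₀ hq0] at h4
        exact hz h4
      exact (List.count_eq_zero.2 h1).trans (List.count_eq_zero.2 h2).symm
    obtain ⟨α, rfl⟩ := hLw i z hz
    obtain ⟨σ, hσ⟩ := (hrootL i α).1 (by
      apply j.injective
      rw [hom_aeval, hz, map_zero])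
    have hPe : (l'.map fun x => x.2).prod ^ t * ν' = (c : L) := by
      apply j.injective
      have e1 : ∀ k : List (I × L), ((k.map (Prod.map id j)).map fun x : I × ℂ => x.2 ^ t).prod =
          (j (k.map fun x => x.2).prod) ^ t := by
        intro k
        induction k with
        | nil => simp
        | cons a k ih =>
          rw [List.map_cons, List.map_cons, List.prod_cons, ih, List.map_cons, List.prod_cons,
            map_mul, mul_pow]
          rfl
      rw [map_mul, map_pow, map_natCast, ← hprod, e1]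
    have hfin := bal_core hD hS δ hdet hsep hdj hI l' hl' ht hc hν' hPe i σ hσ
    have hqj : (q i : ℂ) / j α = j (q i / α) := by rw [map_div₀, map_natCast]
    rw [hqj]
    exact W338.MF.count_transfer (Prod.map id j) hinj l' (i, α) (i, (q i : L) / α) hfin
  · intro i
    have h1 : ((weil (q i) (h i)).map (Int.castRingHom ℂ)).Separable := by
      rw [hnorm i]
      refine separable_prod' ?_ ?_
      · intro σ _ τ _ hne
        refine (Polynomial.isCoprime_iff_aeval_ne_zero_of_isAlgClosed ℂ ℂ _ _).2 ?_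
        intro a
        by_contra hcon
        push Not at hcon
        obtain ⟨h2, h3⟩ := hcon
        rw [coe_aeval_eq_eval, eval_map] at h2 h3
        obtain ⟨σ', rfl⟩ := emb_lift j (hθ i) (hLθ i) σ
        obtain ⟨τ', rfl⟩ := emb_lift j (hθ i) (hLθ i) τ
        obtain ⟨x, rfl⟩ := hLw i a ((hroot i a).2 ⟨_, h2⟩)
        refine hdj i σ' τ' (fun h => hne (by rw [h])) x ((rt_up j).2 h2) ((rt_up j).2 h3)
      · intro σ _
        have h2 : (P i).map (res σ) = ((P i).map (algebraMap (𝓞 (K i)) (K i))).map σ := by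
          rw [Polynomial.map_map]
          rfl
        rw [h2]
        exact (hsepK i).map
    have h2 : (weil (q i) (h i)).map (Int.castRingHom ℂ) =
        ((weil (q i) (h i)).map (Int.castRingHom ℚ)).map (algebraMap ℚ ℂ) := by
      rw [Polynomial.map_map]
      congr 1
    rw [h2, separable_map] at h1
    exact h1

end Main

end Pool.Agent.K1H12.UN
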