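import Pool.Agent.K1H12.UN.NTF
import Pool.Agent.K1H12.UN.Exi

/-!
# The norm polynomial
-/

set_option autoImplicit false

open Polynomial NumberField

namespace Pool.Agent.K1H12.UN

open Pool.Agent.W521.Frob Pool.Agent.W458.MF

/-- An element of a Galois number field which is integral and invariant is an integer. -/
lemma int_of_fixed {L : Type} [Field L] [NumberField L] [IsGalois ℚ L] (c : 𝓞 L)
    (h : ∀ g : Gal(L/ℚ), g (c : L) = c) : ∃ n : ℤ, (n : L) = c := by
  have h1 : (c : L) ∈ (⊥ : IntermediateField ℚ L) :=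
    (IsGalois.mem_bot_iff_fixed (c : L)).2 h
  obtain ⟨r, hr⟩ := IntermediateField.mem_bot.1 h1
  have h2 : IsIntegral ℤ r := by
    have h3 : IsIntegral ℤ (algebraMap ℚ L r) := by
      rw [hr]
      exact RingOfIntegers.isIntegral_coe c
    exact (isIntegral_algebraMap_iff (algebraMap ℚ L).injective).1 h3
  obtain ⟨n, hn⟩ := IsIntegrallyClosed.isIntegral_iff.1 h2
  refine ⟨n, ?_⟩
  rw [← hr, ← hn]
  simp

/-- The norm polynomial has integral coefficients. -/
theorem exists_norm {K : Type} [Field K] [NumberField K] (P : (𝓞 K)[X]) (hP : P.Monic) :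
    ∃ Q : ℤ[X], Q.Monic ∧ Q.map (Int.castRingHom ℂ) = ∏ σ : K →+* ℂ, P.map (res σ) := by
  classical
  obtain ⟨θ, M, hθ⟩ := exists_isGen (K := K)
  obtain ⟨L, _, _, _, j, hL⟩ := W338.MF.exists_field' (gp θ) (gp_monic θ)
  set A : (𝓞 L)[X] := ∏ τ : K →+* L, P.map (ro τ) with hA
  have hcoe : ∀ (τ : K →+* L), (algebraMap (𝓞 L) L).comp (ro τ) = res τ := by
    intro τ
    ext x
    rfl
  have hAL : A.map (algebraMap (𝓞 L) L) = ∏ τ : K →+* L, P.map (res τ) := by
    rw [hA, Polynomial.map_prod]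
    refine Finset.prod_congr rfl fun τ _ => ?_
    rw [Polynomial.map_map, hcoe]
  have hfix : ∀ (g : Gal(L/ℚ)), (A.map (algebraMap (𝓞 L) L)).map ((g : L ≃+* L) : L →+* L) =
      A.map (algebraMap (𝓞 L) L) := by
    intro g
    rw [hAL, Polynomial.map_prod]
    refine Fintype.prod_bijective (fun τ : K →+* L => ((g : L ≃+* L) : L →+* L).comp τ) ?_ _ _
      (fun τ => by
        rw [Polynomial.map_map]
        rfl)
    refine ⟨?_, ?_⟩
    · intro τ τ' h
      ext x
      have h1 := congrArg (fun ρ : K →+* L => ρ x) h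
      exact g.injective h1
    · intro τ
      refine ⟨((g⁻¹ : Gal(L/ℚ)) : L ≃+* L).toRingHom.comp τ, ?_⟩
      ext x
      change (g * g⁻¹) (τ x) = τ x
      rw [mul_inv_cancel]
      rfl
  have hcoef : ∀ n, ∃ k : ℤ, (k : L) = (A.coeff n : L) := by
    intro n
    refine int_of_fixed (A.coeff n) fun g => ?_
    have h1 := congrArg (fun f : L[X] => f.coeff n) (hfix g)
    simp only [coeff_map] at h1
    exact h1
  have hmem : A.map (algebraMap (𝓞 L) L) ∈ Polynomial.lifts (Int.castRingHom L) := by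
    rw [Polynomial.lifts_iff_coeff_lifts]
    intro n
    obtain ⟨k, hk⟩ := hcoef n
    refine ⟨k, ?_⟩
    rw [coeff_map]
    exact hk
  have hAm : (A.map (algebraMap (𝓞 L) L)).Monic :=
    (monic_prod_of_monic _ _ fun τ _ => hP.map _).map _
  obtain ⟨Q, hQ, -, hQm⟩ := Polynomial.lifts_and_natDegree_eq_and_monic hmem hAm
  refine ⟨Q, hQm, ?_⟩
  have h1 := congrArg (fun f : L[X] => f.map j) hQ
  simp only [Polynomial.map_map] at h1
  rw [RingHom.ext_int (j.comp (Int.castRingHom L)) (Int.castRingHom ℂ)] at h1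
  rw [h1, ← Polynomial.map_map, hAL, Polynomial.map_prod]
  refine Fintype.prod_equiv (embE j hθ hL) _ _ fun τ => ?_
  rw [Polynomial.map_map]
  rfl

end Pool.Agent.K1H12.UN
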