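import Pool.Agent.K1H12.UN.Frb

/-!
# Frobenius elements for the factorisation patterns
-/

set_option autoImplicit false

open Polynomial NumberField

namespace Pool.Agent.K1H12.UN

open Pool.Agent.W521.Frob Pool.Agent.W458.MF

/-- The quadratic polynomial `X ^ 2 - a X + b`. -/
noncomputable def quad {A : Type*} [CommRing A] (a b : A) : A[X] := X ^ 2 - C a * X + C b

/-- Products of different linear factors. -/
def IsSplit {A : Type*} [CommRing A] (f : A[X]) : Prop := ∃ T : Finset A, f = ∏ t ∈ T, (X - C t)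

/-- The product of an irreducible quadratic polynomial `X ^ 2 - a X + b`, the quotients of whose
roots have no `N`-th power equal to one, and of different linear factors. -/
def IsSwap {A : Type*} [CommRing A] (N : ℕ) (f : A[X]) : Prop :=
  ∃ (a b : A) (T : Finset A), Irreducible (quad a b) ∧ ¬ quad a b ∣ X ^ (2 * N) - C (b ^ N) ∧
    f = quad a b * ∏ t ∈ T, (X - C t)

/-- The product of a linear factor and an irreducible polynomial of degree at least two. -/
def IsLin {A : Type*} [CommRing A] (f : A[X]) : Prop :=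
  ∃ (t : A) (e : A[X]), Irreducible e ∧ 2 ≤ e.natDegree ∧ f = (X - C t) * e

lemma quad_map {A B : Type*} [CommRing A] [CommRing B] (φ : A →+* B) (a b : A) :
    (quad a b).map φ = quad (φ a) (φ b) := by
  simp [quad]

lemma quad_eval {A : Type*} [CommRing A] (a b x : A) : (quad a b).eval x = x ^ 2 - a * x + b := by
  simp [quad]

lemma quad_monic {A : Type*} [CommRing A] [Nontrivial A] (a b : A) : (quad a b).Monic := by
  unfold quad
  monicity!

lemma quad_natDegree {A : Type*} [CommRing A] [Nontrivial A] (a b : A) :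
    (quad a b).natDegree = 2 := by
  unfold quad
  compute_degree!

lemma split_sep {F : Type*} [Field F] {f : F[X]} (hf : IsSplit f) : f.Separable := by
  obtain ⟨T, rfl⟩ := hf
  refine separable_prod_X_sub_C_iff'.2 ?_
  intro a _ b _ hab
  exact hab

lemma irr_no_root {F : Type*} [Field F] {e : F[X]} (he : Irreducible e) (h2 : 2 ≤ e.natDegree)
    (t : F) : e.eval t ≠ 0 := by
  intro h
  have h1 : e.natDegree = 1 := by
    have h3 := degree_eq_one_of_irreducible_of_root he h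
    exact natDegree_eq_of_degree_eq_some h3
  omega

lemma coprime_lin {F : Type*} [Field F] {e : F[X]} (he : Irreducible e) (h2 : 2 ≤ e.natDegree)
    (t : F) : IsCoprime e (X - C t) := by
  refine (he.coprime_iff_not_dvd).2 ?_
  intro h
  have h1 := natDegree_le_of_dvd h (X_sub_C_ne_zero t)
  rw [natDegree_X_sub_C] at h1
  omega

lemma lin_sep {F : Type*} [Field F] [PerfectField F] {f : F[X]} (hf : IsLin f) :
    f.Separable := by
  obtain ⟨t, e, he, h2, rfl⟩ := hf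
  exact (separable_X_sub_C).mul (PerfectField.separable_of_irreducible he)
    (coprime_lin he h2 t).symm

lemma swap_sep {F : Type*} [Field F] [PerfectField F] {N : ℕ} {f : F[X]} (hf : IsSwap N f) :
    f.Separable := by
  obtain ⟨a, b, T, he, -, rfl⟩ := hf
  refine (PerfectField.separable_of_irreducible he).mul (split_sep ⟨T, rfl⟩) ?_
  refine IsCoprime.prod_right fun t _ => ?_
  exact coprime_lin he (quad_natDegree a b).ge t

section

variable {K L : Type} [Field K] [NumberField K] [Field L] [NumberField L]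
  {k : Type} [Field k] {l : ℕ} [Fact l.Prime] [CharP k l] {Φ : 𝓞 L →+* k} {g : Gal(L/ℚ)}
  {P : (𝓞 K)[X]} {σ : K →+* L} {φ : 𝓞 K →+* ZMod l}

lemma fix_of_psi (hg : ∀ x : 𝓞 L, Φ (g • x) = Φ x ^ l)
    (hgσ : ∀ x : 𝓞 K, g • ro σ x = ro σ x)
    (hφ : (psi k l).comp φ = Φ.comp (ro σ)) (hsep : (P.map φ).Separable) {w : 𝓞 L}
    (hw : w ∈ Om P σ) {t : ZMod l} (ht : Φ w = psi k l t) : g • w = w := by
  refine om_inj hφ hsep (om_smul hgσ hw) hw ?_
  rw [hg, ht, psi_pow]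

/-- The pattern `IsSplit`: all roots are fixed. -/
lemma pat_split (hg : ∀ x : 𝓞 L, Φ (g • x) = Φ x ^ l)
    (hgσ : ∀ x : 𝓞 K, g • ro σ x = ro σ x)
    (hφ : (psi k l).comp φ = Φ.comp (ro σ)) (h : IsSplit (P.map φ)) {w : 𝓞 L}
    (hw : w ∈ Om P σ) : g • w = w := by
  obtain ⟨T, hT⟩ := h
  have h1 := om_root hφ hw
  rw [hT, Polynomial.map_prod, eval_prod, Finset.prod_eq_zero_iff] at h1
  obtain ⟨t, -, ht⟩ := h1
  rw [Polynomial.map_sub, map_X, map_C, eval_sub, eval_X, eval_C, sub_eq_zero] at ht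
  exact fix_of_psi hg hgσ hφ (split_sep ⟨T, hT⟩) hw ht

/-- The pattern `IsSwap`: two roots are exchanged, the other roots are fixed. -/
lemma pat_swap (hg : ∀ x : 𝓞 L, Φ (g • x) = Φ x ^ l)
    (hgσ : ∀ x : 𝓞 K, g • ro σ x = ro σ x) (hP : P.Monic) (hs : (P.map (res σ)).Splits)
    (hφ : (psi k l).comp φ = Φ.comp (ro σ)) {N : ℕ} (h : IsSwap N (P.map φ)) :
    ∃ w₁ ∈ Om P σ, ∃ w₂ ∈ Om P σ, w₁ ≠ w₂ ∧ g • w₁ = w₂ ∧ g • w₂ = w₁ ∧ w₁ ^ N ≠ w₂ ^ N ∧
      ∀ w ∈ Om P σ, w ≠ w₁ → w ≠ w₂ → g • w = w := by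
  have hsep := swap_sep h
  obtain ⟨a, b, T, hirr, hN, hf⟩ := h
  set ψ := psi k l with hψ
  have hfm : (P.map φ).map ψ = quad (ψ a) (ψ b) * ∏ t ∈ T, (X - C (ψ t)) := by
    rw [hf, Polynomial.map_mul, quad_map, Polynomial.map_prod]
    congr 1
    refine Finset.prod_congr rfl fun t _ => ?_
    rw [Polynomial.map_sub, map_X, map_C]
  have hq2 : (quad (ψ a) (ψ b)).natDegree = 2 := quad_natDegree _ _
  obtain ⟨s₁, hs₁⟩ : ∃ s : k, (quad (ψ a) (ψ b)).eval s = 0 := by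
    have h1 : (quad (ψ a) (ψ b)).Splits := by
      refine (splits_red hP hs hφ).of_dvd ((hP.map φ).map _).ne_zero ?_
      rw [hfm]
      exact dvd_mul_right _ _
    obtain ⟨s, hs⟩ := h1.exists_eval_eq_zero (by
      rw [degree_eq_natDegree (quad_monic _ _).ne_zero, hq2]
      norm_num)
    exact ⟨s, hs⟩
  have hno : ∀ x : ZMod l, (quad (ψ a) (ψ b)).eval (ψ x) ≠ 0 := by
    intro x hx
    rw [← quad_map, eval_map, Polynomial.eval₂_at_apply] at hx
    exact irr_no_root hirr (quad_natDegree a b).ge x ((map_eq_zero ψ).1 hx)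
  have hfr : ∀ s : k, (quad (ψ a) (ψ b)).eval s = 0 → (quad (ψ a) (ψ b)).eval (s ^ l) = 0 := by
    intro s hs
    rw [quad_eval] at hs ⊢
    have h1 := congrArg (fun x => x ^ l) hs
    simp only [zero_pow (Fact.out : l.Prime).ne_zero] at h1
    rw [add_pow_char, sub_pow_char, mul_pow, psi_pow, psi_pow] at h1
    rw [← pow_mul, mul_comm l 2, pow_mul]
    exact h1
  have hne : ∀ s : k, (quad (ψ a) (ψ b)).eval s = 0 → s ^ l ≠ s := by
    intro s hs h1
    obtain ⟨x, hx⟩ := mem_psi h1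
    apply hno x
    rw [← hψ] at hx
    rw [hx]
    exact hs
  have hsum : ∀ s : k, (quad (ψ a) (ψ b)).eval s = 0 → s + s ^ l = ψ a ∧ s * s ^ l = ψ b := by
    intro s hs
    have h1 := hfr s hs
    have h2 := hne s hs
    rw [quad_eval] at hs h1
    have h3 : (s - s ^ l) * (s + s ^ l - ψ a) = 0 := by linear_combination hs - h1
    have h4 := (mul_eq_zero.1 h3).resolve_left (sub_ne_zero.2 h2.symm)
    refine ⟨by linear_combination h4, ?_⟩
    linear_combination s * h4 - hs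
  obtain ⟨h12, h12'⟩ := hsum s₁ hs₁
  have hs₂ := hfr s₁ hs₁
  have h21 : (s₁ ^ l) ^ l = s₁ := by
    have h1 := (hsum _ hs₂).1
    linear_combination h1 - h12
  obtain ⟨w₁, hw₁, hΦ₁⟩ := om_surj hP hs hφ (s := s₁) (by
    rw [← hψ, hfm, eval_mul, hs₁, zero_mul])
  have hw₂ := om_smul hgσ hw₁
  have hΦ₂ : Φ (g • w₁) = s₁ ^ l := by rw [hg, hΦ₁]
  refine ⟨w₁, hw₁, g • w₁, hw₂, ?_, rfl, ?_, ?_, ?_⟩
  · intro h
    apply hne s₁ hs₁
    rw [← hΦ₂, ← h, hΦ₁]
  · refine om_inj hφ hsep (om_smul hgσ hw₂) hw₁ ?_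
    rw [hg, hΦ₂, h21, hΦ₁]
  · intro h
    have h1 := congrArg Φ h
    rw [map_pow, map_pow, hΦ₁, hΦ₂] at h1
    have h2 : s₁ ^ (2 * N) = ψ b ^ N := by
      rw [← h12', mul_pow, ← h1]
      ring
    have h3 : ((X ^ (2 * N) - C (b ^ N) : (ZMod l)[X]).map ψ).eval s₁ = 0 := by
      rw [Polynomial.map_sub, Polynomial.map_pow, map_X, map_C, eval_sub, eval_pow, eval_X,
        eval_C, map_pow, h2, sub_self]
    have h4 : IsCoprime ((quad a b).map ψ) ((X ^ (2 * N) - C (b ^ N) : (ZMod l)[X]).map ψ) :=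
      ((hirr.coprime_iff_not_dvd).2 hN).map (mapRingHom ψ)
    obtain ⟨u, v, huv⟩ := h4
    have h5 := congrArg (fun p => p.eval s₁) huv
    simp only [eval_add, eval_mul, h3, eval_one, mul_zero, add_zero] at h5
    rw [quad_map, hs₁, mul_zero] at h5
    exact zero_ne_one h5
  · intro w hw hw1 hw2
    have h1 := om_root hφ hw
    rw [← hψ, hfm, eval_mul, mul_eq_zero] at h1
    rcases h1 with h1 | h1
    · exfalso
      rw [quad_eval] at h1
      have h2 : (Φ w - s₁) * (Φ w - s₁ ^ l) = 0 := by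
        rw [← h12, ← h12'] at h1
        linear_combination h1
      rcases mul_eq_zero.1 h2 with h3 | h3
      · exact hw1 (om_inj hφ hsep hw hw₁ (by rw [hΦ₁]; exact sub_eq_zero.1 h3))
      · exact hw2 (om_inj hφ hsep hw hw₂ (by rw [hΦ₂]; exact sub_eq_zero.1 h3))
    · rw [eval_prod, Finset.prod_eq_zero_iff] at h1
      obtain ⟨t, -, ht⟩ := h1
      rw [eval_sub, eval_X, eval_C, sub_eq_zero] at ht
      exact fix_of_psi hg hgσ hφ hsep hw ht

lemma pow_smul_coe (hg : ∀ x : 𝓞 L, Φ (g • x) = Φ x ^ l) (n : ℕ) (x : 𝓞 L) :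
    Φ (g ^ n • x) = Φ x ^ l ^ n := by
  induction n with
  | zero => simp
  | succ n ih => rw [pow_succ', mul_smul, hg, ih, ← pow_mul, ← pow_succ]

lemma om_pow_smul (hgσ : ∀ x : 𝓞 K, g • ro σ x = ro σ x) (n : ℕ) {w : 𝓞 L} (hw : w ∈ Om P σ) :
    g ^ n • w ∈ Om P σ := by
  induction n with
  | zero => simpa using hw
  | succ n ih =>
    rw [pow_succ', mul_smul]
    exact om_smul hgσ ih

/-- Roots with images which are roots of the same irreducible factor. -/
lemma pat_cyc (hg : ∀ x : 𝓞 L, Φ (g • x) = Φ x ^ l)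
    (hgσ : ∀ x : 𝓞 K, g • ro σ x = ro σ x)
    (hφ : (psi k l).comp φ = Φ.comp (ro σ)) (hsep : (P.map φ).Separable)
    {e : (ZMod l)[X]} (he : Irreducible e) {w w' : 𝓞 L} (hw : w ∈ Om P σ) (hw' : w' ∈ Om P σ)
    (h : (e.map (psi k l)).eval (Φ w) = 0) (h' : (e.map (psi k l)).eval (Φ w') = 0) :
    ∃ n : ℕ, g ^ n • w = w' := by
  obtain ⟨n, hn⟩ := conj_roots he h h'
  refine ⟨n, om_inj hφ hsep (om_pow_smul hgσ n hw) hw' ?_⟩
  rw [pow_smul_coe hg, hn]

/-- The pattern `Irreducible`: a power of the Frobenius element maps a given root to another given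
root. -/
lemma pat_irr (hg : ∀ x : 𝓞 L, Φ (g • x) = Φ x ^ l)
    (hgσ : ∀ x : 𝓞 K, g • ro σ x = ro σ x)
    (hφ : (psi k l).comp φ = Φ.comp (ro σ)) (he : Irreducible (P.map φ)) {w w' : 𝓞 L}
    (hw : w ∈ Om P σ) (hw' : w' ∈ Om P σ) : ∃ n : ℕ, g ^ n • w = w' :=
  pat_cyc hg hgσ hφ (PerfectField.separable_of_irreducible he) he hw hw' (om_root hφ hw)
    (om_root hφ hw')

/-- The pattern `IsLin`. -/
lemma pat_lin (hg : ∀ x : 𝓞 L, Φ (g • x) = Φ x ^ l)
    (hgσ : ∀ x : 𝓞 K, g • ro σ x = ro σ x) (hP : P.Monic) (hs : (P.map (res σ)).Splits)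
    (hφ : (psi k l).comp φ = Φ.comp (ro σ)) (h : IsLin (P.map φ)) :
    ∃ w₀ ∈ Om P σ, g • w₀ = w₀ ∧ ∀ w ∈ Om P σ, ∀ w' ∈ Om P σ, w ≠ w₀ → w' ≠ w₀ →
      ∃ n : ℕ, g ^ n • w = w' := by
  have hsep := lin_sep h
  obtain ⟨t, e, he, h2, hf⟩ := h
  set ψ := psi k l with hψ
  have hfm : (P.map φ).map ψ = (X - C (ψ t)) * e.map ψ := by
    rw [hf, Polynomial.map_mul, Polynomial.map_sub, map_X, map_C]
  obtain ⟨w₀, hw₀, hΦ₀⟩ := om_surj hP hs hφ (s := ψ t) (by
    rw [← hψ, hfm, eval_mul, eval_sub, eval_X, eval_C, sub_self, zero_mul])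
  have key : ∀ w ∈ Om P σ, w ≠ w₀ → (e.map ψ).eval (Φ w) = 0 := by
    intro w hw hne
    have h1 := om_root hφ hw
    rw [← hψ, hfm, eval_mul, eval_sub, eval_X, eval_C, mul_eq_zero] at h1
    refine h1.resolve_left ?_
    intro h3
    apply hne
    refine om_inj hφ hsep hw hw₀ ?_
    rw [hΦ₀]
    exact sub_eq_zero.1 h3
  refine ⟨w₀, hw₀, fix_of_psi hg hgσ hφ hsep hw₀ hΦ₀, ?_⟩
  intro w hw w' hw' hne hne'
  exact pat_cyc hg hgσ hφ hsep he hw hw' (key w hw hne) (key w' hw' hne')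

end

end Pool.Agent.K1H12.UN
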