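import Pool.Agent.K1H12.UN.Swp

/-!
# Multiplicative relations between the roots
-/

set_option autoImplicit false

open Polynomial NumberField

namespace Pool.Agent.K1H12.UN

open Pool.Agent.W521.Frob Pool.Agent.W458.MF

section

variable {I : Type} {K : I → Type} [∀ i, Field (K i)] [∀ i, NumberField (K i)]
  [∀ i, IsCMField (K i)] {L : Type} [Field L] [NumberField L] {q : I → ℕ}
  {P : ∀ i, (𝓞 (K i))[X]} {R : ℤ[X]}

/-- Each two roots are exchanged by an automorphism, and their quotient is not a root of unity. -/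
def AllSwp (P : ∀ i, (𝓞 (K i))[X]) (R : ℤ[X]) (L : Type) [Field L] [NumberField L] : Prop :=
  ∀ i (σ : K i →+* L), (∃ z₁ ∈ Rt (P i) σ, ∃ z₂ ∈ Rt (P i) σ, z₁ ≠ z₂) ∧
    ∀ z₁ ∈ Rt (P i) σ, ∀ z₂ ∈ Rt (P i) σ, z₁ ≠ z₂ → Swp P R i σ z₁ z₂ ∧
      ∀ t : ℕ, 0 < t → z₁ ^ t ≠ z₂ ^ t

lemma exists_other (hS : AllSwp P R L) (i : I) (σ : K i →+* L) (z : L) :
    ∃ w ∈ Rt (P i) σ, w ≠ z := by
  obtain ⟨z₁, h1, z₂, h2, hne⟩ := (hS i σ).1
  by_cases h : z₁ = z
  · exact ⟨z₂, h2, fun h' => hne (h.trans h'.symm)⟩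
  · exact ⟨z₁, h1, h⟩

/-- The roots for different embeddings are different. -/
lemma disj (hD : Dat q P L) (hS : AllSwp P R L) (δ : ∀ i, 𝓞 (K i))
    (hdet : ∀ i, (P i).coeff 0 = (-1) ^ (P i).natDegree * δ i)
    (hsep : ∀ i (σ : K i →+* L), ((P i).map (res σ)).Separable)
    (hδ : ∀ i (σ : K i →+* L), (res σ (δ i)) ^ 2 ≠ (q i : L) ^ 2) (i : I) {σ τ : K i →+* L}
    (hne : σ ≠ τ) {z : L} (hz : z ∈ Rt (P i) σ) (hz' : z ∈ Rt (P i) τ) : False := by
  classical
  by_cases h : τ = bar σ
  · subst h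
    have hy := hD.dual i _ _ hz'
    rw [bar_bar] at hy
    set y := (q i : L) / z with hyd
    have hz0 := hD.ne i σ z hz
    have hy0 := hD.ne i σ y hy
    have hq0 : (q i : L) ≠ 0 := by
      intro h
      rw [hyd, h, zero_div] at hy0
      exact hy0 rfl
    have hzy : z * y = q i := by
      rw [hyd]
      field_simp
    have key : ∀ w ∈ Rt (P i) σ, w ≠ z → y = z ∨ y = w := by
      intro w hw hwz
      by_contra hcon
      push Not at hcon
      obtain ⟨⟨g, g1, g2, g3, -⟩, -⟩ := (hS i σ).2 z hz w hw (Ne.symm hwz)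
      have h1 := g3 y hy hcon.1 hcon.2
      rw [hyd, map_div₀, map_natCast, g1] at h1
      apply hwz
      have hw0 := hD.ne i σ w hw
      field_simp at h1
      exact h1.symm
    have key2 : y = z → ∀ w ∈ Rt (P i) σ, w ≠ z → w = -z := by
      intro hyz w hw hwz
      obtain ⟨⟨g, g1, g2, g3, -⟩, -⟩ := (hS i σ).2 z hz w hw (Ne.symm hwz)
      rw [hyz] at hzy
      have h1 := congrArg g hzy
      rw [map_mul, map_natCast, g1, ← hzy] at h1
      have h2 : (w - z) * (w + z) = 0 := by linear_combination h1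
      have h3 := (mul_eq_zero.1 h2).resolve_left (sub_ne_zero.2 hwz)
      linear_combination h3
    obtain ⟨w, hw, hwz⟩ := exists_other hS i σ z
    have honly : ∀ u ∈ Rt (P i) σ, u = z ∨ u = w := by
      intro u hu
      by_contra hcon
      push Not at hcon
      by_cases hyz : y = z
      · exact hcon.2 ((key2 hyz u hu hcon.1).trans (key2 hyz w hw hwz).symm)
      · have h1 := (key w hw hwz).resolve_left hyz
        have h2 := (key u hu hcon.1).resolve_left hyz
        exact hcon.2 (h2.symm.trans h1)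
    have hzw : (z * w) ^ 2 = (q i : L) ^ 2 := by
      rcases key w hw hwz with h1 | h1
      · rw [key2 h1 w hw hwz, ← hzy, h1]
        ring
      · rw [← h1, hzy]
    apply hδ i σ
    rw [← hzw]
    have hP0 : (P i).map (res σ) ≠ 0 := ((hD.monic i).map _).ne_zero
    have hroots : ((P i).map (res σ)).roots = {z, w} := by
      have hnd := nodup_roots (hsep i σ)
      refine (Multiset.Nodup.ext hnd ?_).2 ?_
      · rw [Multiset.insert_eq_cons, Multiset.nodup_cons]
        simp [hwz.symm]
      · intro u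
        rw [mem_roots hP0, IsRoot.def, eval_map]
        simp only [Multiset.insert_eq_cons, Multiset.mem_cons, Multiset.mem_singleton]
        constructor
        · exact honly u
        · rintro (rfl | rfl)
          · exact hz
          · exact hw
    have hprod := (hD.splits i σ).eq_prod_roots_of_monic ((hD.monic i).map _)
    rw [hroots] at hprod
    have hdeg : (P i).natDegree = 2 := by
      rw [← (hD.monic i).natDegree_map (res σ), (hD.splits i σ).natDegree_eq_card_roots, hroots]
      rfl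
    have h0 := congrArg (fun f => f.coeff 0) hprod
    simp only [coeff_map, hdet, hdeg] at h0
    have h2 : ((Multiset.map (fun a => X - C a) ({z, w} : Multiset L)).prod).coeff 0 = z * w := by
      rw [Polynomial.coeff_zero_eq_eval_zero, eval_multiset_prod]
      simp
    rw [h2] at h0
    rw [← h0]
    simp
  · obtain ⟨w, hw, hwz⟩ := exists_other hS i σ z
    obtain ⟨⟨g, g1, -, -, g4, -⟩, -⟩ := (hS i σ).2 z hz w hw (Ne.symm hwz)
    have h1 := g4 τ (Ne.symm hne) h z hz'
    rw [g1] at h1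
    exact hwz h1

/-- The products for automorphisms which fix the roots of `R`. -/
lemma prod_gal (l' : List (I × L)) {t : ℕ} {ν' : L} {c : ℕ} (hc : 0 < c)
    (hν' : ν' ∈ Submonoid.closure {x : L | aeval x R = 0})
    (hPe : (l'.map fun x => x.2).prod ^ t * ν' = (c : L)) (g : Gal(L/ℚ))
    (hg : ∀ β : L, aeval β R = 0 → g β = β) :
    ((l'.map fun x : I × L => g x.2 / x.2).prod) ^ t = 1 := by
  have hc0 : ((c : ℕ) : L) ≠ 0 := by
    have : c ≠ 0 := hc.ne'
    exact_mod_cast this
  have hν0 : ν' ≠ 0 := by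
    intro h0
    rw [h0, mul_zero] at hPe
    exact hc0 hPe.symm
  have hPt : (l'.map fun x => x.2).prod ^ t ≠ 0 := by
    intro h0
    rw [h0, zero_mul] at hPe
    exact hc0 hPe.symm
  have hσν : g ν' = ν' := by
    have hall : ∀ y ∈ Submonoid.closure {x : L | aeval x R = 0}, g y = y := by
      intro y hy
      induction hy using Submonoid.closure_induction with
      | mem x hx => exact hg x hx
      | one => exact map_one g
      | mul x y _ _ h1 h2 => rw [map_mul, h1, h2]
    exact hall ν' hν'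
  have hσP : (g (l'.map fun x => x.2).prod) ^ t = (l'.map fun x => x.2).prod ^ t := by
    have h1 := congrArg g hPe
    rw [map_mul, map_pow, hσν, map_natCast, ← hPe] at h1
    exact mul_right_cancel₀ hν0 h1
  have hprodf : (l'.map fun x : I × L => g x.2 / x.2).prod =
      g (l'.map fun x => x.2).prod / (l'.map fun x => x.2).prod := by
    have e1 : ∀ k : List (I × L), (k.map fun x : I × L => g x.2 / x.2).prod =
        g (k.map fun x => x.2).prod / (k.map fun x => x.2).prod := by
      intro k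
      induction k with
      | nil => simp
      | cons a k ih =>
        rw [List.map_cons, List.prod_cons, ih, List.map_cons, List.prod_cons, map_mul,
          div_mul_div_comm]
    exact e1 l'
  rw [hprodf, div_pow, hσP, div_self hPt]

/-- The differences of the multiplicities are constant. -/
lemma const_diff [DecidableEq I] [DecidableEq L] (hD : Dat q P L) (hS : AllSwp P R L) (hdj : ∀ (i : I) (σ τ : K i →+* L), σ ≠ τ →
      ∀ z, z ∈ Rt (P i) σ → z ∉ Rt (P i) τ)
    (l' : List (I × L)) (hl' : ∀ x ∈ l', ∃ σ : K x.1 →+* L, x.2 ∈ Rt (P x.1) σ) {t : ℕ}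
    (ht : 0 < t) {ν' : L} {c : ℕ} (hc : 0 < c)
    (hν' : ν' ∈ Submonoid.closure {x : L | aeval x R = 0})
    (hPe : (l'.map fun x => x.2).prod ^ t * ν' = (c : L)) (i : I) (σ : K i →+* L) {z₁ z₂ : L}
    (h₁ : z₁ ∈ Rt (P i) σ) (h₂ : z₂ ∈ Rt (P i) σ) :
    (l'.count (i, z₁) : ℤ) - l'.count (i, (q i : L) / z₁) =
      l'.count (i, z₂) - l'.count (i, (q i : L) / z₂) := by
  by_cases hne : z₁ = z₂
  · rw [hne]
  obtain ⟨⟨g, g1, g2, g3, g4, g5, g6⟩, hrou⟩ := (hS i σ).2 z₁ h₁ z₂ h₂ hne
  have hb₁ := hD.dual i σ z₁ h₁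
  have hb₂ := hD.dual i σ z₂ h₂
  have z10 := hD.ne i σ z₁ h₁
  have z20 := hD.ne i σ z₂ h₂
  have hq0 : (q i : L) ≠ 0 := by
    intro h
    apply hD.ne i _ _ hb₁
    rw [h, zero_div]
  have hdis : ∀ x ∈ Rt (P i) σ, ∀ y ∈ Rt (P i) (bar σ), x ≠ y := by
    intro x hx y hy hxy
    exact hdj i σ (bar σ) (bar_ne σ).symm x hx (hxy ▸ hy)
  have hqq : (q i : L) / z₁ ≠ (q i : L) / z₂ := by
    intro h
    apply hne
    field_simp at h
    exact h.symm
  have hprod := prod_gal l' hc hν' hPe g g6
  set ρ : L := z₂ / z₁ with hρ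
  have hρ0 : ρ ≠ 0 := div_ne_zero z20 z10
  have hpair : ∀ x y : L, x ≠ y → ((i, x) : I × L) ≠ (i, y) := by
    intro x y hxy h
    exact hxy (congrArg Prod.snd h)
  have h4 := W928.MF.prod_four (fun x : I × L => g x.2 / x.2) (i, z₁) (i, z₂)
    (i, (q i : L) / z₂) (i, (q i : L) / z₁) (hpair _ _ hne) (hpair _ _ (hdis _ h₁ _ hb₂))
    (hpair _ _ (hdis _ h₁ _ hb₁)) (hpair _ _ (hdis _ h₂ _ hb₂)) (hpair _ _ (hdis _ h₂ _ hb₁))
    (hpair _ _ hqq.symm) ρ ρ hρ0 hρ0 (by simp only [g1, hρ]) (by simp only [g2, hρ, inv_div])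
    (by
      simp only [map_div₀, map_natCast, g2, hρ]
      field_simp) (by
      simp only [map_div₀, map_natCast, g1, hρ, inv_div]
      field_simp) l' (by
      rintro ⟨i', x⟩ hx n1 n2 n3 n4
      obtain ⟨τ, hτ⟩ := hl' _ hx
      dsimp only at hτ ⊢
      by_cases hi : i' = i
      · subst hi
        have hx0 := hD.ne i' τ x hτ
        have hgx : g x = x := by
          by_cases h5 : τ = σ
          · subst h5
            exact g3 x hτ (fun h => n1 (by rw [h])) (fun h => n2 (by rw [h]))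
          · by_cases h6 : τ = bar σ
            · subst h6
              have h7 := hD.dual i' _ x hτ
              rw [bar_bar] at h7
              have h8 : (q i' : L) / ((q i' : L) / x) = x := div_div_cancel₀ hq0
              have h9 := g3 _ h7 (fun h => n4 (by rw [← h, h8])) (fun h => n3 (by rw [← h, h8]))
              rw [map_div₀, map_natCast] at h9
              rw [← h8, map_div₀, map_natCast, map_div₀, map_natCast, h9]
            · exact g4 τ h5 h6 x hτ
        rw [hgx, div_self hx0]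
      · rw [g5 i' hi τ x hτ, div_self (hD.ne i' τ x hτ)])
  have h5 : ρ ^ ((l'.count (i, z₂) + l'.count (i, (q i : L) / z₁)) * t) =
      ρ ^ ((l'.count (i, z₁) + l'.count (i, (q i : L) / z₂)) * t) := by
    have h6 := congrArg (fun x => x ^ t) h4
    simp only [mul_pow, hprod, one_mul] at h6
    rw [← mul_pow, ← mul_pow, ← pow_add, ← pow_add, ← pow_mul, ← pow_mul] at h6
    exact h6
  have fin : ∀ A d : ℕ, ρ ^ ((A + d + 1) * t) = ρ ^ (A * t) → False := by
    intro A d hk
    have h7 : (A + d + 1) * t = A * t + (d + 1) * t := by ring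
    rw [h7, pow_add] at hk
    have h8 : ρ ^ ((d + 1) * t) = 1 := by
      have h9 : ρ ^ (A * t) * ρ ^ ((d + 1) * t) = ρ ^ (A * t) * 1 := by rw [hk, mul_one]
      exact mul_left_cancel₀ (pow_ne_zero _ hρ0) h9
    rw [hρ, div_pow, div_eq_one_iff_eq (pow_ne_zero _ z10)] at h8
    exact hrou ((d + 1) * t) (by positivity) h8.symm
  rcases lt_trichotomy (l'.count (i, z₂) + l'.count (i, (q i : L) / z₁))
    (l'.count (i, z₁) + l'.count (i, (q i : L) / z₂)) with h | h | h
  · exfalso
    obtain ⟨d, hd⟩ := Nat.exists_eq_add_of_lt h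
    rw [hd] at h5
    exact fin _ d h5.symm
  · omega
  · exfalso
    obtain ⟨d, hd⟩ := Nat.exists_eq_add_of_lt h
    rw [hd] at h5
    exact fin _ d h5

end

end Pool.Agent.K1H12.UN
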