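import Pool.Agent.K1H12.UN.Gal

/-!
# Automorphisms which exchange two roots
-/

set_option autoImplicit false

open Polynomial NumberField

namespace Pool.Agent.K1H12.UN

open Pool.Agent.W521.Frob Pool.Agent.W458.MF

section Conj

variable (K : Type) [Field K] [NumberField K] [IsCMField K]

/-- The complex conjugation of a CM field. -/
noncomputable def ck : K →+* K := ((IsCMField.complexConj K).toRingEquiv : K →+* K)

variable {K}

lemma ck_ck (x : K) : ck K (ck K x) = x := IsCMField.complexConj_apply_apply K x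

lemma cj_coe (x : 𝓞 K) : ((cj K x : 𝓞 K) : K) = ck K x :=
  IsCMField.coe_ringOfIntegersComplexConj K x

lemma cj_cj (x : 𝓞 K) : cj K (cj K x) = x := by
  apply RingOfIntegers.coe_injective
  change ((cj K (cj K x) : 𝓞 K) : K) = x
  rw [cj_coe, cj_coe, ck_ck]

/-- The complex conjugate of an embedding. -/
noncomputable def bar {L : Type*} [Field L] (σ : K →+* L) : K →+* L := σ.comp (ck K)

variable {L : Type} [Field L]

lemma bar_bar (σ : K →+* L) : bar (bar σ) = σ := by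
  ext x
  exact congrArg σ (ck_ck x)

lemma res_bar (σ : K →+* L) (x : 𝓞 K) : res (bar σ) x = res σ (cj K x) := by
  change σ (ck K x) = σ ((cj K x : 𝓞 K) : K)
  rw [cj_coe]

lemma ro_bar (σ : K →+* L) : ro (bar σ) = (ro σ).comp (cj K) := by
  ext x
  exact res_bar σ x

lemma bar_ne (σ : K →+* L) : bar σ ≠ σ := by
  intro h
  apply IsCMField.complexConj_ne_one K
  ext x
  apply σ.injective
  exact congrArg (fun ρ : K →+* L => ρ x) h

lemma bar_inj {σ τ : K →+* L} (h : bar σ = bar τ) : σ = τ := by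
  rw [← bar_bar σ, h, bar_bar]

end Conj

section Data

variable {I : Type} {K : I → Type} [∀ i, Field (K i)] [∀ i, NumberField (K i)]
  [∀ i, IsCMField (K i)] {L : Type} [Field L] [NumberField L]

/-- The roots of the image of `P` under `σ`, in the field `L`. -/
def Rt {F : Type} [Field F] (P : (𝓞 F)[X]) (σ : F →+* L) : Set L := {z | eval₂ (res σ) z P = 0}

/-- The composition with an automorphism. -/
def gc {F : Type} [Field F] (g : Gal(L/ℚ)) (σ : F →+* L) : F →+* L :=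
  ((g : L ≃+* L) : L →+* L).comp σ

lemma gc_mul {F : Type} [Field F] (g g' : Gal(L/ℚ)) (σ : F →+* L) :
    gc g (gc g' σ) = gc (g * g') σ := rfl

lemma gc_one {F : Type} [Field F] (σ : F →+* L) : gc (1 : Gal(L/ℚ)) σ = σ := by
  ext x
  rfl

lemma gc_bar {F : Type} [Field F] [NumberField F] [IsCMField F] (g : Gal(L/ℚ)) (σ : F →+* L) :
    gc g (bar σ) = bar (gc g σ) := rfl

lemma rt_gc {F : Type} [Field F] {P : (𝓞 F)[X]} (g : Gal(L/ℚ)) {σ : F →+* L} {z : L}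
    (hz : z ∈ Rt P σ) : g z ∈ Rt P (gc g σ) := by
  have h1 : eval₂ (res (gc g σ)) (g z) P = ((g : L ≃+* L) : L →+* L) (eval₂ (res σ) z P) := by
    rw [Polynomial.hom_eval₂]
    rfl
  change eval₂ (res (gc g σ)) (g z) P = 0
  rw [h1, show eval₂ (res σ) z P = 0 from hz, map_zero]

/-- The hypotheses on the polynomials. -/
structure Dat (q : I → ℕ) (P : ∀ i, (𝓞 (K i))[X]) (L : Type) [Field L] : Prop where
  monic : ∀ i, (P i).Monic
  q_ne : ∀ i, q i ≠ 0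
  splits : ∀ i (σ : K i →+* L), ((P i).map (res σ)).Splits
  dual : ∀ i (σ : K i →+* L) (z : L), z ∈ Rt (P i) σ → (q i : L) / z ∈ Rt (P i) (bar σ)
  ne : ∀ i (σ : K i →+* L) (z : L), z ∈ Rt (P i) σ → z ≠ 0

/-- There is an automorphism which exchanges the roots `z₁` and `z₂` of the image of `P i` under
`σ`, fixes the other roots of this image, the roots of the images of `P i` under the embeddings
different from `σ` and its conjugate, the roots of the images of the other polynomials, and the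
roots of `R`. -/
def Swp (P : ∀ i, (𝓞 (K i))[X]) (R : ℤ[X]) (i : I) (σ : K i →+* L) (z₁ z₂ : L) : Prop :=
  ∃ g : Gal(L/ℚ), g z₁ = z₂ ∧ g z₂ = z₁ ∧ (∀ z ∈ Rt (P i) σ, z ≠ z₁ → z ≠ z₂ → g z = z) ∧
    (∀ τ : K i →+* L, τ ≠ σ → τ ≠ bar σ → ∀ z ∈ Rt (P i) τ, g z = z) ∧
    (∀ i', i' ≠ i → ∀ τ : K i' →+* L, ∀ z ∈ Rt (P i') τ, g z = z) ∧
    ∀ β : L, aeval β R = 0 → g β = β

lemma swp_conj {P : ∀ i, (𝓞 (K i))[X]} {R : ℤ[X]} {i : I} {σ : K i →+* L} {z₁ z₂ : L}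
    (h : Swp P R i σ z₁ z₂) (τ : Gal(L/ℚ)) : Swp P R i (gc τ σ) (τ z₁) (τ z₂) := by
  obtain ⟨g, h1, h2, h3, h4, h5, h6⟩ := h
  have e : ∀ x : L, τ (τ⁻¹ x) = x := fun x => by
    change (τ * τ⁻¹) x = x
    rw [mul_inv_cancel]
    rfl
  have e' : ∀ x : L, τ⁻¹ (τ x) = x := fun x => by
    change (τ⁻¹ * τ) x = x
    rw [inv_mul_cancel]
    rfl
  have hgc : ∀ {F : Type} [Field F] (ρ : F →+* L), gc τ (gc τ⁻¹ ρ) = ρ := by
    intro F _ ρ
    rw [gc_mul, mul_inv_cancel, gc_one]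
  refine ⟨τ * g * τ⁻¹, ?_, ?_, ?_, ?_, ?_, ?_⟩
  · change τ (g (τ⁻¹ (τ z₁))) = τ z₂
    rw [e', h1]
  · change τ (g (τ⁻¹ (τ z₂))) = τ z₁
    rw [e', h2]
  · intro z hz n1 n2
    change τ (g (τ⁻¹ z)) = z
    have hz' := rt_gc τ⁻¹ hz
    rw [gc_mul, inv_mul_cancel, gc_one] at hz'
    rw [h3 _ hz', e]
    · intro h
      apply n1
      rw [← h, e]
    · intro h
      apply n2
      rw [← h, e]
  · intro ρ n1 n2 z hz
    change τ (g (τ⁻¹ z)) = z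
    rw [h4 (gc τ⁻¹ ρ) ?_ ?_ _ (rt_gc τ⁻¹ hz), e]
    · intro h
      apply n1
      rw [← h, hgc]
    · intro h
      apply n2
      rw [← gc_bar, ← h, hgc]
  · intro i' hi' ρ z hz
    change τ (g (τ⁻¹ z)) = z
    rw [h5 i' hi' _ _ (rt_gc τ⁻¹ hz), e]
  · intro β hβ
    change τ (g (τ⁻¹ β)) = β
    rw [h6, e]
    have h7 := hom_aeval (((τ⁻¹ : Gal(L/ℚ)) : L ≃+* L) : L →+* L) β R
    rw [hβ, map_zero] at h7
    exact h7.symm

end Data

section Exists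

variable {I : Type} {K : I → Type} [∀ i, Field (K i)] [∀ i, NumberField (K i)]
  [∀ i, IsCMField (K i)] {L : Type} [Field L] [NumberField L] [IsGalois ℚ L] {q : I → ℕ}
  {P : ∀ i, (𝓞 (K i))[X]} {R : ℤ[X]} {θ : ∀ i, 𝓞 (K i)} {M : I → ℕ}

/-- The families of polynomials such that for each pair of complex conjugate homomorphisms one of
the polynomials is a product of different linear factors. -/
def splitPat {F : Type} [Field F] [NumberField F] [IsCMField F] (l : ℕ) :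
    Set ((𝓞 F →+* ZMod l) → (ZMod l)[X]) :=
  {f | ∀ φ, IsSplit (f φ) ∨ IsSplit (f (φ.comp (cj F)))}

/-- The families of polynomials with the pattern `IsSwap` for one homomorphism, such that for each
other pair of complex conjugate homomorphisms one of the polynomials is a product of different
linear factors. -/
def swapPat {F : Type} [Field F] [NumberField F] [IsCMField F] (N l : ℕ) :
    Set ((𝓞 F →+* ZMod l) → (ZMod l)[X]) :=
  {f | ∃ φ₀, IsSwap N (f φ₀) ∧ ∀ φ, φ ≠ φ₀ → φ ≠ φ₀.comp (cj F) →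
    IsSplit (f φ) ∨ IsSplit (f (φ.comp (cj F)))}

/-- The families of polynomials one of which is irreducible. -/
def irrPat {F : Type} [Field F] (l : ℕ) : Set ((𝓞 F →+* ZMod l) → (ZMod l)[X]) :=
  {f | ∃ φ₀, Irreducible (f φ₀)}

/-- The families of polynomials one of which has the pattern `IsLin`. -/
def linPat {F : Type} [Field F] (l : ℕ) : Set ((𝓞 F →+* ZMod l) → (ZMod l)[X]) :=
  {f | ∃ φ₀, IsLin (f φ₀)}

omit [IsGalois ℚ L] in
lemma q_div_div (hD : Dat q P L) (i : I) {σ : K i →+* L} {z : L} (hz : z ∈ Rt (P i) σ) :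
    (q i : L) / ((q i : L) / z) = z := by
  have h0 := hD.ne i σ z hz
  have h1 := hD.ne i _ _ (hD.dual i σ z hz)
  have h2 : (q i : L) ≠ 0 := by
    intro h
    rw [h, zero_div] at h1
    exact h1 rfl
  exact div_div_cancel₀ h2

omit [IsGalois ℚ L] in
/-- All roots are fixed. -/
lemma fix_split (hD : Dat q P L) (i : I) (hθ : IsGen (θ i) (M i)) {l : ℕ} (hl : l.Prime)
    (hs : SplitsMod (gp (θ i)) l) {k : Type} [Field k] [CharP k l] {Φ : 𝓞 L →+* k} {g : Gal(L/ℚ)}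
    (hg : ∀ x : 𝓞 L, Φ (g • x) = Φ x ^ l) (σ : K i →+* L)
    (h : ∀ φ : 𝓞 (K i) →+* ZMod l, (ZMod.castHom dvd_rfl k).comp φ = Φ.comp (ro σ) →
      IsSplit ((P i).map φ) ∨ IsSplit ((P i).map (φ.comp (cj (K i))))) {z : L}
    (hz : z ∈ Rt (P i) σ) : g z = z := by
  have : Fact l.Prime := ⟨hl⟩
  obtain ⟨φ, hφ⟩ := exists_phi (k := k) hg hθ hs σ
  rcases h φ hφ with h | h
  · obtain ⟨w, hw, hw'⟩ := exists_om (hD.monic i) (show eval₂ (res σ) z (P i) = 0 from hz)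
    have h1 := pat_split hg (frob_emb hg hθ hs σ) hφ h hw'
    rw [← hw, ← smul_coe, h1]
  · have hφ' : (psi k l).comp (φ.comp (cj (K i))) = Φ.comp (ro (bar σ)) := by
      rw [ro_bar, ← RingHom.comp_assoc, ← RingHom.comp_assoc, hφ]
    have hz' := hD.dual i σ z hz
    obtain ⟨w, hw, hw'⟩ := exists_om (hD.monic i)
      (show eval₂ (res (bar σ)) ((q i : L) / z) (P i) = 0 from hz')
    have h1 := pat_split hg (frob_emb hg hθ hs (bar σ)) hφ' h hw'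
    have h2 : g ((q i : L) / z) = (q i : L) / z := by
      rw [← hw, ← smul_coe, h1]
    rw [map_div₀, map_natCast] at h2
    have h3 := q_div_div hD i hz
    rw [← h2, div_div_cancel₀] at h3
    · exact h3
    · intro h0
      apply hD.ne i _ _ hz'
      rw [h0, zero_div]

/-- The pattern `swapPat` gives an automorphism which exchanges two roots. -/
lemma exists_swp (hD : Dat q P L) (hθ : ∀ i, IsGen (θ i) (M i)) (i₀ : I) (σ₀ : K i₀ →+* L)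
    {l N : ℕ} (hl : l.Prime) (hs : ∀ i, SplitsMod (gp (θ i)) l) (hM : ¬ l ∣ M i₀)
    (hR : R.Monic) (hRs : SplitsMod R l)
    (hsw : (fun φ => (P i₀).map φ) ∈ swapPat (F := K i₀) N l)
    (hsp : ∀ i, i ≠ i₀ → (fun φ => (P i).map φ) ∈ splitPat (F := K i) l) :
    ∃ (σ : K i₀ →+* L) (z₁ z₂ : L), z₁ ∈ Rt (P i₀) σ ∧ z₂ ∈ Rt (P i₀) σ ∧ z₁ ≠ z₂ ∧
      z₁ ^ N ≠ z₂ ^ N ∧ Swp P R i₀ σ z₁ z₂ := by
  have : Fact l.Prime := ⟨hl⟩
  obtain ⟨k, _, _, Φ, g, hg⟩ := exists_frob L l hl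
  obtain ⟨φ₀, h0, h1⟩ := hsw
  obtain ⟨σ, hσ⟩ := exists_emb (k := k) hg (hθ i₀) (hs i₀) hM σ₀ φ₀
  obtain ⟨w₁, hw₁, w₂, hw₂, hne, e1, e2, hN, hfix⟩ := pat_swap hg (frob_emb hg (hθ i₀) (hs i₀) σ)
    (hD.monic i₀) (hD.splits i₀ σ) hσ h0
  refine ⟨σ, w₁, w₂, om_coe.1 hw₁, om_coe.1 hw₂,
    fun h => hne (RingOfIntegers.coe_injective h), ?_, g, ?_, ?_, ?_, ?_, ?_, ?_⟩
  · intro h
    apply hN
    apply RingOfIntegers.coe_injective
    rw [map_pow, map_pow]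
    exact h
  · rw [← smul_coe, e1]
  · rw [← smul_coe, e2]
  · intro z hz n1 n2
    obtain ⟨w, hw, hw'⟩ := exists_om (hD.monic i₀) (show eval₂ (res σ) z (P i₀) = 0 from hz)
    rw [← hw, ← smul_coe, hfix w hw' (fun h => n1 (by rw [← hw, h])) (fun h => n2 (by rw [← hw, h]))]
  · intro τ n1 n2 z hz
    refine fix_split hD i₀ (hθ i₀) hl (hs i₀) hg τ ?_ hz
    intro φ hφ
    refine h1 φ ?_ ?_
    · rintro rfl
      exact n1 (emb_inj (hθ i₀) (hs i₀) (hφ.symm.trans hσ))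
    · rintro rfl
      refine n2 (emb_inj (hθ i₀) (hs i₀) (hφ.symm.trans ?_))
      rw [ro_bar, ← RingHom.comp_assoc, ← RingHom.comp_assoc]
      exact congrArg (fun ρ => RingHom.comp ρ (cj (K i₀))) hσ
  · intro i hi τ z hz
    exact fix_split hD i (hθ i) hl (hs i) hg τ (fun φ _ => hsp i hi φ) hz
  · intro β hβ
    have hint : IsIntegral ℤ β := ⟨R, hR, hβ⟩
    have h2 : aeval (⟨β, hint⟩ : 𝓞 L) R = 0 := by
      apply RingOfIntegers.coe_injective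
      have h3 := hom_aeval (algebraMap (𝓞 L) L) (⟨β, hint⟩ : 𝓞 L) R
      exact h3.trans (hβ.trans (map_zero _).symm)
    have h3 := frob_fix hg hRs h2
    exact congrArg (fun x : 𝓞 L => (x : L)) h3

/-- The pattern `irrPat` gives the transitivity on the roots. -/
lemma exists_irr (hD : Dat q P L) (i : I) (hθ : IsGen (θ i) (M i)) (σ₀ : K i →+* L)
    {l : ℕ} (hl : l.Prime) (hs : SplitsMod (gp (θ i)) l) (hM : ¬ l ∣ M i)
    (hsw : (fun φ => (P i).map φ) ∈ irrPat (F := K i) l) {z z' : L} (hz : z ∈ Rt (P i) σ₀)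
    (hz' : z' ∈ Rt (P i) σ₀) : ∃ g : Gal(L/ℚ), gc g σ₀ = σ₀ ∧ g z = z' := by
  have : Fact l.Prime := ⟨hl⟩
  obtain ⟨k, _, _, Φ, g, hg⟩ := exists_frob L l hl
  obtain ⟨φ₀, h0⟩ := hsw
  obtain ⟨σ, hσ⟩ := exists_emb (k := k) hg hθ hs hM σ₀ φ₀
  obtain ⟨τ, hτ⟩ := exists_gal (L := L) hθ σ₀ σ
  have hτ' : gc τ σ₀ = σ := hτ
  have e' : ∀ x : L, τ⁻¹ (τ x) = x := fun x => by
    change (τ⁻¹ * τ) x = x
    rw [inv_mul_cancel]
    rfl
  have h1 := rt_gc τ hz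
  have h2 := rt_gc τ hz'
  rw [hτ'] at h1 h2
  obtain ⟨w, hw, hw'⟩ := exists_om (hD.monic i) (show eval₂ (res σ) (τ z) (P i) = 0 from h1)
  obtain ⟨v, hv, hv'⟩ := exists_om (hD.monic i) (show eval₂ (res σ) (τ z') (P i) = 0 from h2)
  obtain ⟨n, hn⟩ := pat_irr hg (frob_emb hg hθ hs σ) hσ h0 hw' hv'
  have hgn : gc (g ^ n) σ = σ := by
    refine hθ.emb_ext ?_
    have h3 : ∀ m : ℕ, g ^ m • ro σ (θ i) = ro σ (θ i) := by
      intro m
      induction m with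
      | zero => simp
      | succ m ih => rw [pow_succ, mul_smul, frob_emb hg hθ hs σ, ih]
    exact congrArg (fun x : 𝓞 L => (x : L)) (h3 n)
  refine ⟨τ⁻¹ * g ^ n * τ, ?_, ?_⟩
  · rw [← gc_mul, hτ', ← gc_mul, hgn, ← hτ', gc_mul, inv_mul_cancel, gc_one]
  · change τ⁻¹ ((g ^ n) (τ z)) = z'
    rw [← hw, ← smul_coe, hn, hv, e']

/-- The pattern `linPat` gives a root whose stabiliser is transitive on the other roots. -/
lemma exists_lin (hD : Dat q P L) (i : I) (hθ : IsGen (θ i) (M i)) (σ₀ : K i →+* L)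
    {l : ℕ} (hl : l.Prime) (hs : SplitsMod (gp (θ i)) l) (hM : ¬ l ∣ M i)
    (hsw : (fun φ => (P i).map φ) ∈ linPat (F := K i) l) :
    ∃ z₀ ∈ Rt (P i) σ₀, ∀ z ∈ Rt (P i) σ₀, ∀ z' ∈ Rt (P i) σ₀, z ≠ z₀ → z' ≠ z₀ →
      ∃ g : Gal(L/ℚ), gc g σ₀ = σ₀ ∧ g z₀ = z₀ ∧ g z = z' := by
  have : Fact l.Prime := ⟨hl⟩
  obtain ⟨k, _, _, Φ, g, hg⟩ := exists_frob L l hl
  obtain ⟨φ₀, h0⟩ := hsw
  obtain ⟨σ, hσ⟩ := exists_emb (k := k) hg hθ hs hM σ₀ φ₀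
  obtain ⟨τ, hτ⟩ := exists_gal (L := L) hθ σ₀ σ
  have hτ' : gc τ σ₀ = σ := hτ
  have e' : ∀ x : L, τ⁻¹ (τ x) = x := fun x => by
    change (τ⁻¹ * τ) x = x
    rw [inv_mul_cancel]
    rfl
  have e : ∀ x : L, τ (τ⁻¹ x) = x := fun x => by
    change (τ * τ⁻¹) x = x
    rw [mul_inv_cancel]
    rfl
  obtain ⟨w₀, hw₀, hf, htr⟩ := pat_lin hg (frob_emb hg hθ hs σ) (hD.monic i) (hD.splits i σ) hσ h0
  have h3 := rt_gc τ⁻¹ (om_coe.1 hw₀ : (w₀ : L) ∈ Rt (P i) σ)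
  have hσ₀ : gc τ⁻¹ σ = σ₀ := by rw [← hτ', gc_mul, inv_mul_cancel, gc_one]
  rw [hσ₀] at h3
  refine ⟨τ⁻¹ w₀, h3, ?_⟩
  intro z hz z' hz' hne hne'
  have h1 := rt_gc τ hz
  have h2 := rt_gc τ hz'
  rw [hτ'] at h1 h2
  obtain ⟨w, hw, hw'⟩ := exists_om (hD.monic i) (show eval₂ (res σ) (τ z) (P i) = 0 from h1)
  obtain ⟨v, hv, hv'⟩ := exists_om (hD.monic i) (show eval₂ (res σ) (τ z') (P i) = 0 from h2)
  obtain ⟨n, hn⟩ := htr w hw' v hv' (by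
    rintro rfl
    apply hne
    rw [hw, e']) (by
    rintro rfl
    apply hne'
    rw [hv, e'])
  have h4 : ∀ (m : ℕ) (x : 𝓞 L), g • x = x → g ^ m • x = x := by
    intro m x hx
    induction m with
    | zero => simp
    | succ m ih => rw [pow_succ, mul_smul, hx, ih]
  have hgn : gc (g ^ n) σ = σ := by
    refine hθ.emb_ext ?_
    exact congrArg (fun x : 𝓞 L => (x : L)) (h4 n _ (frob_emb hg hθ hs σ (θ i)))
  refine ⟨τ⁻¹ * g ^ n * τ, ?_, ?_, ?_⟩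
  · rw [← gc_mul, hτ', ← gc_mul, hgn, hσ₀]
  · change τ⁻¹ ((g ^ n) (τ (τ⁻¹ w₀))) = τ⁻¹ w₀
    rw [e, ← smul_coe, h4 n _ hf]
  · change τ⁻¹ ((g ^ n) (τ z)) = z'
    rw [← hw, ← smul_coe, hn, hv, e']

/-- All pairs of roots are exchanged. -/
theorem all_swp (hD : Dat q P L) (hθ : ∀ i, IsGen (θ i) (M i)) (i₀ : I)
    {N : ℕ} (hR : R.Monic)
    (hirr : ∃ l : ℕ, l.Prime ∧ SplitsMod (gp (θ i₀)) l ∧ ¬ l ∣ M i₀ ∧
      (fun φ => (P i₀).map φ) ∈ irrPat (F := K i₀) l)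
    (hlin : 3 ≤ (P i₀).natDegree → ∃ l : ℕ, l.Prime ∧ SplitsMod (gp (θ i₀)) l ∧ ¬ l ∣ M i₀ ∧
      (fun φ => (P i₀).map φ) ∈ linPat (F := K i₀) l)
    (hswp : ∃ l : ℕ, l.Prime ∧ (∀ i, SplitsMod (gp (θ i)) l) ∧ ¬ l ∣ M i₀ ∧ SplitsMod R l ∧
      (fun φ => (P i₀).map φ) ∈ swapPat (F := K i₀) N l ∧
      ∀ i, i ≠ i₀ → (fun φ => (P i).map φ) ∈ splitPat (F := K i) l)
    (hN : ∀ z₁ z₂ : L, (∃ σ : K i₀ →+* L, z₁ ∈ Rt (P i₀) σ ∧ z₂ ∈ Rt (P i₀) σ) →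
      (∃ t : ℕ, 0 < t ∧ z₁ ^ t = z₂ ^ t) → z₁ ^ N = z₂ ^ N)
    (σ : K i₀ →+* L) :
    (∃ z₁ ∈ Rt (P i₀) σ, ∃ z₂ ∈ Rt (P i₀) σ, z₁ ≠ z₂) ∧
    ∀ z₁ ∈ Rt (P i₀) σ, ∀ z₂ ∈ Rt (P i₀) σ, z₁ ≠ z₂ → Swp P R i₀ σ z₁ z₂ ∧
      ∀ t : ℕ, 0 < t → z₁ ^ t ≠ z₂ ^ t := by
  classical
  obtain ⟨l, hl, hs, hM, hRs, h1, h2⟩ := hswp
  obtain ⟨σ', y₁, y₂, hy₁, hy₂, hne, hyN, hsw⟩ := exists_swp hD hθ i₀ σ hl hs hM hR hRs h1 h2
  obtain ⟨τ, hτ⟩ := exists_gal (L := L) (hθ i₀) σ' σ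
  have hτ' : gc τ σ' = σ := hτ
  set x₁ := τ y₁ with hx₁
  set x₂ := τ y₂ with hx₂
  have hx₁r : x₁ ∈ Rt (P i₀) σ := by
    have := rt_gc τ hy₁
    rwa [hτ'] at this
  have hx₂r : x₂ ∈ Rt (P i₀) σ := by
    have := rt_gc τ hy₂
    rwa [hτ'] at this
  have hxne : x₁ ≠ x₂ := fun h => hne (τ.injective h)
  have hxsw : Swp P R i₀ σ x₁ x₂ := by
    have := swp_conj hsw τ
    rwa [hτ'] at this
  have hxt : ∀ t : ℕ, 0 < t → x₁ ^ t ≠ x₂ ^ t := by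
    intro t ht h
    apply hyN
    refine hN y₁ y₂ ⟨σ', hy₁, hy₂⟩ ⟨t, ht, ?_⟩
    apply τ.injective
    rw [map_pow, map_pow]
    exact h
  refine ⟨⟨x₁, hx₁r, x₂, hx₂r, hxne⟩, ?_⟩
  -- double transitivity
  have htr : ∀ z₁ ∈ Rt (P i₀) σ, ∀ z₂ ∈ Rt (P i₀) σ, z₁ ≠ z₂ →
      ∃ g : Gal(L/ℚ), gc g σ = σ ∧ g x₁ = z₁ ∧ g x₂ = z₂ := by
    obtain ⟨l₁, hl₁, hs₁, hM₁, h₁⟩ := hirr
    have hT : ∀ {z z' : L}, z ∈ Rt (P i₀) σ → z' ∈ Rt (P i₀) σ →
        ∃ g : Gal(L/ℚ), gc g σ = σ ∧ g z = z' := fun hz hz' =>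
      exists_irr hD i₀ (hθ i₀) σ hl₁ hs₁ hM₁ h₁ hz hz'
    obtain ⟨z₀, hz₀, hst⟩ : ∃ z₀ ∈ Rt (P i₀) σ, ∀ z ∈ Rt (P i₀) σ, ∀ z' ∈ Rt (P i₀) σ,
        z ≠ z₀ → z' ≠ z₀ → ∃ g : Gal(L/ℚ), gc g σ = σ ∧ g z₀ = z₀ ∧ g z = z' := by
      by_cases h3 : 3 ≤ (P i₀).natDegree
      · obtain ⟨l₂, hl₂, hs₂, hM₂, h₂⟩ := hlin h3
        exact exists_lin hD i₀ (hθ i₀) σ hl₂ hs₂ hM₂ h₂
      · refine ⟨x₁, hx₁r, ?_⟩
        intro z hz z' hz' hn hn'
        refine ⟨1, gc_one σ, rfl, ?_⟩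
        by_contra hzz
        -- three roots of a polynomial of degree at most two
        have hP0 : (P i₀).map (res σ) ≠ 0 := ((hD.monic i₀).map _).ne_zero
        have hsub : ({x₁, z, z'} : Finset L) ⊆ ((P i₀).map (res σ)).roots.toFinset := by
          intro y hy
          rw [Multiset.mem_toFinset, mem_roots hP0, IsRoot.def, eval_map]
          simp only [Finset.mem_insert, Finset.mem_singleton] at hy
          rcases hy with rfl | rfl | rfl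
          · exact hx₁r
          · exact hz
          · exact hz'
        have hc : ({x₁, z, z'} : Finset L).card = 3 := by
          rw [Finset.card_eq_three]
          exact ⟨x₁, z, z', fun h => hn h.symm, fun h => hn' h.symm, hzz, rfl⟩
        have h4 := (Finset.card_le_card hsub).trans (Multiset.toFinset_card_le _)
        have h5 := (card_roots' ((P i₀).map (res σ)))
        have h6 : ((P i₀).map (res σ)).natDegree = (P i₀).natDegree :=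
          (hD.monic i₀).natDegree_map _
        omega
    intro z₁ hz₁ z₂ hz₂ hzne
    obtain ⟨g₁, hg₁, hg₁'⟩ := hT hx₁r hz₀
    obtain ⟨g₂, hg₂, hg₂'⟩ := hT hz₁ hz₀
    have hm1 := rt_gc g₁ hx₂r
    have hm2 := rt_gc g₂ hz₂
    rw [hg₁] at hm1
    rw [hg₂] at hm2
    obtain ⟨g, hg, hg', hg''⟩ := hst _ hm1 _ hm2
      (fun h => hxne (g₁.injective (hg₁'.trans h.symm)))
      (fun h => hzne (g₂.injective (hg₂'.trans h.symm)))
    have e' : ∀ x : L, g₂⁻¹ (g₂ x) = x := fun x => by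
      change (g₂⁻¹ * g₂) x = x
      rw [inv_mul_cancel]
      rfl
    refine ⟨g₂⁻¹ * g * g₁, ?_, ?_, ?_⟩
    · rw [← gc_mul, hg₁, ← gc_mul, hg, ← hg₂, gc_mul, inv_mul_cancel, gc_one]
      exact hg₂.symm
    · change g₂⁻¹ (g (g₁ x₁)) = z₁
      rw [hg₁', hg', ← hg₂', e']
    · change g₂⁻¹ (g (g₁ x₂)) = z₂
      rw [hg'', e']
  intro z₁ hz₁ z₂ hz₂ hzne
  obtain ⟨g, hg, hg1, hg2⟩ := htr z₁ hz₁ z₂ hz₂ hzne
  refine ⟨?_, ?_⟩
  · have := swp_conj hxsw g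
    rwa [hg, hg1, hg2] at this
  · intro t ht h
    apply hxt t ht
    apply g.injective
    rw [map_pow, map_pow, hg1, hg2, h]

end Exists

end Pool.Agent.K1H12.UN
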